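import Pool.Agent.Y605.ST.Red

/-!
# Minimum stabbing number triangulations: NP-hardness
-/

set_option autoImplicit false

namespace Pool.Agent.Y605.ST

open Pool.Agent.NPC Pool.Agent.W982.TA

open scoped Classical

/-- the number of edges of `T` that meet the line `α x + β y = γ` -/
noncomputable def met (T : Set (Sym2 (ℚ × ℚ))) (α β γ : ℝ) : ℕ :=
  {e | e ∈ T ∧ ∃ p q, e = s(p, q) ∧ ∃ z ∈ segment ℝ (Q.pt p) (Q.pt q), α * z.1 + β * z.2 = γ}.ncard

theorem hit_seg {α β γ : ℝ} {p q : Pt} :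
    (∃ z ∈ segment ℝ (Q.pt (Q.qt p)) (Q.pt (Q.qt q)), α * z.1 + β * z.2 = γ) ↔ Hit α β γ p q := by
  rw [Q.pt_qt, Q.pt_qt]
  unfold Hit segment emb
  constructor
  · rintro ⟨z, ⟨a, b, ha, hb, hab, rfl⟩, hz⟩
    refine ⟨b, hb, by linarith, ?_⟩
    have ea : a = 1 - b := by linarith
    rw [← ea]
    exact hz
  · rintro ⟨s, h0, h1, h2⟩
    exact ⟨_, ⟨1 - s, s, by linarith, h0, by ring, rfl⟩, h2⟩

theorem met_eq (T : Set (Sym2 Pt)) (α β γ : ℝ) :
    met (Sym2.map Q.qt '' T) α β γ = (mt T α β γ).ncard := by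
  unfold met
  rw [← Set.ncard_image_of_injective (mt T α β γ) (Sym2.map.injective Q.qt_inj)]
  congr 1
  ext e
  constructor
  · rintro ⟨⟨e', he', rfl⟩, p', q', he2, hz⟩
    refine ⟨e', ⟨he', ?_⟩, rfl⟩
    induction e' with
    | _ p q =>
      rw [hitE_mk]
      rw [Sym2.map_mk] at he2
      rcases Sym2.eq_iff.1 he2 with ⟨rfl, rfl⟩ | ⟨rfl, rfl⟩
      · exact hit_seg.1 hz
      · exact (hit_seg.1 hz).symm
  · rintro ⟨e', ⟨he', hh⟩, rfl⟩
    refine ⟨⟨e', he', rfl⟩, ?_⟩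
    induction e' with
    | _ p q =>
      rw [hitE_mk] at hh
      exact ⟨_, _, rfl, hit_seg.2 hh⟩

theorem stab_iff (S : Finset Pt) (k : ℤ) :
    (∃ T, IsTriangulation S T ∧ ∀ α β γ : ℝ, (α ≠ 0 ∨ β ≠ 0) → ((mt T α β γ).ncard : ℤ) ≤ k) ↔
      ∃ T, Q.IsTriangulation (S.image Q.qt) T ∧
        ∀ α β γ : ℝ, (α ≠ 0 ∨ β ≠ 0) → (met T α β γ : ℤ) ≤ k := by
  constructor
  · rintro ⟨T, hT, hA⟩
    have h1 : ∀ p q, s(p, q) ∈ T ↔ s(Q.qt p, Q.qt q) ∈ Sym2.map Q.qt '' T := by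
      intro p q
      rw [← Sym2.map_mk Q.qt p q]
      exact ((Sym2.map.injective Q.qt_inj).mem_set_image).symm
    have h2 : ∀ p' q', s(p', q') ∈ Sym2.map Q.qt '' T → ∃ p q, p' = Q.qt p ∧ q' = Q.qt q := by
      rintro p' q' ⟨z, hz, he⟩
      induction z with
      | _ a b =>
        rw [Sym2.map_mk, Sym2.eq_iff] at he
        rcases he with ⟨h3, h4⟩ | ⟨h3, h4⟩
        · exact ⟨a, b, h3.symm, h4.symm⟩
        · exact ⟨b, a, h4.symm, h3.symm⟩
    refine ⟨_, (Q.tri_iff S T _ h1 h2).1 hT, fun α β γ hne => ?_⟩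
    rw [met_eq]
    exact hA α β γ hne
  · rintro ⟨T', hT, hA⟩
    have h1 : ∀ p q, s(p, q) ∈ Sym2.map Q.qt ⁻¹' T' ↔ s(Q.qt p, Q.qt q) ∈ T' := by
      intro p q
      rfl
    have h2 : ∀ p' q', s(p', q') ∈ T' → ∃ p q, p' = Q.qt p ∧ q' = Q.qt q := by
      intro p' q' hm
      exact Q.isSeg_ex S _ _ (hT.seg _ _ hm)
    refine ⟨_, (Q.tri_iff S _ T' h1 h2).2 hT, fun α β γ hne => ?_⟩
    have h3 : Sym2.map Q.qt '' (Sym2.map Q.qt ⁻¹' T') = T' := by
      ext e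
      constructor
      · rintro ⟨e', he', rfl⟩
        exact he'
      · intro he
        induction e with
        | _ p' q' =>
          obtain ⟨p, q, rfl, rfl⟩ := h2 p' q' he
          exact ⟨s(p, q), he, rfl⟩
    have h4 := hA α β γ hne
    rw [← h3, met_eq] at h4
    exact h4

section
variable {φ : List Cl}

theorem kk_eq : (cfg φ).k = ((kk φ : ℕ) : ℤ) := by
  show 3 * ((cR φ : ℤ) * ((cS φ : ℤ) - 1)) + 2 * ((cA φ : ℤ) + (cR φ : ℤ)) = _
  unfold kk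
  have : 1 ≤ cS φ := by unfold cS; omega
  push_cast [Nat.cast_sub this]
  ring

theorem Q_set : (cfg φ).P.image Q.qt = (inst φ).1.toFinset := by
  rw [P_eq]
  ext p
  unfold inst
  dsimp only
  rw [List.mem_toFinset, List.mem_map, Finset.mem_image]
  constructor
  · rintro ⟨u, hu, rfl⟩
    obtain ⟨v, hv, rfl⟩ := Finset.mem_image.1 hu
    refine ⟨v, List.mem_toFinset.1 hv, ?_⟩
    unfold qz zt Q.qt
    simp
  · rintro ⟨v, hv, rfl⟩
    refine ⟨zt v, Finset.mem_image_of_mem _ (List.mem_toFinset.2 hv), ?_⟩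
    unfold qz zt Q.qt
    simp

theorem qz_inj : Function.Injective qz := by
  intro v w h
  unfold qz at h
  rw [Prod.mk.injEq] at h
  exact Prod.ext (by exact_mod_cast h.1) (by exact_mod_cast h.2)

theorem inst_nodup (φ : List Cl) : (inst φ).1.Nodup := nodup_Pl.map qz_inj

theorem inst_ncol (φ : List Cl) : ¬ Collinear ℝ {x | ∃ p ∈ (inst φ).1, x = Q.pt p} := by
  have hok := cfg_ok φ
  have hKz := Cfg.K_pos hok
  have hK : 0 < cK φ := by rw [cfgK] at hKz; exact_mod_cast hKz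
  have ha := hok.apos
  have hr := hok.rpos
  have mem : ∀ x y : ℕ, x ≤ 1 → y ≤ 1 →
      ((((cK φ * x : ℕ) : ℝ), ((cK φ * y : ℕ) : ℝ)) : ℝ × ℝ) ∈
        {x | ∃ p ∈ (inst φ).1, x = Q.pt p} := by
    intro x y hx hy
    have h1 : (((cfg φ).K * (x : ℤ), (cfg φ).K * (y : ℤ)) : Pt) ∈ (cfg φ).P := by
      refine Cfg.mem_lat hok (Cfg.lat_bd hok (by positivity) ?_ (by positivity) ?_ (Or.inl ?_))
      · have : (x : ℤ) ≤ 1 := by exact_mod_cast hx
        linarith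
      · have : (y : ℤ) ≤ 1 := by exact_mod_cast hy
        linarith
      · exact_mod_cast hx
    have h2 : Q.qt ((cfg φ).K * (x : ℤ), (cfg φ).K * (y : ℤ)) ∈ (inst φ).1 := by
      rw [← List.mem_toFinset, ← Q_set]
      exact Finset.mem_image_of_mem _ h1
    refine ⟨_, h2, ?_⟩
    unfold Q.pt Q.qt
    rw [cfgK]
    push_cast
    rfl
  rw [collinear_iff_of_mem (mem 0 0 (by norm_num) (by norm_num))]
  rintro ⟨v, hv⟩
  obtain ⟨r, hr'⟩ := hv _ (mem 1 0 (by norm_num) (by norm_num))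
  obtain ⟨s, hs'⟩ := hv _ (mem 0 1 (by norm_num) (by norm_num))
  have hKr : (0 : ℝ) < cK φ := by exact_mod_cast hK
  have a1 := congrArg Prod.fst hr'
  have a2 := congrArg Prod.snd hr'
  have b1 := congrArg Prod.fst hs'
  have b2 := congrArg Prod.snd hs'
  simp at a1 a2 b1 b2
  have hr0 : r ≠ 0 := by
    rintro rfl
    simp at a1
    linarith
  have hs0 : s ≠ 0 := by
    rintro rfl
    simp at b2
    linarith
  rcases a2 with h | h
  · exact hr0 h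
  · rw [h, mul_zero] at b2
    linarith

/-- the reduction -/
theorem inst_iff (hB : Bounded3 φ) : SAT3 φ ↔ ∃ T, Q.IsTriangulation (inst φ).1.toFinset T ∧
    ∀ α β γ : ℝ, (α ≠ 0 ∨ β ≠ 0) → (met T α β γ : ℤ) ≤ (inst φ).2 := by
  rw [cfg_iff hB, stab_iff, Q_set, kk_eq]
  rfl

end

/-- the decision problem -/
def MinStab (I : List (ℚ × ℚ) × ℤ) : Prop :=
  I.1.Nodup ∧ ¬ Collinear ℝ {x | ∃ p ∈ I.1, x = Q.pt p} ∧
    ∃ T, Q.IsTriangulation I.1.toFinset T ∧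
      ∀ α β γ : ℝ, (α ≠ 0 ∨ β ≠ 0) → (met T α β γ : ℤ) ≤ I.2

/-- the hardness theorem -/
theorem all : NPHardP MinStab := by
  refine (HardPr.trans (Pr' := fun _ => True) hardPr_SAT3b inst_poly (fun _ _ => trivial)
    (fun φ h => ?_)).toHardI.toNPHardP
  rw [inst_iff h.2.1]
  exact ⟨fun h => ⟨inst_nodup φ, inst_ncol φ, h⟩, fun h => h.2.2⟩

end Pool.Agent.Y605.ST
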