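import Pool.Agent.W999.TA_G1
import Pool.Agent.W120.TA_G3
import Pool.Agent.W366.TA_G4
import Pool.Agent.W584.TA_G5
import Pool.Agent.W585.TA_G6
import Pool.Agent.W284.TA_G7
import Pool.Agent.W403.TA_G8
import Pool.Agent.W347.TA_G9

/-!
# Triangulations of integer point sets: triangles on both sides of an edge
-/

set_option autoImplicit false

namespace Pool.Agent.Y605.ST

open Pool.Agent.W982.TA

/-- a counterclockwise triangle of the triangulation -/
structure Tr (S : Finset Pt) (T : Set (Sym2 Pt)) (a b c : Pt) : Prop where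
  pos : 0 < dt a b c
  ab : s(a, b) ∈ T
  bc : s(b, c) ∈ T
  ca : s(c, a) ∈ T
  emp : ∀ r ∈ S, InTri a b c r → r = a ∨ r = b ∨ r = c

theorem dt_rot (a b c : Pt) : dt b c a = dt a b c := by unfold dt; ring

theorem dt_swap (a b c : Pt) : dt a c b = - dt a b c := by unfold dt; ring

theorem dt_swap' (a b c : Pt) : dt b a c = - dt a b c := by unfold dt; ring

theorem dt_left (a b : Pt) : dt a b a = 0 := by unfold dt; ring

theorem dt_right (a b : Pt) : dt a b b = 0 := by unfold dt; ring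

theorem dt_same (a b : Pt) : dt a a b = 0 := by unfold dt; ring

theorem Tr.rot {S : Finset Pt} {T : Set (Sym2 Pt)} {a b c : Pt} (h : Tr S T a b c) :
    Tr S T b c a := by
  refine ⟨by rw [dt_rot]; exact h.pos, h.bc, h.ca, h.ab, fun r hr hi => ?_⟩
  have := h.emp r hr ⟨hi.2.2, hi.1, hi.2.1⟩
  tauto

theorem left_tri {S : Finset Pt} {T : Set (Sym2 Pt)} (hT : IsTriangulation S T) {a b : Pt}
    (hab : s(a, b) ∈ T) (h : ∃ s ∈ S, 0 < dt a b s) : ∃ c, Tr S T a b c := by
  obtain ⟨c, hc, ⟨h1, h2, h3, -, h5⟩, -⟩ := g9 g1 g6 g7 g8 S T hT a b hab h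
  refine ⟨c, hc, h1, h2, ?_, fun r hr hi => h5 r hr ((g1 a b c r hc).2 hi)⟩
  rw [Sym2.eq_swap]
  exact h3

theorem noX {S : Finset Pt} {T : Set (Sym2 Pt)} (hT : IsTriangulation S T) {a b c d : Pt}
    (h1 : s(a, b) ∈ T) (h2 : s(c, d) ∈ T) (hne : s(a, b) ≠ s(c, d)) : ¬ PCross a b c d :=
  fun h => g3 a b c d h (hT.noncross a b c d h1 h2 hne)

theorem mem_left {S : Finset Pt} {T : Set (Sym2 Pt)} (hT : IsTriangulation S T) {a b : Pt}
    (h : s(a, b) ∈ T) : a ∈ S := (hT.seg a b h).1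

theorem mem_right {S : Finset Pt} {T : Set (Sym2 Pt)} (hT : IsTriangulation S T) {a b : Pt}
    (h : s(a, b) ∈ T) : b ∈ S := (hT.seg a b h).2.1

theorem wedge {S : Finset Pt} {T : Set (Sym2 Pt)} (hT : IsTriangulation S T) {a b c d : Pt}
    (h : Tr S T a b c) (hd : s(a, d) ∈ T) (h1 : 0 < dt a b d) (h2 : 0 < dt a d c) : False := by
  have hdS := mem_right hT hd
  have e1 : dt c a d = dt a d c := by unfold dt; ring
  have hn : dt b c d < 0 := by
    by_contra hcon
    push Not at hcon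
    rcases h.emp d hdS ⟨h1.le, hcon, by rw [e1]; exact h2.le⟩ with rfl | rfl | rfl
    · rw [dt_left] at h1; exact lt_irrefl _ h1
    · rw [dt_right] at h1; exact lt_irrefl _ h1
    · rw [dt_right] at h2; exact lt_irrefl _ h2
  refine noX hT hd h.bc ?_ ⟨?_, ?_⟩
  · intro he
    rcases Sym2.eq_iff.1 he with ⟨rfl, _⟩ | ⟨rfl, _⟩
    · have := h.pos; rw [dt_same] at this; exact lt_irrefl _ this
    · have := h.pos; rw [dt_left] at this; exact lt_irrefl _ this
  · rw [dt_swap a b d]
    nlinarith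
  · rw [dt_rot a b c]
    exact mul_neg_of_pos_of_neg h.pos hn

/-- two edges at `a` with the same direction are equal -/
theorem ray_eq {S : Finset Pt} {a c c' : Pt} (h1 : IsSeg S a c) (h2 : IsSeg S a c') (α β : ℤ)
    (hc : 0 < α * (c.1 - a.1) + β * (c.2 - a.2)) (hc' : 0 < α * (c'.1 - a.1) + β * (c'.2 - a.2))
    (h0 : dt a c c' = 0) : c = c' := by
  set s := α * (c.1 - a.1) + β * (c.2 - a.2) with hs
  set s' := α * (c'.1 - a.1) + β * (c'.2 - a.2) with hs'
  have e1 : s * (c'.1 - a.1) = s' * (c.1 - a.1) := by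
    unfold dt at h0
    rw [hs, hs']
    linear_combination (-β) * h0
  have e2 : s * (c'.2 - a.2) = s' * (c.2 - a.2) := by
    unfold dt at h0
    rw [hs, hs']
    linear_combination α * h0
  have key : ∀ (x y : Pt) (u v : ℤ), IsSeg S a x → IsSeg S a y → 0 < u → u < v →
      u * (y.1 - a.1) = v * (x.1 - a.1) → u * (y.2 - a.2) = v * (x.2 - a.2) → False := by
    intro x y u v hx hy hu huv k1 k2
    refine hy.2.2.2 x hx.2.1 ?_
    have hu' : (0 : ℝ) < u := by exact_mod_cast hu
    have hv' : (u : ℝ) < v := by exact_mod_cast huv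
    have hv0 : (0 : ℝ) < v := by linarith
    have k1' : (u : ℝ) * (y.1 - a.1) = v * (x.1 - a.1) := by exact_mod_cast k1
    have k2' : (u : ℝ) * (y.2 - a.2) = v * (x.2 - a.2) := by exact_mod_cast k2
    refine G4aux.seg_mem ((u : ℝ) / v) (by positivity) ((div_lt_one hv0).2 hv') ?_ ?_
    · show (x.1 : ℝ) = (1 - (u : ℝ) / v) * a.1 + (u : ℝ) / v * y.1
      field_simp
      linear_combination -k1'
    · show (x.2 : ℝ) = (1 - (u : ℝ) / v) * a.2 + (u : ℝ) / v * y.2
      field_simp
      linear_combination -k2'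
  rcases lt_trichotomy s s' with h | h | h
  · exact (key c c' s s' h1 h2 hc h e1 e2).elim
  · rw [← h] at e1 e2
    have hne : s ≠ 0 := hc.ne'
    have e3 := mul_left_cancel₀ hne e1
    have e4 := mul_left_cancel₀ hne e2
    exact Prod.ext (by linarith) (by linarith)
  · exact (key c' c s' s h2 h1 hc' h e1.symm e2.symm).elim

theorem tri_unique {S : Finset Pt} {T : Set (Sym2 Pt)} (hT : IsTriangulation S T) {a b c c' : Pt}
    (h : Tr S T a b c) (h' : Tr S T a b c') : c = c' := by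
  have hc : s(a, c) ∈ T := by rw [Sym2.eq_swap]; exact h.ca
  have hc' : s(a, c') ∈ T := by rw [Sym2.eq_swap]; exact h'.ca
  rcases lt_trichotomy (dt a c c') 0 with h0 | h0 | h0
  · exact (wedge hT h hc' h'.pos (by rw [dt_swap]; linarith)).elim
  · refine ray_eq (hT.seg _ _ hc) (hT.seg _ _ hc') (-(b.2 - a.2)) (b.1 - a.1) ?_ ?_ h0
    · have := h.pos; unfold dt at this; linarith
    · have := h'.pos; unfold dt at this; linarith
  · exact (wedge hT h' hc h.pos h0).elim

end Pool.Agent.Y605.ST
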