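import Pool.Agent.Y605.ST.Count

/-!
# The point sets of the reduction
-/

set_option autoImplicit false

namespace Pool.Agent.Y605.ST

open Pool.Agent.W982.TA

open scoped Classical

/-- the data of a point set -/
structure Cfg where
  /-- the size of the main square -/
  a : ℤ
  /-- the length of the two arms -/
  r : ℤ
  /-- half of the lattice spacing -/
  σ : ℤ
  /-- missing lattice points -/
  M : Finset (ℤ × ℤ)
  /-- the row gaps with a ruler -/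
  H : Finset ℤ
  /-- the column gaps with a ruler -/
  V : Finset ℤ

/-- the lattice spacing -/
def Cfg.K (C : Cfg) : ℤ := 2 * C.σ

/-- the lattice points -/
def Cfg.Lat (C : Cfg) (p : ℤ × ℤ) : Prop :=
  0 ≤ p.1 ∧ 0 ≤ p.2 ∧ ((p.1 ≤ C.a + C.r ∧ p.2 ≤ C.a) ∨ (p.1 ≤ C.a ∧ p.2 ≤ C.a + C.r)) ∧ p ∉ C.M

/-- the points of the set -/
def Cfg.In (C : Cfg) (p : Pt) : Prop :=
  (∃ x y : ℤ, C.Lat (x, y) ∧ p = (C.K * x, C.K * y)) ∨
  (∃ j i l : ℤ, j ∈ C.H ∧ C.a ≤ i ∧ i < C.a + C.r ∧ 1 ≤ l ∧ l < C.σ ∧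
    p = (C.K * i + 2 * l, C.K * j + C.σ)) ∨
  (∃ j i l : ℤ, j ∈ C.V ∧ C.a ≤ i ∧ i < C.a + C.r ∧ 1 ≤ l ∧ l < C.σ ∧
    p = (C.K * j + C.σ, C.K * i + 2 * l))

/-- the requirements -/
structure Cfg.OK (C : Cfg) : Prop where
  apos : 4 ≤ C.a
  rpos : 1 ≤ C.r
  σpos : 2 ≤ C.σ
  Mbox : ∀ p ∈ C.M, 2 ≤ p.1 ∧ p.1 ≤ C.a - 2 ∧ 2 ≤ p.2 ∧ p.2 ≤ C.a - 2
  iso : ∀ p ∈ C.M, ∀ q ∈ C.M, p.1 - q.1 ≤ 1 → q.1 - p.1 ≤ 1 → p.2 - q.2 ≤ 1 → q.2 - p.2 ≤ 1 →
    p = q
  Hbox : ∀ j ∈ C.H, 1 ≤ j ∧ j ≤ C.a - 2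
  Vbox : ∀ j ∈ C.V, 1 ≤ j ∧ j ≤ C.a - 2

theorem Cfg.In_box {C : Cfg} (h : C.OK) {p : Pt} (hp : C.In p) :
    (0 ≤ p.1 ∧ p.1 ≤ C.K * (C.a + C.r)) ∧ (0 ≤ p.2 ∧ p.2 ≤ C.K * (C.a + C.r)) := by
  have hσ := h.σpos
  have ha := h.apos
  have hr := h.rpos
  have hK : 0 < C.K := by unfold Cfg.K; linarith
  rcases hp with ⟨x, y, hL, rfl⟩ | ⟨j, i, l, hj, h1, h2, h3, h4, rfl⟩ | ⟨j, i, l, hj, h1, h2, h3, h4, rfl⟩
  · obtain ⟨h1, h2, h3, -⟩ := hL
    dsimp only at h1 h2 h3 ⊢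
    have hx : x ≤ C.a + C.r := by rcases h3 with h3 | h3 <;> linarith [h3.1, h3.2]
    have hy : y ≤ C.a + C.r := by rcases h3 with h3 | h3 <;> linarith [h3.1, h3.2]
    exact ⟨⟨mul_nonneg hK.le h1, mul_le_mul_of_nonneg_left hx hK.le⟩,
      ⟨mul_nonneg hK.le h2, mul_le_mul_of_nonneg_left hy hK.le⟩⟩
  · have hj' := h.Hbox j hj
    dsimp only
    have e1 : C.K * (i + 1) ≤ C.K * (C.a + C.r) := mul_le_mul_of_nonneg_left (by linarith) hK.le
    have e2 : C.K * (j + 1) ≤ C.K * (C.a + C.r) := mul_le_mul_of_nonneg_left (by linarith) hK.le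
    have e3 : 0 ≤ C.K * i := mul_nonneg hK.le (by linarith)
    have e4 : 0 ≤ C.K * j := mul_nonneg hK.le (by linarith)
    unfold Cfg.K at *
    refine ⟨⟨?_, ?_⟩, ⟨?_, ?_⟩⟩ <;> linarith
  · have hj' := h.Vbox j hj
    dsimp only
    have e1 : C.K * (i + 1) ≤ C.K * (C.a + C.r) := mul_le_mul_of_nonneg_left (by linarith) hK.le
    have e2 : C.K * (j + 1) ≤ C.K * (C.a + C.r) := mul_le_mul_of_nonneg_left (by linarith) hK.le
    have e3 : 0 ≤ C.K * i := mul_nonneg hK.le (by linarith)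
    have e4 : 0 ≤ C.K * j := mul_nonneg hK.le (by linarith)
    unfold Cfg.K at *
    refine ⟨⟨?_, ?_⟩, ⟨?_, ?_⟩⟩ <;> linarith

/-- the point set -/
noncomputable def Cfg.P (C : Cfg) : Finset Pt :=
  (Finset.Icc 0 (C.K * (C.a + C.r)) ×ˢ Finset.Icc 0 (C.K * (C.a + C.r))).filter fun p => C.In p

theorem Cfg.mem_P {C : Cfg} (h : C.OK) {p : Pt} : p ∈ C.P ↔ C.In p := by
  unfold Cfg.P
  rw [Finset.mem_filter, Finset.mem_product, Finset.mem_Icc, Finset.mem_Icc]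
  exact ⟨fun h => h.2, fun hp => ⟨Cfg.In_box h hp, hp⟩⟩

theorem Cfg.K_pos {C : Cfg} (h : C.OK) : 0 < C.K := by
  unfold Cfg.K; linarith [h.σpos]

theorem mul_inj {K x y : ℤ} (hK : 0 < K) (h : K * x = K * y) : x = y :=
  mul_left_cancel₀ hK.ne' h

/-- the corners of the big rectangle -/
theorem Cfg.lat_bd {C : Cfg} (h : C.OK) {x y : ℤ} (hx0 : 0 ≤ x) (hx : x ≤ C.a + C.r) (hy0 : 0 ≤ y)
    (hy : y ≤ C.a) (hb : x ≤ 1 ∨ C.a - 1 ≤ x ∨ y ≤ 1 ∨ C.a - 1 ≤ y) : C.Lat (x, y) := by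
  refine ⟨hx0, hy0, Or.inl ⟨hx, hy⟩, fun hM => ?_⟩
  have := h.Mbox _ hM
  dsimp only at this
  omega

theorem Cfg.mem_lat {C : Cfg} (h : C.OK) {x y : ℤ} (hL : C.Lat (x, y)) :
    ((C.K * x, C.K * y) : Pt) ∈ C.P := (Cfg.mem_P h).2 (Or.inl ⟨x, y, hL, rfl⟩)

theorem Cfg.not_bd {C : Cfg} (h : C.OK) {p : Pt} (h1 : 0 < p.1) (h2 : p.1 < C.K * (C.a + C.r))
    (h3 : 0 < p.2) (h4 : p.2 < C.K * C.a) : ¬ Bd C.P p := by
  have ha := h.apos
  have hr := h.rpos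
  have c1 : ((C.K * 0, C.K * 0) : Pt) ∈ C.P := Cfg.mem_lat h
    (Cfg.lat_bd h (by linarith) (by linarith) (by linarith) (by linarith) (Or.inl (by linarith)))
  have c2 : ((C.K * (C.a + C.r), C.K * 0) : Pt) ∈ C.P := Cfg.mem_lat h
    (Cfg.lat_bd h (by linarith) (by linarith) (by linarith) (by linarith)
      (Or.inr (Or.inl (by linarith))))
  have c3 : ((C.K * 0, C.K * C.a) : Pt) ∈ C.P := Cfg.mem_lat h
    (Cfg.lat_bd h (by linarith) (by linarith) (by linarith) (by linarith) (Or.inl (by linarith)))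
  have c4 : ((C.K * (C.a + C.r), C.K * C.a) : Pt) ∈ C.P := Cfg.mem_lat h
    (Cfg.lat_bd h (by linarith) (by linarith) (by linarith) (by linarith)
      (Or.inr (Or.inl (by linarith))))
  rintro ⟨α, β, hne, hs⟩
  have s1 := hs _ c1
  have s2 := hs _ c2
  have s3 := hs _ c3
  have s4 := hs _ c4
  dsimp only at s1 s2 s3 s4
  rw [mul_zero] at s1 s2 s3
  rcases lt_trichotomy α 0 with hα | hα | hα
  · rcases le_total β 0 with hβ | hβ
    · nlinarith [mul_neg_of_neg_of_pos hα h1, mul_nonneg (neg_nonneg.2 hβ) h3.le]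
    · nlinarith [mul_neg_of_neg_of_pos hα h1, mul_nonneg hβ (sub_nonneg.2 h4.le)]
  · have hβ : β ≠ 0 := by
      rcases hne with h5 | h5
      · exact absurd hα h5
      · exact h5
    rw [hα] at s1 s2 s3 s4
    rcases lt_or_gt_of_ne hβ with hβ | hβ
    · nlinarith [mul_neg_of_neg_of_pos hβ h3]
    · nlinarith [mul_pos hβ (sub_pos.2 h4)]
  · rcases le_total β 0 with hβ | hβ
    · nlinarith [mul_pos hα (sub_pos.2 h2), mul_nonneg (neg_nonneg.2 hβ) h3.le]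
    · nlinarith [mul_pos hα (sub_pos.2 h2), mul_nonneg hβ (sub_nonneg.2 h4.le)]

/-- the points with a given height on a lattice row -/
theorem Cfg.row_lat {C : Cfg} (h : C.OK) {p : Pt} (hp : C.In p) {y : ℤ} (hy : p.2 = C.K * y)
    (hya : y < C.a) : ∃ x, C.Lat (x, y) ∧ p = (C.K * x, C.K * y) := by
  have hK := Cfg.K_pos h
  have hσ := h.σpos
  rcases hp with ⟨x, y', hL, rfl⟩ | ⟨j, i, l, hj, h1, h2, h3, h4, rfl⟩ | ⟨j, i, l, hj, h1, h2, h3, h4, rfl⟩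
  · dsimp only at hy
    have := mul_inj hK hy
    subst this
    exact ⟨x, hL, rfl⟩
  · exfalso
    dsimp only at hy
    unfold Cfg.K at hy
    have e : C.σ * (2 * j + 1) = C.σ * (2 * y) := by linarith
    have := mul_inj (by linarith) e
    omega
  · exfalso
    dsimp only at hy
    have e1 : C.K * y < C.K * i := mul_lt_mul_of_pos_left (by linarith) hK
    linarith

/-- heights above the middle of a row gap -/
theorem Cfg.above {C : Cfg} (h : C.OK) {p : Pt} (hp : C.In p) {j : ℤ} (hj : j + 1 ≤ C.a)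
    (hpj : C.K * j + C.σ < p.2) : C.K * (j + 1) ≤ p.2 := by
  have hK := Cfg.K_pos h
  have hσ := h.σpos
  rcases hp with ⟨x, y', hL, rfl⟩ | ⟨j', i, l, hj', h1, h2, h3, h4, rfl⟩ | ⟨j', i, l, hj', h1, h2, h3, h4, rfl⟩
  · dsimp only at hpj ⊢
    refine mul_le_mul_of_nonneg_left ?_ hK.le
    by_contra hcon
    push Not at hcon
    have e1 : C.K * y' ≤ C.K * j := mul_le_mul_of_nonneg_left (by omega) hK.le
    linarith
  · dsimp only at hpj ⊢
    have e0 : j < j' := by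
      by_contra hcon
      push Not at hcon
      have e1 : C.K * j' ≤ C.K * j := mul_le_mul_of_nonneg_left hcon hK.le
      linarith
    have e1 : C.K * (j + 1) ≤ C.K * j' := mul_le_mul_of_nonneg_left (by omega) hK.le
    linarith
  · dsimp only at hpj ⊢
    have e1 : C.K * (j + 1) ≤ C.K * i := mul_le_mul_of_nonneg_left (by linarith) hK.le
    linarith

/-- heights below the middle of a row gap -/
theorem Cfg.below {C : Cfg} (h : C.OK) {p : Pt} (hp : C.In p) {j : ℤ} (hj : j + 1 ≤ C.a)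
    (hpj : p.2 < C.K * j + C.σ) : p.2 ≤ C.K * j := by
  have hK := Cfg.K_pos h
  have hσ := h.σpos
  have hK2 : C.K = 2 * C.σ := rfl
  rcases hp with ⟨x, y', hL, rfl⟩ | ⟨j', i, l, hj', h1, h2, h3, h4, rfl⟩ | ⟨j', i, l, hj', h1, h2, h3, h4, rfl⟩
  · dsimp only at hpj ⊢
    refine mul_le_mul_of_nonneg_left ?_ hK.le
    by_contra hcon
    push Not at hcon
    have e1 : C.K * (j + 1) ≤ C.K * y' := mul_le_mul_of_nonneg_left (by omega) hK.le
    linarith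
  · dsimp only at hpj ⊢
    have e0 : j' < j := by
      by_contra hcon
      push Not at hcon
      have e1 : C.K * j ≤ C.K * j' := mul_le_mul_of_nonneg_left hcon hK.le
      linarith
    have e1 : C.K * (j' + 1) ≤ C.K * j := mul_le_mul_of_nonneg_left (by omega) hK.le
    linarith
  · exfalso
    dsimp only at hpj
    have e1 : C.K * (j + 1) ≤ C.K * i := mul_le_mul_of_nonneg_left (by linarith) hK.le
    linarith

/-- the points on the middle line of a row gap -/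
theorem Cfg.mid {C : Cfg} (h : C.OK) {p : Pt} (hp : C.In p) {j : ℤ} (hj : j + 1 ≤ C.a)
    (hpj : p.2 = C.K * j + C.σ) : j ∈ C.H ∧ ∃ i l : ℤ, C.a ≤ i ∧ i < C.a + C.r ∧ 1 ≤ l ∧ l < C.σ ∧
      p = (C.K * i + 2 * l, C.K * j + C.σ) := by
  have hK := Cfg.K_pos h
  have hσ := h.σpos
  have hK2 : C.K = 2 * C.σ := rfl
  rcases hp with ⟨x, y', hL, rfl⟩ | ⟨j', i, l, hj', h1, h2, h3, h4, rfl⟩ | ⟨j', i, l, hj', h1, h2, h3, h4, rfl⟩
  · exfalso
    dsimp only at hpj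
    rw [hK2] at hpj
    have e : C.σ * (2 * y') = C.σ * (2 * j + 1) := by linarith
    have := mul_inj (by linarith) e
    omega
  · dsimp only at hpj
    have := mul_inj hK (by linarith : C.K * j' = C.K * j)
    subst this
    exact ⟨hj', i, l, h1, h2, h3, h4, rfl⟩
  · exfalso
    dsimp only at hpj
    have e1 : C.K * (j + 1) ≤ C.K * i := mul_le_mul_of_nonneg_left (by linarith) hK.le
    linarith

end Pool.Agent.Y605.ST
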