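import Pool.Agent.Y605.ST.Gen

/-!
# The equivalence for the point sets of the reduction
-/

set_option autoImplicit false

namespace Pool.Agent.Y605.ST

open Pool.Agent.W982.TA

open scoped Classical

/-- the edges that meet a line -/
def mt (T : Set (Sym2 Pt)) (α β γ : ℝ) : Set (Sym2 Pt) := {e | e ∈ T ∧ hitE α β γ e}

theorem mt_hst (T : Set (Sym2 Pt)) {β : ℝ} (hβ : β ≠ 0) (c : ℤ) :
    mt T 0 β (β * (c : ℤ)) = hst T c := by
  ext e
  induction e with
  | _ p q =>
    unfold mt hst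
    rw [Set.mem_setOf_eq, Set.mem_setOf_eq, hitE_mk]
    refine and_congr_right fun _ => ?_
    constructor
    · rintro ⟨s, h0, h1, h2⟩
      have h3 : β * ((1 - s) * (p.2 : ℝ) + s * q.2) = β * (c : ℤ) := by rw [← h2]; ring
      have h4 := mul_left_cancel₀ hβ h3
      constructor
      · by_contra hcon
        push Not at hcon
        have a1 : (c : ℝ) < p.2 := by exact_mod_cast hcon p (Sym2.mem_mk_left p q)
        have a2 : (c : ℝ) < q.2 := by exact_mod_cast hcon q (Sym2.mem_mk_right p q)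
        rcases eq_or_lt_of_le h0 with rfl | h0'
        · linarith
        · nlinarith
      · by_contra hcon
        push Not at hcon
        have a1 : (p.2 : ℝ) < c := by exact_mod_cast hcon p (Sym2.mem_mk_left p q)
        have a2 : (q.2 : ℝ) < c := by exact_mod_cast hcon q (Sym2.mem_mk_right p q)
        rcases eq_or_lt_of_le h0 with rfl | h0'
        · linarith
        · nlinarith
    · rintro ⟨⟨u, hu, hu'⟩, ⟨w, hw, hw'⟩⟩
      have key : ∀ x y : ℤ, x ≤ c → c ≤ y → ∃ s : ℝ, 0 ≤ s ∧ s ≤ 1 ∧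
          (1 - s) * (x : ℝ) + s * y = c := by
        intro x y h1 h2
        have h1' : (x : ℝ) ≤ c := by exact_mod_cast h1
        have h2' : (c : ℝ) ≤ y := by exact_mod_cast h2
        rcases eq_or_lt_of_le (h1'.trans h2') with h3 | h3
        · exact ⟨0, le_rfl, by norm_num, by linarith⟩
        · have h4 : (0 : ℝ) < y - x := by linarith
          refine ⟨(c - x) / (y - x), div_nonneg (by linarith) h4.le, ?_, ?_⟩
          · rw [div_le_one h4]; linarith
          · field_simp; ring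
      rcases Sym2.mem_iff.1 hu with e1 | e1 <;> rcases Sym2.mem_iff.1 hw with e2 | e2 <;>
        rw [e1] at hu' <;> rw [e2] at hw'
      · exact ⟨0, le_rfl, by norm_num, by
          have : (p.2 : ℝ) = c := by exact_mod_cast le_antisymm hu' hw'
          rw [this]; ring⟩
      · obtain ⟨s, h0, h1, h2⟩ := key _ _ hu' hw'
        exact ⟨s, h0, h1, by rw [h2]; ring⟩
      · obtain ⟨s, h0, h1, h2⟩ := key _ _ hu' hw'
        refine ⟨1 - s, by linarith, by linarith, ?_⟩
        have : (1 - (1 - s)) * (p.2 : ℝ) + (1 - s) * q.2 = c := by rw [← h2]; ring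
        rw [this]; ring
      · exact ⟨1, by norm_num, le_rfl, by
          have : (q.2 : ℝ) = c := by exact_mod_cast le_antisymm hu' hw'
          rw [this]; ring⟩

theorem mt_sw (T : Set (Sym2 Pt)) (α β γ : ℝ) : (mt T α β γ).ncard = (mt (swS T) β α γ).ncard := by
  have : mt (swS T) β α γ = Sym2.map sw '' mt T α β γ := by
    ext e
    constructor
    · rintro ⟨h1, h2⟩
      refine ⟨e.map sw, ⟨h1, ?_⟩, map_sw_sw e⟩
      rw [hitE_sw]; exact h2
    · rintro ⟨e', ⟨h1, h2⟩, rfl⟩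
      refine ⟨?_, hitE_sw.2 h2⟩
      unfold swS
      rw [Set.mem_setOf_eq, map_sw_sw]
      exact h1
  rw [this, Set.ncard_image_of_injective _ (Sym2.map.injective sw_inj)]

theorem longHV {C : Cfg} (h : C.OK) {T : Set (Sym2 Pt)} (hT : IsTriangulation C.P T) {x y : ℤ}
    (h1 : longH C (x, y) ∈ T) (h2 : longV C (x, y) ∈ T) : False := by
  have hK := Cfg.K_pos h
  have k8 : longH C (x, y) = longV C (x, y) := by
    refine eq_of_meet hT h1 h2 (z := (((C.K * x : ℤ) : ℝ), ((C.K * y : ℤ) : ℝ))) ?_ ?_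
    · exact (mem_longH h).2 ⟨(KltR h).2 (by linarith), (KltR h).2 (by linarith), rfl⟩
    · exact (mem_longV h).2 ⟨(KltR h).2 (by linarith), (KltR h).2 (by linarith), rfl⟩
  unfold longH longV at k8
  dsimp only at k8
  rcases Sym2.eq_iff.1 k8 with ⟨g1, -⟩ | ⟨g1, -⟩
  · rw [Prod.mk.injEq] at g1
    have := mul_inj hK g1.1
    omega
  · rw [Prod.mk.injEq] at g1
    have := mul_inj hK g1.1
    omega

/-- the number of edges that a line may meet -/
def Cfg.k (C : Cfg) : ℤ := 3 * (C.r * (C.σ - 1)) + 2 * (C.a + C.r)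

/-- the choice problem -/
def Cfg.Sat (C : Cfg) : Prop := ∃ φ : ℤ × ℤ → Prop,
  (∀ j ∈ C.H, ∃ p ∈ C.M, (p.2 = j ∨ p.2 = j + 1) ∧ φ p) ∧
  (∀ j ∈ C.V, ∃ p ∈ C.M, (p.1 = j ∨ p.1 = j + 1) ∧ ¬ φ p)

theorem main_iff {C : Cfg} (h : C.OK) (hB : C.Big) :
    (∃ T, IsTriangulation C.P T ∧ ∀ α β γ : ℝ, (α ≠ 0 ∨ β ≠ 0) → ((mt T α β γ).ncard : ℤ) ≤ C.k) ↔
      C.Sat := by
  have h' := Cfg.sw_OK h
  constructor
  · rintro ⟨T, hT, hk⟩
    refine ⟨fun p => longH C p ∈ T, ?_, ?_⟩
    · intro j hj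
      by_contra hcon
      push Not at hcon
      have h1 := low h hT hj (fun p hp hpj => hcon p hp hpj)
      have h2 := hk 0 1 (1 * ((C.K * j + C.σ : ℤ) : ℝ)) (Or.inr one_ne_zero)
      rw [mt_hst T one_ne_zero] at h2
      unfold Cfg.k at h2
      linarith
    · intro j hj
      by_contra hcon
      push Not at hcon
      have hT' : IsTriangulation C.sw.P (swS T) := by rw [Cfg.P_sw h]; exact tri_sw hT
      have h1 := low h' hT' (j := j) hj ?_
      · have h2 := hk 1 0 (1 * ((C.K * j + C.σ : ℤ) : ℝ)) (Or.inl one_ne_zero)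
        rw [mt_sw, mt_hst _ one_ne_zero] at h2
        unfold Cfg.k at h2
        have e1 : C.sw.r = C.r := rfl
        have e2 : C.sw.σ = C.σ := rfl
        have e3 : C.sw.a = C.a := rfl
        have e4 : C.sw.K = C.K := rfl
        rw [e1, e2, e3, e4] at h1
        linarith
      · rintro ⟨x, y⟩ hp hpj hl
        have h3 := hcon (y, x) (Cfg.mem_sw.1 hp) hpj
        have h4 : longV C (y, x) ∈ T := hl
        exact longHV h hT h3 h4
  · rintro ⟨φ, hφ1, hφ2⟩
    obtain ⟨T, hT, hE⟩ := exists_T h φ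
    refine ⟨T, hT, fun α β γ hne => ?_⟩
    by_cases c1 : ∃ j ∈ C.H, α = 0 ∧ γ = β * ((C.K * j + C.σ : ℤ) : ℝ)
    · obtain ⟨j, hj, rfl, rfl⟩ := c1
      have hβ : β ≠ 0 := by
        rcases hne with h1 | h1
        · exact absurd rfl h1
        · exact h1
      rw [mt_hst T hβ]
      exact upb h hT hE hj (hφ1 j hj)
    · by_cases c2 : ∃ j ∈ C.V, β = 0 ∧ γ = α * ((C.K * j + C.σ : ℤ) : ℝ)
      · obtain ⟨j, hj, rfl, rfl⟩ := c2
        have hα : α ≠ 0 := by
          rcases hne with h1 | h1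
          · exact h1
          · exact absurd rfl h1
        rw [mt_sw, mt_hst _ hα]
        have hT' : IsTriangulation C.sw.P (swS T) := by rw [Cfg.P_sw h]; exact tri_sw hT
        refine upb (C := C.sw) h' hT' (E0_sw hE) hj ?_
        obtain ⟨⟨x, y⟩, hp, hpj, hφ⟩ := hφ2 j hj
        exact ⟨(y, x), Cfg.mem_sw.2 hp, hpj, hφ⟩
      · push Not at c1 c2
        exact gen h hB hT hE hne (fun j hj hc => c1 j hj hc.1 hc.2) (fun j hj hc => c2 j hj hc.1 hc.2)

end Pool.Agent.Y605.ST
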