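import Pool.Agent.Y605.ST.Enc
import Pool.Agent.Y605.ST.Equiv

/-!
# The point set of a formula
-/

set_option autoImplicit false

namespace Pool.Agent.Y605.ST

open Pool.Agent.NPC Pool.Agent.W982.TA

open scoped Classical

/-- the size of the square -/
def cA (φ : List Cl) : ℕ := 4 * nN φ + 4 * nL φ + 4 * φ.length + 4

/-- the length of the arms -/
def cR (φ : List Cl) : ℕ := 12 * ((cA φ + 1) * (cA φ + 1))

/-- half of the spacing -/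
def cS (φ : List Cl) : ℕ := 16 * (cA φ + 1)

section
variable {φ : List Cl}

theorem Ml_box {v : ℕ × ℕ} (hv : v ∈ Ml φ) :
    (2 ≤ v.1 ∧ v.1 + 2 ≤ cA φ) ∧ 2 ≤ v.2 ∧ v.2 + 2 ≤ cA φ := by
  unfold cA
  rcases mem_Ml.1 hv with ⟨ν, h1, rfl⟩ | ⟨ν, h1, rfl⟩ | ⟨ν, h1, -, rfl⟩
  · unfold pz
    dsimp only
    omega
  · have hL := nL_le h1
    unfold pw
    dsimp only
    by_cases h3 : ν + nL φ < nN φ
    · rw [prow_lt h3]
      omega
    · rw [prow_ge h3]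
      omega
  · have := div_lt h1
    unfold pp
    dsimp only
    omega

theorem Hl_box {j : ℕ} (hj : j ∈ Hl φ) : 1 ≤ j ∧ j + 2 ≤ cA φ := by
  unfold cA
  have hL6 : nL φ = 6 * φ.length := rfl
  rcases mem_Hl.1 hj with ⟨ν, h1, -, rfl⟩ | ⟨ν, h1, -, rfl⟩ | ⟨x, h1, rfl⟩ <;> omega

theorem Vl_box {j : ℕ} (hj : j ∈ Vl φ) : 1 ≤ j ∧ j + 2 ≤ cA φ := by
  unfold cA
  rcases mem_Vl.1 hj with ⟨ν, h1, rfl⟩ | ⟨x, h1, rfl⟩ <;> omega

theorem zw_far {μ ν : ℕ} (hμ : μ < nN φ) (hν : ν < nN φ) (h1 : (pz μ).1 ≤ (pw φ ν).1 + 1)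
    (h2 : (pw φ ν).1 ≤ (pz μ).1 + 1) (h3 : (pw φ ν).2 ≤ (pz μ).2 + 1) : False := by
  have hL := nL_le hν
  unfold pz pw at *
  dsimp only at *
  have : μ = ν := by omega
  subst this
  by_cases h4 : μ + nL φ < nN φ
  · rw [prow_lt h4] at h3
    omega
  · rw [prow_ge h4] at h3
    omega

theorem Ml_iso {v w : ℕ × ℕ} (hv : v ∈ Ml φ) (hw : w ∈ Ml φ) (h1 : v.1 ≤ w.1 + 1)
    (h2 : w.1 ≤ v.1 + 1) (h3 : v.2 ≤ w.2 + 1) (h4 : w.2 ≤ v.2 + 1) : v = w := by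
  rcases mem_Ml.1 hv with ⟨μ, a1, rfl⟩ | ⟨μ, a1, rfl⟩ | ⟨μ, a1, -, rfl⟩ <;>
    rcases mem_Ml.1 hw with ⟨ν, b1, rfl⟩ | ⟨ν, b1, rfl⟩ | ⟨ν, b1, -, rfl⟩
  · unfold pz at h1 h2
    dsimp only at h1 h2
    have : μ = ν := by omega
    rw [this]
  · exact (zw_far a1 b1 h1 h2 h4).elim
  · exfalso
    unfold pz pp at *
    dsimp only at *
    omega
  · exact (zw_far b1 a1 h2 h1 h3).elim
  · unfold pw at h1 h2
    dsimp only at h1 h2
    have : μ = ν := by omega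
    rw [this]
  · exfalso
    unfold pw pp at *
    dsimp only at *
    omega
  · exfalso
    unfold pz pp at *
    dsimp only at *
    omega
  · exfalso
    unfold pw pp at *
    dsimp only at *
    omega
  · unfold pp at h3 h4
    dsimp only at h3 h4
    have : μ = ν := by omega
    rw [this]

/-- natural points as integer points -/
def zt (v : ℕ × ℕ) : ℤ × ℤ := ((v.1 : ℤ), (v.2 : ℤ))

theorem zt_inj : Function.Injective zt := by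
  intro v w h
  unfold zt at h
  rw [Prod.mk.injEq] at h
  exact Prod.ext (by exact_mod_cast h.1) (by exact_mod_cast h.2)

/-- the data of the point set of a formula -/
noncomputable def cfg (φ : List Cl) : Cfg where
  a := cA φ
  r := cR φ
  σ := cS φ
  M := (Ml φ).toFinset.image zt
  H := (Hl φ).toFinset.image (fun n : ℕ => (n : ℤ))
  V := (Vl φ).toFinset.image (fun n : ℕ => (n : ℤ))

theorem mem_cM {p : ℤ × ℤ} : p ∈ (cfg φ).M ↔ ∃ v ∈ Ml φ, p = zt v := by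
  show p ∈ (Ml φ).toFinset.image zt ↔ _
  rw [Finset.mem_image]
  constructor
  · rintro ⟨v, h1, h2⟩
    exact ⟨v, List.mem_toFinset.1 h1, h2.symm⟩
  · rintro ⟨v, h1, h2⟩
    exact ⟨v, List.mem_toFinset.2 h1, h2.symm⟩

theorem mem_cast {J : List ℕ} {j : ℤ} : j ∈ J.toFinset.image (fun n : ℕ => (n : ℤ)) ↔
    ∃ n ∈ J, j = (n : ℤ) := by
  rw [Finset.mem_image]
  constructor
  · rintro ⟨v, h1, h2⟩
    exact ⟨v, List.mem_toFinset.1 h1, h2.symm⟩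
  · rintro ⟨v, h1, h2⟩
    exact ⟨v, List.mem_toFinset.2 h1, h2.symm⟩

theorem cfg_ok (φ : List Cl) : (cfg φ).OK := by
  have hA : 4 ≤ cA φ := by unfold cA; omega
  refine ⟨?_, ?_, ?_, ?_, ?_, ?_, ?_⟩
  · show (4 : ℤ) ≤ cA φ
    exact_mod_cast hA
  · show (1 : ℤ) ≤ cR φ
    have : 1 ≤ cR φ := by
      unfold cR
      have : 0 < (cA φ + 1) * (cA φ + 1) := by positivity
      omega
    exact_mod_cast this
  · show (2 : ℤ) ≤ cS φ
    have : 2 ≤ cS φ := by unfold cS; omega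
    exact_mod_cast this
  · intro p hp
    obtain ⟨v, hv, rfl⟩ := mem_cM.1 hp
    have := Ml_box hv
    show 2 ≤ ((v.1 : ℕ) : ℤ) ∧ ((v.1 : ℕ) : ℤ) ≤ (cA φ : ℤ) - 2 ∧ 2 ≤ ((v.2 : ℕ) : ℤ) ∧
      ((v.2 : ℕ) : ℤ) ≤ (cA φ : ℤ) - 2
    omega
  · intro p hp q hq h1 h2 h3 h4
    obtain ⟨v, hv, rfl⟩ := mem_cM.1 hp
    obtain ⟨w, hw, rfl⟩ := mem_cM.1 hq
    have e : ∀ u : ℕ × ℕ, (zt u).1 = (u.1 : ℤ) ∧ (zt u).2 = (u.2 : ℤ) := fun u => ⟨rfl, rfl⟩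
    rw [(e v).1, (e w).1] at h1 h2
    rw [(e v).2, (e w).2] at h3 h4
    rw [Ml_iso hv hw (by omega) (by omega) (by omega) (by omega)]
  · intro j hj
    obtain ⟨n, hn, rfl⟩ := mem_cast.1 hj
    have := Hl_box hn
    show 1 ≤ (n : ℤ) ∧ (n : ℤ) ≤ (cA φ : ℤ) - 2
    omega
  · intro j hj
    obtain ⟨n, hn, rfl⟩ := mem_cast.1 hj
    have := Vl_box hn
    show 1 ≤ (n : ℤ) ∧ (n : ℤ) ≤ (cA φ : ℤ) - 2
    omega

theorem cfg_big (φ : List Cl) : (cfg φ).Big := by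
  refine ⟨?_, ?_⟩
  · show (3 : ℤ) ≤ cS φ
    have : 3 ≤ cS φ := by unfold cS; omega
    exact_mod_cast this
  · show 6 * (((cA φ : ℤ) + 1) * ((cA φ : ℤ) + 1)) + 8 * ((cR φ : ℤ) * ((cA φ : ℤ) + 1)) +
      6 * (((cA φ : ℤ) + 1) * ((cA φ : ℤ) + 1) * (cS φ : ℤ)) ≤ (cR φ : ℤ) * ((cS φ : ℤ) + 1)
    unfold cR cS
    push_cast
    set b : ℤ := (cA φ : ℤ) + 1 with hb
    have hb0 : 0 ≤ b := by positivity
    have h2 : 0 ≤ b * b := mul_nonneg hb0 hb0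
    have e : 12 * (b * b) * (16 * b + 1) - (6 * (b * b) + 8 * (12 * (b * b) * b) +
      6 * (b * b * (16 * b))) = 6 * (b * b) := by ring
    linarith

theorem cfg_sat : (cfg φ).Sat ↔ SatN φ := by
  constructor
  · rintro ⟨ψ, h1, h2⟩
    refine ⟨fun v => ψ (zt v), ?_, ?_⟩
    · intro j hj
      obtain ⟨p, hp, hpj, hpψ⟩ := h1 (j : ℤ) (mem_cast.2 ⟨j, hj, rfl⟩)
      obtain ⟨v, hv, rfl⟩ := mem_cM.1 hp
      refine ⟨v, hv, ?_, hpψ⟩
      have e : (zt v).2 = (v.2 : ℤ) := rfl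
      rw [e] at hpj
      omega
    · intro j hj
      obtain ⟨p, hp, hpj, hpψ⟩ := h2 (j : ℤ) (mem_cast.2 ⟨j, hj, rfl⟩)
      obtain ⟨v, hv, rfl⟩ := mem_cM.1 hp
      refine ⟨v, hv, ?_, hpψ⟩
      have e : (zt v).1 = (v.1 : ℤ) := rfl
      rw [e] at hpj
      omega
  · rintro ⟨ψ, h1, h2⟩
    have e0 : ∀ v : ℕ × ℕ, ((zt v).1.toNat, (zt v).2.toNat) = v := by
      intro v
      unfold zt
      rw [Int.toNat_natCast, Int.toNat_natCast]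
    refine ⟨fun p => ψ (p.1.toNat, p.2.toNat), ?_, ?_⟩
    · intro j hj
      obtain ⟨n, hn, rfl⟩ := mem_cast.1 hj
      obtain ⟨v, hv, hvj, hvψ⟩ := h1 n hn
      refine ⟨zt v, mem_cM.2 ⟨v, hv, rfl⟩, ?_, ?_⟩
      · have e : (zt v).2 = (v.2 : ℤ) := rfl
        rw [e]
        omega
      · dsimp only
        rw [e0]
        exact hvψ
    · intro j hj
      obtain ⟨n, hn, rfl⟩ := mem_cast.1 hj
      obtain ⟨v, hv, hvj, hvψ⟩ := h2 n hn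
      refine ⟨zt v, mem_cM.2 ⟨v, hv, rfl⟩, ?_, ?_⟩
      · have e : (zt v).1 = (v.1 : ℤ) := rfl
        rw [e]
        omega
      · dsimp only
        rw [e0]
        exact hvψ

theorem cfg_iff (hB : Bounded3 φ) : SAT3 φ ↔
    ∃ T, IsTriangulation (cfg φ).P T ∧ ∀ α β γ : ℝ, (α ≠ 0 ∨ β ≠ 0) →
      ((mt T α β γ).ncard : ℤ) ≤ (cfg φ).k := by
  rw [main_iff (cfg_ok φ) (cfg_big φ), cfg_sat, satN_iff hB]

end

end Pool.Agent.Y605.ST
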