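import Pool.Agent.Y605.ST.Euler

/-!
# The number of edges of a triangulation is `3 n - 3 - h`
-/

set_option autoImplicit false

namespace Pool.Agent.Y605.ST

open Pool.Agent.W982.TA

open scoped Classical

/-- the number of points on the boundary of the convex hull -/
noncomputable def hb (S : Finset Pt) : ℕ := (S.filter (Bd S)).card

section
variable {S : Finset Pt} {T : Set (Sym2 Pt)} {μ ν : ℤ}

theorem dt_of_fx (hμ : 0 < μ) {a b : Pt} (h : ∀ s ∈ S, dt a b s = 0) (hab : fx μ ν a < fx μ ν b) :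
    ¬ NC S := by
  rintro ⟨x, hx, y, hy, z, hz, hne⟩
  apply hne
  have e1 := h x hx
  have e2 := h y hy
  have e3 := h z hz
  have key : (fx μ ν b - fx μ ν a) * dt x y z =
      (fx μ ν y - fx μ ν x) * (dt a b z) - (fx μ ν z - fx μ ν x) * (dt a b y)
      + (fx μ ν z - fx μ ν y) * dt a b x := by
    unfold dt fx; ring
  rw [e1, e2, e3] at key
  simp only [mul_zero, sub_self, add_zero] at key
  rcases mul_eq_zero.1 key with h | h
  · linarith
  · exact h

theorem both_iff (hX : ∀ p ∈ S, ∀ q ∈ S, fx μ ν p = fx μ ν q → p = q) (hμ : 0 < μ)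
    (hNC : NC S) {v : Pt} (hv : v ∈ S) :
    (Up S μ ν v ∧ Lo S μ ν v) ↔ ((∀ w ∈ S, fx μ ν w ≤ fx μ ν v) ∨ (∀ w ∈ S, fx μ ν v ≤ fx μ ν w)) := by
  constructor
  · rintro ⟨⟨α, β, h1, h2⟩, ⟨α', β', h1', h2'⟩⟩
    by_contra hcon
    push Not at hcon
    obtain ⟨⟨w, hw, hvw⟩, ⟨c, hc, hcv⟩⟩ := hcon
    have pair : ∀ x ∈ S, ∀ z ∈ S, fx μ ν x < fx μ ν v → fx μ ν v < fx μ ν z → dt v z x = 0 := by
      intro x hx z hz hxv hvz
      have k1 := gid μ ν α β v z x
      have k2 := gid μ ν α' β' v z x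
      have a1 := mul_nonneg (sub_nonneg.2 hvz.le) (sub_nonneg.2 (h2 x hx))
      have a2 := mul_nonneg (sub_nonneg.2 hxv.le) (sub_nonneg.2 (h2 z hz))
      have b1 := mul_nonneg (sub_nonneg.2 hvz.le) (sub_nonneg.2 (h2' x hx))
      have b2 := mul_nonneg (sub_nonneg.2 hxv.le) (sub_nonneg.2 (h2' z hz))
      have c1 : (β * μ - α * ν) * dt v z x ≤ 0 := by rw [← k1]; linarith
      have c2 : (β' * μ - α' * ν) * dt v z x ≤ 0 := by rw [← k2]; linarith
      have d1 : dt v z x ≤ 0 := by
        by_contra h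
        push Not at h
        linarith [mul_pos h1 h]
      have d2 : 0 ≤ dt v z x := by
        by_contra h
        push Not at h
        linarith [mul_pos_of_neg_of_neg h1' h]
      exact le_antisymm d1 d2
    have hcw := pair c hc w hw hcv hvw
    refine dt_of_fx hμ (a := v) (b := w) ?_ hvw hNC
    intro s hs
    rcases lt_trichotomy (fx μ ν s) (fx μ ν v) with h | h | h
    · exact pair s hs w hw h hvw
    · have := hX s hs v hv h
      subst this
      exact dt_left _ _
    · have hsc := pair c hc s hs hcv h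
      have e := triple μ ν v w s c
      rw [hsc] at e
      have h3 : dt v c w = - dt v w c := by rw [dt_swap]
      rw [h3, hcw] at e
      simp only [mul_zero, neg_zero, zero_add, add_zero] at e
      rcases mul_eq_zero.1 e with h4 | h4
      · linarith
      · exact h4
  · have gen : ∀ e : ℤ, (e = 1 ∨ e = -1) → (∀ w ∈ S, e * fx μ ν w ≤ e * fx μ ν v) →
        (Up S μ ν v ∧ Lo S μ ν v) := by
      intro e he hm
      obtain ⟨α, β, h1, h2⟩ := up_of_max hX hv e he hm 0 1
      obtain ⟨α', β', h1', h2'⟩ := up_of_max hX hv e he hm 0 (-1)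
      exact ⟨⟨α, β, by rw [h1]; linarith, h2⟩, ⟨α', β', by rw [h1']; linarith, h2'⟩⟩
    rintro (h | h)
    · exact gen 1 (Or.inl rfl) fun w hw => by rw [one_mul, one_mul]; exact h w hw
    · exact gen (-1) (Or.inr rfl) fun w hw => by have := h w hw; linarith

theorem bd_iff (hX : ∀ p ∈ S, ∀ q ∈ S, fx μ ν p = fx μ ν q → p = q) (hμ : 0 < μ)
    (hNC : NC S) {v : Pt} (hv : v ∈ S) : Bd S v ↔ (Up S μ ν v ∨ Lo S μ ν v) := by
  constructor
  · rintro ⟨α, β, hne, h⟩
    rcases lt_trichotomy (β * μ - α * ν) 0 with h0 | h0 | h0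
    · exact Or.inr ⟨α, β, h0, h⟩
    · left
      have hα : α ≠ 0 := by
        rintro rfl
        rw [zero_mul, sub_zero] at h0
        rcases mul_eq_zero.1 h0 with h1 | h1
        · rcases hne with h2 | h2
          · exact h2 rfl
          · exact h2 h1
        · exact absurd h1 hμ.ne'
      refine ((both_iff hX hμ hNC hv).2 ?_).1
      rcases lt_or_gt_of_ne hα with h1 | h1
      · right
        intro w hw
        have h2 := h w hw
        have h3 : (-α) * fx μ ν v ≤ (-α) * fx μ ν w := by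
          have e : ∀ p : Pt, (-α) * fx μ ν p = -(μ * (α * p.1 + β * p.2)) := by
            intro p; unfold fx; linear_combination p.2 * h0
          rw [e, e]
          have := mul_le_mul_of_nonneg_left h2 hμ.le
          linarith
        exact le_of_mul_le_mul_left h3 (by linarith)
      · left
        intro w hw
        have h2 := h w hw
        have h3 : α * fx μ ν w ≤ α * fx μ ν v := by
          have e : ∀ p : Pt, α * fx μ ν p = μ * (α * p.1 + β * p.2) := by
            intro p; unfold fx; linear_combination (-p.2) * h0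
          rw [e, e]
          exact mul_le_mul_of_nonneg_left h2 hμ.le
        exact le_of_mul_le_mul_left h3 h1
    · exact Or.inl ⟨α, β, h0, h⟩
  · rintro (⟨α, β, h1, h2⟩ | ⟨α, β, h1, h2⟩)
    · refine ⟨α, β, ?_, h2⟩
      by_contra hcon
      push Not at hcon
      rw [hcon.1, hcon.2] at h1
      simp at h1
    · refine ⟨α, β, ?_, h2⟩
      by_contra hcon
      push Not at hcon
      rw [hcon.1, hcon.2] at h1
      simp at h1

theorem card_mid (hT : IsTriangulation S T)
    (hX : ∀ p ∈ S, ∀ q ∈ S, fx μ ν p = fx μ ν q → p = q) (hμ : 0 < μ) {y : Pt} (hy : y ∈ S) :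
    ((Tp S T μ ν).filter fun t => t.2.1 = y).card + (if Up S μ ν y then 1 else 0) +
      (if Lo S μ ν y then 1 else 0) = 2 := by
  have h1 := card_up hT hX hμ hy
  have h2 := card_lo hT hX hμ hy
  have h3 : ((Tp S T μ ν).filter fun t => t.2.1 = y) =
      ((Tp S T μ ν).filter fun t => t.2.1 = y ∧ Tr S T t.1 t.2.1 t.2.2) ∪
      ((Tp S T μ ν).filter fun t => t.2.1 = y ∧ Tr S T t.1 t.2.2 t.2.1) := by
    ext ⟨a, b, c⟩
    simp only [Finset.mem_union, Finset.mem_filter, mem_Tp hT]
    tauto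
  have h4 : Disjoint ((Tp S T μ ν).filter fun t => t.2.1 = y ∧ Tr S T t.1 t.2.1 t.2.2)
      ((Tp S T μ ν).filter fun t => t.2.1 = y ∧ Tr S T t.1 t.2.2 t.2.1) := by
    rw [Finset.disjoint_filter]
    rintro ⟨a, b, c⟩ - ⟨-, h5⟩ ⟨-, h6⟩
    have h7 := h5.pos
    have h8 := h6.pos
    dsimp only at h7 h8
    rw [dt_swap] at h8
    linarith
  rw [h3, Finset.card_union_of_disjoint h4, h1, h2]
  split_ifs <;> rfl

theorem ncard_eq (hT : IsTriangulation S T)
    (hX : ∀ p ∈ S, ∀ q ∈ S, fx μ ν p = fx μ ν q → p = q) :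
    T.ncard = ∑ v ∈ S, (Oo S T μ ν v).card := by
  have h1 : T = (((S.sigma fun v => Oo S T μ ν v).image fun x => s(x.1, x.2) :
      Finset (Sym2 Pt)) : Set (Sym2 Pt)) := by
    ext e
    induction e with
    | _ p q =>
      simp only [Finset.coe_image, Set.mem_image, Finset.mem_coe, Finset.mem_sigma]
      constructor
      · intro h
        have hne : fx μ ν p ≠ fx μ ν q := fun h' =>
          (hT.seg _ _ h).2.2.1 (hX p (mem_left hT h) q (mem_right hT h) h')
        rcases lt_or_gt_of_ne hne with h' | h'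
        · exact ⟨⟨p, q⟩, ⟨mem_left hT h, (mem_Oo hT).2 ⟨h, h'⟩⟩, rfl⟩
        · exact ⟨⟨q, p⟩, ⟨mem_right hT h, (mem_Oo hT).2 ⟨by rw [Sym2.eq_swap]; exact h, h'⟩⟩,
            Sym2.eq_swap⟩
      · rintro ⟨⟨a, b⟩, ⟨-, h2⟩, h3⟩
        rw [← h3]
        exact ((mem_Oo hT).1 h2).1
  conv_lhs => rw [h1]
  rw [Set.ncard_coe_finset, Finset.card_image_of_injOn, Finset.card_sigma]
  rintro ⟨a, b⟩ h2 ⟨a', b'⟩ h3 h4
  simp only [Finset.mem_coe, Finset.mem_sigma] at h2 h3
  have h2' := ((mem_Oo hT).1 h2.2).2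
  have h3' := ((mem_Oo hT).1 h3.2).2
  rcases Sym2.eq_iff.1 h4 with ⟨h5, h6⟩ | ⟨h5, h6⟩
  · dsimp only at h5 h6
    subst h5; subst h6; rfl
  · dsimp only at h5 h6 h2' h3'
    subst h5; subst h6
    exact absurd (h2'.trans h3') (lt_irrefl _)

end

theorem exists_fx (S : Finset Pt) : ∃ μ : ℤ, 0 < μ ∧
    ∀ p ∈ S, ∀ q ∈ S, fx μ 1 p = fx μ 1 q → p = q := by
  refine ⟨1 + 2 * ∑ p ∈ S, |p.2|, ?_, fun p hp q hq h => ?_⟩
  · have : 0 ≤ ∑ p ∈ S, |p.2| := Finset.sum_nonneg fun p _ => abs_nonneg _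
    linarith
  · have h1 : |p.2| ≤ ∑ p ∈ S, |p.2| :=
      Finset.single_le_sum (f := fun p : Pt => |p.2|) (fun s _ => abs_nonneg _) hp
    have h2 : |q.2| ≤ ∑ p ∈ S, |p.2| :=
      Finset.single_le_sum (f := fun p : Pt => |p.2|) (fun s _ => abs_nonneg _) hq
    set N := ∑ p ∈ S, |p.2| with hN
    unfold fx at h
    rw [abs_le] at h1 h2
    have h3 : p.1 = q.1 := by
      by_contra hne
      rcases lt_or_gt_of_ne hne with h4 | h4
      · nlinarith
      · nlinarith
    refine Prod.ext h3 ?_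
    rw [h3] at h
    linarith

/-- the number of edges of a triangulation of `n` points, `h` of them on the boundary of the
convex hull -/
theorem card_tri {S : Finset Pt} {T : Set (Sym2 Pt)} (hT : IsTriangulation S T) (hNC : NC S) :
    T.ncard + 3 + hb S = 3 * S.card := by
  obtain ⟨μ, hμ, hX⟩ := exists_fx S
  have hSne : S.Nonempty := by
    obtain ⟨a, ha, -⟩ := hNC
    exact ⟨a, ha⟩
  obtain ⟨m₀, hm₀, hmin⟩ := Finset.exists_min_image S (fx μ 1) hSne
  obtain ⟨m₁, hm₁, hmax⟩ := Finset.exists_max_image S (fx μ 1) hSne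
  have hne : m₀ ≠ m₁ := by
    rintro rfl
    obtain ⟨a, ha, b, hb', c, hc, hd⟩ := hNC
    apply hd
    have e1 := hX a ha m₀ hm₀ (le_antisymm (hmax a ha) (hmin a ha))
    have e2 := hX b hb' m₀ hm₀ (le_antisymm (hmax b hb') (hmin b hb'))
    rw [e1, e2]
    exact dt_same _ _
  -- the boundary
  have hU : hb S + 2 = (S.filter (Up S μ 1)).card + (S.filter (Lo S μ 1)).card := by
    have e1 : S.filter (Bd S) = S.filter (Up S μ 1) ∪ S.filter (Lo S μ 1) := by
      ext v
      simp only [Finset.mem_filter, Finset.mem_union]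
      constructor
      · rintro ⟨h1, h2⟩
        rcases (bd_iff hX hμ hNC h1).1 h2 with h3 | h3
        · exact Or.inl ⟨h1, h3⟩
        · exact Or.inr ⟨h1, h3⟩
      · rintro (⟨h1, h2⟩ | ⟨h1, h2⟩)
        · exact ⟨h1, (bd_iff hX hμ hNC h1).2 (Or.inl h2)⟩
        · exact ⟨h1, (bd_iff hX hμ hNC h1).2 (Or.inr h2)⟩
    have e2 : S.filter (Up S μ 1) ∩ S.filter (Lo S μ 1) = {m₀, m₁} := by
      ext v
      simp only [Finset.mem_filter, Finset.mem_inter, Finset.mem_insert, Finset.mem_singleton]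
      constructor
      · rintro ⟨⟨h1, h2⟩, ⟨-, h3⟩⟩
        rcases (both_iff hX hμ hNC h1).1 ⟨h2, h3⟩ with h4 | h4
        · exact Or.inr (hX v h1 m₁ hm₁ (le_antisymm (hmax v h1) (h4 m₁ hm₁)))
        · exact Or.inl (hX v h1 m₀ hm₀ (le_antisymm (h4 m₀ hm₀) (hmin v h1)))
      · rintro (rfl | rfl)
        · have := (both_iff hX hμ hNC hm₀).2 (Or.inr hmin)
          exact ⟨⟨hm₀, this.1⟩, ⟨hm₀, this.2⟩⟩
        · have := (both_iff hX hμ hNC hm₁).2 (Or.inl hmax)
          exact ⟨⟨hm₁, this.1⟩, ⟨hm₁, this.2⟩⟩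
    have e3 := Finset.card_union_add_card_inter (S.filter (Up S μ 1)) (S.filter (Lo S μ 1))
    rw [← e1, e2, Finset.card_pair hne] at e3
    exact e3
  -- triangles by first vertex
  have h1 : (Tp S T μ 1).card = ∑ x ∈ S, ((Tp S T μ 1).filter fun t => t.1 = x).card := by
    refine Finset.card_eq_sum_card_fiberwise ?_
    rintro ⟨a, b, c⟩ ht
    unfold Tp at ht
    simp only [Finset.mem_coe, Finset.mem_filter, Finset.mem_product] at ht
    exact ht.1.1
  have h2 : (Tp S T μ 1).card = ∑ x ∈ S, ((Tp S T μ 1).filter fun t => t.2.1 = x).card := by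
    refine Finset.card_eq_sum_card_fiberwise ?_
    rintro ⟨a, b, c⟩ ht
    unfold Tp at ht
    simp only [Finset.mem_coe, Finset.mem_filter, Finset.mem_product] at ht
    exact ht.1.2.1
  have h3 : ∀ x ∈ S, ((Tp S T μ 1).filter fun t => t.1 = x).card + (if x = m₁ then 0 else 1) =
      (Oo S T μ 1 x).card := by
    intro x hx
    by_cases hxm : x = m₁
    · rw [if_pos hxm]
      have e1 : Oo S T μ 1 x = ∅ := by
        rw [Finset.eq_empty_iff_forall_notMem]
        intro w hw
        have hw' := (mem_Oo hT).1 hw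
        rw [hxm] at hw'
        exact absurd (hmax w (mem_right hT hw'.1)) (not_le.2 hw'.2)
      rw [e1, Finset.card_empty, add_zero, Finset.card_eq_zero, Finset.filter_eq_empty_iff]
      rintro ⟨a, b, c⟩ hu h4
      rw [mem_Tp hT] at hu
      dsimp only at h4
      subst h4
      rw [hxm] at hu
      have hb' : b ∈ S := by
        rcases hu.2.2 with h | h
        · exact mem_left hT h.bc
        · exact mem_left hT h.ca
      exact absurd (hmax b hb') (not_le.2 hu.1)
    · rw [if_neg hxm]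
      refine card_first hT hX hμ hx ?_
      have hlt : fx μ 1 x < fx μ 1 m₁ :=
        lt_of_le_of_ne (hmax x hx) fun h => hxm (hX x hx m₁ hm₁ h)
      obtain ⟨w, hw1, hw2⟩ := out_exists hT hX hx ⟨m₁, hm₁, hlt⟩
      exact ⟨w, (mem_Oo hT).2 ⟨hw1, hw2⟩⟩
  have h4 : (Tp S T μ 1).card + (S.card - 1) = T.ncard := by
    rw [ncard_eq hT hX, ← Finset.sum_congr rfl h3, Finset.sum_add_distrib, ← h1]
    congr 1
    have e : (∑ x ∈ S, if x = m₁ then 0 else 1) = (S.filter fun x => ¬ x = m₁).card := by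
      rw [Finset.card_filter]
      refine Finset.sum_congr rfl fun x _ => ?_
      by_cases h : x = m₁
      · simp [h]
      · simp [h]
    rw [e, Finset.filter_ne', Finset.card_erase_of_mem hm₁]
  have h5 : (Tp S T μ 1).card + (S.filter (Up S μ 1)).card + (S.filter (Lo S μ 1)).card =
      2 * S.card := by
    rw [h2, Finset.card_filter, Finset.card_filter, ← Finset.sum_add_distrib,
      ← Finset.sum_add_distrib, Finset.sum_congr rfl (fun y hy => card_mid hT hX hμ hy),
      Finset.sum_const, smul_eq_mul, mul_comm]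
  have h6 : 1 ≤ S.card := Finset.card_pos.2 hSne
  omega

/-- a family of pairwise non-crossing segments has at most as many members -/
theorem card_nc {S : Finset Pt} {F : Set (Sym2 Pt)} (hNC : NC S)
    (h1 : ∀ p q, s(p, q) ∈ F → IsSeg S p q)
    (h2 : ∀ p q p' q', s(p, q) ∈ F → s(p', q') ∈ F → s(p, q) ≠ s(p', q') →
      Disjoint (oseg p q) (oseg p' q')) : F.ncard + 3 + hb S ≤ 3 * S.card := by
  obtain ⟨T, hT, hFT⟩ := g5 S F h1 h2
  have h3 := card_tri hT hNC
  have hfin : T.Finite := by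
    have : T ⊆ ((S.sym2 : Finset (Sym2 Pt)) : Set (Sym2 Pt)) := by
      intro e he
      induction e with
      | _ p q =>
        rw [Finset.mem_coe, Finset.mk_mem_sym2_iff]
        exact ⟨mem_left hT he, mem_right hT he⟩
    exact (Finset.finite_toSet _).subset this
  have h4 := Set.ncard_le_ncard hFT hfin
  omega

theorem tri_finite {S : Finset Pt} {T : Set (Sym2 Pt)} (hT : IsTriangulation S T) : T.Finite := by
  have : T ⊆ ((S.sym2 : Finset (Sym2 Pt)) : Set (Sym2 Pt)) := by
    intro e he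
    induction e with
    | _ p q =>
      rw [Finset.mem_coe, Finset.mk_mem_sym2_iff]
      exact ⟨mem_left hT he, mem_right hT he⟩
  exact (Finset.finite_toSet _).subset this

end Pool.Agent.Y605.ST
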