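import Pool.Agent.Y605.ST.Row

/-!
# The lower bound for the lines with a ruler
-/

set_option autoImplicit false

namespace Pool.Agent.Y605.ST

open Pool.Agent.W982.TA

open scoped Classical

/-- the edges that meet the line of height `c` -/
def hst (T : Set (Sym2 Pt)) (c : ℤ) : Set (Sym2 Pt) :=
  {e | e ∈ T ∧ (∃ p ∈ e, p.2 ≤ c) ∧ ∃ q ∈ e, c ≤ q.2}

/-- the edges with both endpoints in `A` -/
def ins (T : Set (Sym2 Pt)) (A : Finset Pt) : Set (Sym2 Pt) := {e | e ∈ T ∧ ∀ p ∈ e, p ∈ A}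

theorem hst_split {S : Finset Pt} {T : Set (Sym2 Pt)} (hT : IsTriangulation S T) (c : ℤ) :
    T.ncard = (ins T (S.filter fun p => c < p.2)).ncard + (ins T (S.filter fun p => p.2 < c)).ncard +
      (hst T c).ncard := by
  have hfin := tri_finite hT
  have hmem : ∀ e ∈ T, ∀ p ∈ e, p ∈ S := by
    intro e he p hp
    induction e with
    | _ u w =>
      rcases Sym2.mem_iff.1 hp with rfl | rfl
      · exact mem_left hT he
      · exact mem_right hT he
  have h1 : T = (ins T (S.filter fun p => c < p.2) ∪ ins T (S.filter fun p => p.2 < c)) ∪ hst T c := by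
    ext e
    constructor
    · intro he
      by_cases h1 : ∀ p ∈ e, c < p.2
      · left; left
        exact ⟨he, fun p hp => Finset.mem_filter.2 ⟨hmem e he p hp, h1 p hp⟩⟩
      · by_cases h2 : ∀ p ∈ e, p.2 < c
        · left; right
          exact ⟨he, fun p hp => Finset.mem_filter.2 ⟨hmem e he p hp, h2 p hp⟩⟩
        · push Not at h1 h2
          exact Or.inr ⟨he, h1, h2⟩
    · rintro ((h | h) | h)
      · exact h.1
      · exact h.1
      · exact h.1
  have ne : ∀ e : Sym2 Pt, ∃ p, p ∈ e := by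
    intro e
    induction e with
    | _ u w => exact ⟨u, Sym2.mem_mk_left u w⟩
  have hd1 : Disjoint (ins T (S.filter fun p => c < p.2)) (ins T (S.filter fun p => p.2 < c)) := by
    rw [Set.disjoint_left]
    intro e h1 h2
    obtain ⟨p, hp⟩ := ne e
    have h3 := (Finset.mem_filter.1 (h1.2 p hp)).2
    have h4 := (Finset.mem_filter.1 (h2.2 p hp)).2
    linarith
  have hd2 : Disjoint (ins T (S.filter fun p => c < p.2) ∪ ins T (S.filter fun p => p.2 < c))
      (hst T c) := by
    rw [Set.disjoint_left]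
    rintro e (h1 | h1) ⟨-, ⟨p, hp, hp'⟩, ⟨q, hq, hq'⟩⟩
    · have h3 := (Finset.mem_filter.1 (h1.2 p hp)).2
      linarith
    · have h3 := (Finset.mem_filter.1 (h1.2 q hq)).2
      linarith
  have f1 : (ins T (S.filter fun p => c < p.2)).Finite := hfin.subset fun e he => he.1
  have f2 : (ins T (S.filter fun p => p.2 < c)).Finite := hfin.subset fun e he => he.1
  have f3 : (hst T c).Finite := hfin.subset fun e he => he.1
  conv_lhs => rw [h1]
  rw [Set.ncard_union_eq hd2 (f1.union f2) f3, Set.ncard_union_eq hd1 f1 f2]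

variable {C : Cfg}

/-- a row of the point set -/
noncomputable def Cfg.row (C : Cfg) (y : ℤ) : Finset Pt := C.P.filter fun p => p.2 = C.K * y

theorem card_row (h : C.OK) {y : ℤ} (hy0 : 0 ≤ y) (hy : y < C.a) :
    ((C.row y).card : ℤ) + C.R y = C.a + C.r + 1 := by
  have hK := Cfg.K_pos h
  have ha := h.apos
  have hr := h.rpos
  set D := Finset.Icc (0 : ℤ) (C.a + C.r) with hD
  have hDc : (D.card : ℤ) = C.a + C.r + 1 := by
    rw [hD, Int.card_Icc]
    rw [Int.toNat_of_nonneg (by linarith)]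
    ring
  have e1 : C.row y = (D.filter fun x => (x, y) ∉ C.M).image fun x => ((C.K * x, C.K * y) : Pt) := by
    ext p
    unfold Cfg.row
    rw [Finset.mem_filter, Finset.mem_image]
    constructor
    · rintro ⟨h1, h2⟩
      obtain ⟨x, hL, rfl⟩ := Cfg.row_lat h ((Cfg.mem_P h).1 h1) h2 hy
      refine ⟨x, ?_, rfl⟩
      rw [Finset.mem_filter, hD, Finset.mem_Icc]
      obtain ⟨h3, h4, h5, h6⟩ := hL
      dsimp only at h3 h4 h5
      refine ⟨⟨h3, ?_⟩, h6⟩
      rcases h5 with h5 | h5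
      · exact h5.1
      · linarith [h5.1]
    · rintro ⟨x, hx, rfl⟩
      rw [Finset.mem_filter, hD, Finset.mem_Icc] at hx
      exact ⟨Cfg.mem_lat h ⟨hx.1.1, hy0, Or.inl ⟨hx.1.2, hy.le⟩, hx.2⟩, rfl⟩
  have e2 : (C.M.filter fun p => p.2 = y) = (D.filter fun x => (x, y) ∈ C.M).image fun x => (x, y) := by
    ext ⟨x, y'⟩
    simp only [Finset.mem_filter, Finset.mem_image, Prod.mk.injEq]
    constructor
    · rintro ⟨h1, rfl⟩
      have := h.Mbox _ h1
      dsimp only at this
      refine ⟨x, ⟨?_, h1⟩, rfl, rfl⟩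
      rw [hD, Finset.mem_Icc]
      constructor <;> linarith
    · rintro ⟨x', ⟨-, h2⟩, rfl, rfl⟩
      exact ⟨h2, rfl⟩
  have c1 : (C.row y).card = (D.filter fun x => (x, y) ∉ C.M).card := by
    rw [e1, Finset.card_image_of_injective]
    intro x x' he
    rw [Prod.mk.injEq] at he
    exact mul_inj hK he.1
  have c2 : C.R y = (D.filter fun x => (x, y) ∈ C.M).card := by
    unfold Cfg.R
    rw [e2, Finset.card_image_of_injective]
    intro x x' he
    exact (Prod.mk.inj he).1
  rw [c1, c2, ← hDc, ← Finset.card_filter_add_card_filter_not (s := D) (fun x => (x, y) ∈ C.M)]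
  push_cast
  ring

theorem card_ruler (h : C.OK) {j : ℤ} (hj : j ∈ C.H) :
    ((C.P.filter fun p => p.2 = C.K * j + C.σ).card : ℤ) = C.r * (C.σ - 1) := by
  have hK := Cfg.K_pos h
  have hσ := h.σpos
  have hK2 : C.K = 2 * C.σ := rfl
  have hj' := h.Hbox j hj
  have e1 : (C.P.filter fun p => p.2 = C.K * j + C.σ) =
      (Finset.Ico C.a (C.a + C.r) ×ˢ Finset.Ico 1 C.σ).image
        fun x : ℤ × ℤ => ((C.K * x.1 + 2 * x.2, C.K * j + C.σ) : Pt) := by
    ext p
    rw [Finset.mem_filter, Finset.mem_image]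
    constructor
    · rintro ⟨h1, h2⟩
      obtain ⟨-, i, l, h3, h4, h5, h6, rfl⟩ := Cfg.mid h ((Cfg.mem_P h).1 h1) (by linarith) h2
      refine ⟨(i, l), ?_, rfl⟩
      rw [Finset.mem_product, Finset.mem_Ico, Finset.mem_Ico]
      exact ⟨⟨h3, h4⟩, ⟨h5, h6⟩⟩
    · rintro ⟨⟨i, l⟩, hx, rfl⟩
      rw [Finset.mem_product, Finset.mem_Ico, Finset.mem_Ico] at hx
      exact ⟨(Cfg.mem_P h).2 (Or.inr (Or.inl ⟨j, i, l, hj, hx.1.1, hx.1.2, hx.2.1, hx.2.2, rfl⟩)), rfl⟩
  rw [e1, Finset.card_image_of_injOn, Finset.card_product, Int.card_Ico, Int.card_Ico]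
  · have hr := h.rpos
    push_cast
    rw [Int.toNat_of_nonneg (by linarith), Int.toNat_of_nonneg (by linarith)]
    ring
  · rintro ⟨i, l⟩ hx ⟨i', l'⟩ hx' he
    rw [Finset.mem_coe, Finset.mem_product, Finset.mem_Ico, Finset.mem_Ico] at hx hx'
    rw [Prod.mk.injEq] at he
    dsimp only at hx hx' he
    have hi : i = i' := by
      have h1 := he.1
      rw [hK2] at h1
      have a1 : C.σ * (i - i') = l' - l := by linarith
      by_contra hne
      rcases lt_or_gt_of_ne hne with h2 | h2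
      · have : C.σ * (i - i') ≤ C.σ * (-1) := mul_le_mul_of_nonneg_left (by omega) (by linarith)
        linarith [hx.2.1, hx.2.2, hx'.2.1, hx'.2.2]
      · have : C.σ * 1 ≤ C.σ * (i - i') := mul_le_mul_of_nonneg_left (by omega) (by linarith)
        linarith [hx.2.1, hx.2.2, hx'.2.1, hx'.2.2]
    subst hi
    rw [Prod.mk.injEq]
    exact ⟨rfl, by linarith [he.1]⟩

theorem hb_side (h : C.OK) (ε : ℤ) (hε : ε = 1 ∨ ε = -1) {y : ℤ} (hy0 : 0 < y) (hy : y < C.a)
    {A : Finset Pt} (hA : A ⊆ C.P) (hside : ∀ p ∈ A, 0 ≤ ε * (p.2 - C.K * y))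
    (hrow : ∀ p ∈ C.P, p.2 = C.K * y → p ∈ A) :
    (A.filter (Bd C.P)).card + (C.row y).card ≤ hb A + 2 := by
  have hK := Cfg.K_pos h
  have h1 : (A.filter (Bd C.P)) ∪ C.row y ⊆ A.filter (Bd A) := by
    intro p hp
    rw [Finset.mem_union, Finset.mem_filter] at hp
    rw [Finset.mem_filter]
    rcases hp with ⟨h2, α, β, h3, h4⟩ | hp
    · exact ⟨h2, α, β, h3, fun s hs => h4 s (hA hs)⟩
    · unfold Cfg.row at hp
      rw [Finset.mem_filter] at hp
      refine ⟨hrow p hp.1 hp.2, 0, -ε, Or.inr ?_, fun s hs => ?_⟩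
      · rcases hε with rfl | rfl <;> norm_num
      · have := hside s hs
        rw [hp.2]
        linarith
  have h2 : (A.filter (Bd C.P)) ∩ C.row y ⊆
      {((C.K * 0, C.K * y) : Pt), ((C.K * (C.a + C.r), C.K * y) : Pt)} := by
    intro p hp
    rw [Finset.mem_inter, Finset.mem_filter] at hp
    obtain ⟨⟨h3, h4⟩, h5⟩ := hp
    unfold Cfg.row at h5
    rw [Finset.mem_filter] at h5
    obtain ⟨x, hL, rfl⟩ := Cfg.row_lat h ((Cfg.mem_P h).1 h5.1) h5.2 hy
    rw [Finset.mem_insert, Finset.mem_singleton]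
    by_contra hcon
    push Not at hcon
    have hx0 : x ≠ 0 := fun e => hcon.1 (by rw [e])
    have hx1 : x ≠ C.a + C.r := fun e => hcon.2 (by rw [e])
    obtain ⟨g1, g2, g3, g4⟩ := hL
    dsimp only at g1 g2 g3
    have g5 : x ≤ C.a + C.r := by
      rcases g3 with g3 | g3
      · exact g3.1
      · linarith [g3.1, h.rpos]
    refine Cfg.not_bd h ?_ ?_ ?_ ?_ h4
    · exact mul_pos hK (lt_of_le_of_ne g1 (Ne.symm hx0))
    · exact (Klt h).2 (lt_of_le_of_ne g5 hx1)
    · exact mul_pos hK hy0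
    · exact (Klt h).2 hy
  have h3 := Finset.card_union_add_card_inter (A.filter (Bd C.P)) (C.row y)
  have h4 := Finset.card_le_card h1
  have h5 := (Finset.card_le_card h2).trans Finset.card_le_two
  unfold hb
  omega

/-- the lower bound -/
theorem low (h : C.OK) {T : Set (Sym2 Pt)} (hT : IsTriangulation C.P T) {j : ℤ} (hj : j ∈ C.H)
    (hmiss : ∀ p ∈ C.M, (p.2 = j ∨ p.2 = j + 1) → longH C p ∉ T) :
    3 * (C.r * (C.σ - 1)) + 2 * (C.a + C.r) + 1 ≤ ((hst T (C.K * j + C.σ)).ncard : ℤ) := by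
  have hK := Cfg.K_pos h
  have hσ := h.σpos
  have ha := h.apos
  have hr := h.rpos
  have hK2 : C.K = 2 * C.σ := rfl
  have hj' := h.Hbox j hj
  set c := C.K * j + C.σ with hc
  set A := C.P.filter fun p => c < p.2 with hA
  set B := C.P.filter fun p => p.2 < c with hB
  set Q := C.P.filter fun p => p.2 = c with hQ
  have eK : C.K * (j + 1) = C.K * j + C.K := by ring
  have rowA : ∀ p ∈ C.P, p.2 = C.K * (j + 1) → p ∈ A := by
    intro p hp hp2
    rw [hA, Finset.mem_filter]
    refine ⟨hp, ?_⟩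
    rw [hp2, eK, hc, hK2]
    linarith
  have rowB : ∀ p ∈ C.P, p.2 = C.K * j → p ∈ B := by
    intro p hp hp2
    rw [hB, Finset.mem_filter]
    refine ⟨hp, ?_⟩
    rw [hp2, hc]
    linarith
  have subA : A ⊆ C.P := Finset.filter_subset _ _
  have subB : B ⊆ C.P := Finset.filter_subset _ _
  have sideA : ∀ p ∈ A, 0 ≤ (1 : ℤ) * (p.2 - C.K * (j + 1)) := by
    intro p hp
    rw [hA, Finset.mem_filter] at hp
    have := Cfg.above h ((Cfg.mem_P h).1 hp.1) (by linarith) hp.2
    linarith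
  have sideB : ∀ p ∈ B, 0 ≤ (-1 : ℤ) * (p.2 - C.K * j) := by
    intro p hp
    rw [hB, Finset.mem_filter] at hp
    have := Cfg.below h ((Cfg.mem_P h).1 hp.1) (by linarith) hp.2
    linarith
  have corner : ∀ x y : ℤ, (x = 0 ∨ x = C.a + C.r) → 0 ≤ y → y ≤ C.a →
      ((C.K * x, C.K * y) : Pt) ∈ C.P := by
    intro x y hx hy0 hy
    refine Cfg.mem_lat h (Cfg.lat_bd h ?_ ?_ hy0 hy ?_)
    · rcases hx with rfl | rfl <;> linarith
    · rcases hx with rfl | rfl <;> linarith
    · rcases hx with rfl | rfl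
      · exact Or.inl (by norm_num)
      · exact Or.inr (Or.inl (by linarith))
  have hNCgen : ∀ (S : Finset Pt) (y₁ y₂ : ℤ), y₁ < y₂ → ((C.K * 0, C.K * y₁) : Pt) ∈ S →
      ((C.K * (C.a + C.r), C.K * y₁) : Pt) ∈ S → ((C.K * 0, C.K * y₂) : Pt) ∈ S → NC S := by
    intro S y₁ y₂ h12 h1 h2 h3
    refine ⟨_, h1, _, h2, _, h3, ?_⟩
    unfold dt
    dsimp only
    have e : (C.K * (C.a + C.r) - C.K * 0) * (C.K * y₂ - C.K * y₁) -
        (C.K * y₁ - C.K * y₁) * (C.K * 0 - C.K * 0) = (C.K * (C.a + C.r)) * (C.K * (y₂ - y₁)) := by ring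
    rw [e]
    have p1 : 0 < C.K * (C.a + C.r) := mul_pos hK (by linarith)
    have p2 : 0 < C.K * (y₂ - y₁) := mul_pos hK (by linarith)
    exact (mul_pos p1 p2).ne'
  have NCP : NC C.P := hNCgen _ 0 1 (by norm_num) (corner 0 0 (Or.inl rfl) le_rfl (by linarith))
    (corner _ 0 (Or.inr rfl) le_rfl (by linarith)) (corner 0 1 (Or.inl rfl) (by norm_num) (by linarith))
  have NCA : NC A := by
    refine hNCgen _ (j + 1) (j + 2) (by linarith) (rowA _ (corner 0 _ (Or.inl rfl) (by linarith) (by linarith)) rfl)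
      (rowA _ (corner _ _ (Or.inr rfl) (by linarith) (by linarith)) rfl) ?_
    rw [hA, Finset.mem_filter]
    refine ⟨corner 0 _ (Or.inl rfl) (by linarith) (by linarith), ?_⟩
    dsimp only
    have : C.K * (j + 2) = C.K * j + 2 * C.K := by ring
    rw [this, hc, hK2]
    linarith
  have NCB : NC B := by
    refine hNCgen _ (j - 1) j (by linarith) ?_ ?_ (rowB _ (corner 0 _ (Or.inl rfl) (by linarith) (by linarith)) rfl)
    · rw [hB, Finset.mem_filter]
      refine ⟨corner 0 _ (Or.inl rfl) (by linarith) (by linarith), ?_⟩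
      dsimp only
      have : C.K * (j - 1) = C.K * j - C.K := by ring
      rw [this, hc]
      linarith
    · rw [hB, Finset.mem_filter]
      refine ⟨corner _ _ (Or.inr rfl) (by linarith) (by linarith), ?_⟩
      dsimp only
      have : C.K * (j - 1) = C.K * j - C.K := by ring
      rw [this, hc]
      linarith
  have k0 := card_tri hT NCP
  have k1 := side_bound h hT 1 (Or.inl rfl) (by linarith : j + 1 < C.a) subA sideA rowA
    (fun p hp hp2 => hmiss p hp (Or.inr hp2)) NCA
  have k2 := side_bound h hT (-1) (Or.inr rfl) (by linarith : j < C.a) subB sideB rowB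
    (fun p hp hp2 => hmiss p hp (Or.inl hp2)) NCB
  have k3 := hb_side h 1 (Or.inl rfl) (by linarith : 0 < j + 1) (by linarith) subA sideA rowA
  have k4 := hb_side h (-1) (Or.inr rfl) (by linarith : 0 < j) (by linarith) subB sideB rowB
  have k5 := hst_split hT c
  have k6 := card_row h (by linarith : 0 ≤ j) (by linarith)
  have k7 := card_row h (by linarith : 0 ≤ j + 1) (by linarith)
  have k8 := card_ruler h hj
  rw [← hc, ← hQ] at k8
  -- the partition of the points
  have part : ∀ p : Pt → Prop, (C.P.filter p).card =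
      (A.filter p).card + (B.filter p).card + (Q.filter p).card := by
    intro p
    have e : C.P.filter p = (A.filter p ∪ B.filter p) ∪ Q.filter p := by
      ext q
      simp only [hA, hB, hQ, Finset.mem_union, Finset.mem_filter]
      constructor
      · rintro ⟨h1, h2⟩
        rcases lt_trichotomy q.2 c with h3 | h3 | h3
        · exact Or.inl (Or.inr ⟨⟨h1, h3⟩, h2⟩)
        · exact Or.inr ⟨⟨h1, h3⟩, h2⟩
        · exact Or.inl (Or.inl ⟨⟨h1, h3⟩, h2⟩)
      · rintro ((⟨⟨h1, -⟩, h2⟩ | ⟨⟨h1, -⟩, h2⟩) | ⟨⟨h1, -⟩, h2⟩) <;> exact ⟨h1, h2⟩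
    rw [e, Finset.card_union_of_disjoint, Finset.card_union_of_disjoint]
    · rw [Finset.disjoint_left]
      intro q h1 h2
      simp only [hA, hB, Finset.mem_filter] at h1 h2
      linarith [h1.1.2, h2.1.2]
    · rw [Finset.disjoint_left]
      intro q h1 h2
      simp only [hA, hB, hQ, Finset.mem_union, Finset.mem_filter] at h1 h2
      rcases h1 with h1 | h1
      · linarith [h1.1.2, h2.1.2]
      · linarith [h1.1.2, h2.1.2]
  have p1 := part fun _ => True
  simp only [Finset.filter_true] at p1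
  have p2 := part (Bd C.P)
  have p3 : (Q.filter (Bd C.P)).card = 0 := by
    rw [Finset.card_eq_zero, Finset.filter_eq_empty_iff]
    intro q hq hb
    rw [hQ, Finset.mem_filter] at hq
    obtain ⟨-, i, l, h3, h4, h5, h6, rfl⟩ := Cfg.mid h ((Cfg.mem_P h).1 hq.1) (by linarith) hq.2
    have e1 : 0 < C.K * i := mul_pos hK (by linarith)
    have e2 : C.K * (i + 1) ≤ C.K * (C.a + C.r) := (Kle h).2 (by linarith)
    have e3 : 0 < C.K * j := mul_pos hK (by linarith)
    have e4 : C.K * (j + 1) ≤ C.K * C.a := (Kle h).2 (by linarith)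
    refine Cfg.not_bd h ?_ ?_ ?_ ?_ hb
    · dsimp only; linarith
    · dsimp only; linarith
    · dsimp only; linarith
    · dsimp only; linarith
  have p4 : hb C.P = (C.P.filter (Bd C.P)).card := rfl
  unfold ins at k5
  rw [← hA, ← hB] at k5
  omega

end Pool.Agent.Y605.ST
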