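import Pool.Agent.Y605.ST.Ext
import Pool.Agent.Y605.ST.Low

/-!
# Edges that cross a row
-/

set_option autoImplicit false

namespace Pool.Agent.Y605.ST

open Pool.Agent.W982.TA

open scoped Classical

section
variable {C : Cfg} {φ : ℤ × ℤ → Prop}

theorem mem_longH (h : C.OK) {x y : ℤ} {z : ℝ × ℝ} :
    z ∈ oseg (C.K * (x - 1), C.K * y) (C.K * (x + 1), C.K * y) ↔
      ((C.K * (x - 1) : ℤ) : ℝ) < z.1 ∧ z.1 < ((C.K * (x + 1) : ℤ) : ℝ) ∧
        z.2 = ((C.K * y : ℤ) : ℝ) := mem_hor ((Klt h).2 (by linarith))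

theorem mem_longV (h : C.OK) {x y : ℤ} {z : ℝ × ℝ} :
    z ∈ oseg (C.K * x, C.K * (y - 1)) (C.K * x, C.K * (y + 1)) ↔
      ((C.K * (y - 1) : ℤ) : ℝ) < z.2 ∧ z.2 < ((C.K * (y + 1) : ℤ) : ℝ) ∧
        z.1 = ((C.K * x : ℤ) : ℝ) := mem_ver ((Klt h).2 (by linarith))

/-- an edge from below a row to above it is the long vertical edge of a missing point -/
theorem cross_row (h : C.OK) {T : Set (Sym2 Pt)} (hT : IsTriangulation C.P T) (hE : E0 C φ ⊆ T)
    {y : ℤ} (hy0 : 0 ≤ y) (hy : y < C.a) {d u : Pt} (hf : s(d, u) ∈ T) (h1 : d.2 < C.K * y)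
    (h2 : C.K * y < u.2) : ∃ x, (x, y) ∈ C.M ∧ ¬ φ (x, y) ∧ s(d, u) = longV C (x, y) := by
  have hK := Cfg.K_pos h
  have hKr : (0 : ℝ) < C.K := by exact_mod_cast hK
  have hdP := Cfg.In_box h ((Cfg.mem_P h).1 (mem_left hT hf))
  have huP := Cfg.In_box h ((Cfg.mem_P h).1 (mem_right hT hf))
  -- the crossing point
  obtain ⟨z, hz, hz2⟩ : ∃ z ∈ oseg d u, z.2 = ((C.K * y : ℤ) : ℝ) := by
    have a1 : (d.2 : ℝ) < ((C.K * y : ℤ) : ℝ) := by exact_mod_cast h1
    have a2 : ((C.K * y : ℤ) : ℝ) < u.2 := by exact_mod_cast h2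
    have a3 : (0 : ℝ) < u.2 - d.2 := by linarith
    set t : ℝ := (((C.K * y : ℤ) : ℝ) - d.2) / (u.2 - d.2) with ht
    refine ⟨((1 - t) * d.1 + t * u.1, (1 - t) * d.2 + t * u.2),
      G4aux.seg_mem t (div_pos (by linarith) a3) ((div_lt_one a3).2 (by linarith)) rfl rfl, ?_⟩
    have : t * (u.2 - d.2) = ((C.K * y : ℤ) : ℝ) - d.2 := div_mul_cancel₀ _ a3.ne'
    dsimp only
    linarith
  have hz1 : (0 : ℝ) ≤ z.1 ∧ z.1 ≤ ((C.K * (C.a + C.r) : ℤ) : ℝ) := by
    obtain ⟨t, t0, t1, e1, e2⟩ := G4aux.mem_seg hz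
    simp only [emb] at e1
    have b1 : (0 : ℝ) ≤ d.1 := by exact_mod_cast hdP.1.1
    have b2 : (d.1 : ℝ) ≤ ((C.K * (C.a + C.r) : ℤ) : ℝ) := by exact_mod_cast hdP.1.2
    have b3 : (0 : ℝ) ≤ u.1 := by exact_mod_cast huP.1.1
    have b4 : (u.1 : ℝ) ≤ ((C.K * (C.a + C.r) : ℤ) : ℝ) := by exact_mod_cast huP.1.2
    rw [e1]
    constructor
    · have := mul_nonneg (by linarith : (0 : ℝ) ≤ 1 - t) b1
      have := mul_nonneg t0.le b3
      linarith
    · nlinarith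
  have hhor : ∀ X₁ X₂ : ℤ, s(d, u) ≠ s((X₁, C.K * y), (X₂, C.K * y)) := by
    intro X₁ X₂ he
    rcases Sym2.eq_iff.1 he with ⟨rfl, rfl⟩ | ⟨rfl, rfl⟩ <;> exact lt_irrefl _ h1
  -- a missing point whose gap contains the crossing point
  have gap : ∀ x, (x, y) ∈ C.M → ((C.K * (x - 1) : ℤ) : ℝ) < z.1 → z.1 < ((C.K * (x + 1) : ℤ) : ℝ) →
      ∃ x, (x, y) ∈ C.M ∧ ¬ φ (x, y) ∧ s(d, u) = longV C (x, y) := by
    intro x hM g1 g2
    by_cases hφ : φ (x, y)
    · exfalso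
      have hm := hE (longH_mem hM hφ)
      exact hhor _ _ (eq_of_meet hT hf hm hz ((mem_longH h).2 ⟨g1, g2, hz2⟩))
    · rcases lt_trichotomy z.1 ((C.K * x : ℤ) : ℝ) with g3 | g3 | g3
      · exfalso
        refine tri_lemma hT (kite_left h hE hM hφ) hf hz ?_ ?_ ?_
        · unfold dr
          rw [hz2]
          push_cast at g1 g2 g3 ⊢
          nlinarith [mul_pos hKr (sub_pos.2 g1)]
        · unfold dr
          rw [hz2]
          push_cast at g1 g2 g3 ⊢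
          nlinarith [mul_pos hKr (sub_pos.2 g1)]
        · unfold dr
          rw [hz2]
          push_cast at g1 g2 g3 ⊢
          nlinarith [mul_pos hKr (sub_pos.2 g3)]
      · refine ⟨x, hM, hφ, ?_⟩
        refine eq_of_meet hT hf (hE (longV_mem hM hφ)) hz ((mem_longV h).2 ⟨?_, ?_, g3⟩)
        · rw [hz2]; exact (KltR h).2 (by linarith)
        · rw [hz2]; exact (KltR h).2 (by linarith)
      · exfalso
        refine tri_lemma hT (kite_right h hE hM hφ) hf hz ?_ ?_ ?_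
        · unfold dr
          rw [hz2]
          push_cast at g1 g2 g3 ⊢
          nlinarith [mul_pos hKr (sub_pos.2 g2)]
        · unfold dr
          rw [hz2]
          push_cast at g1 g2 g3 ⊢
          nlinarith [mul_pos hKr (sub_pos.2 g2)]
        · unfold dr
          rw [hz2]
          push_cast at g1 g2 g3 ⊢
          nlinarith [mul_pos hKr (sub_pos.2 g3)]
  set x : ℤ := ⌊z.1 / C.K⌋ with hx
  have f1 : ((C.K * x : ℤ) : ℝ) ≤ z.1 := by
    have := Int.floor_le (z.1 / C.K)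
    rw [le_div_iff₀ hKr] at this
    push_cast
    linarith
  have f2 : z.1 < ((C.K * (x + 1) : ℤ) : ℝ) := by
    have := Int.lt_floor_add_one (z.1 / C.K)
    rw [div_lt_iff₀ hKr] at this
    push_cast
    linarith
  have x0 : 0 ≤ x := by
    have : ((C.K * 0 : ℤ) : ℝ) < ((C.K * (x + 1) : ℤ) : ℝ) := by
      rw [mul_zero]; push_cast at f2 ⊢; linarith [hz1.1]
    have := (KltR h).1 this
    omega
  have x1 : x ≤ C.a + C.r := by
    have : ((C.K * x : ℤ) : ℝ) < ((C.K * (C.a + C.r + 1) : ℤ) : ℝ) := by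
      have e : C.K * (C.a + C.r + 1) = C.K * (C.a + C.r) + C.K := by ring
      rw [e]
      have : ((C.K * (C.a + C.r) : ℤ) : ℝ) < ((C.K * (C.a + C.r) + C.K : ℤ) : ℝ) := by
        rw [Int.cast_lt]; linarith
      linarith [hz1.2]
    have := (KltR h).1 this
    omega
  by_cases hM : (x, y) ∈ C.M
  · refine gap x hM ?_ f2
    exact ((KltR h).2 (by linarith)).trans_le f1
  · have hL : C.Lat (x, y) := ⟨x0, hy0, Or.inl ⟨x1, hy.le⟩, hM⟩
    rcases f1.eq_or_lt with f3 | f3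
    · exfalso
      refine (hT.seg _ _ hf).2.2.2 _ (Cfg.mem_lat h hL) ?_
      have e : emb (C.K * x, C.K * y) = z := Prod.ext f3 hz2.symm
      rw [e]; exact hz
    · by_cases hM' : (x + 1, y) ∈ C.M
      · refine gap (x + 1) hM' ?_ ?_
        · rw [add_sub_cancel_right]; exact f3
        · exact f2.trans ((KltR h).2 (by linarith))
      · exfalso
        have x2 : x < C.a + C.r := (KltR h).1 (f3.trans_le hz1.2)
        have hL' : C.Lat (x + 1, y) := ⟨by dsimp only; omega, hy0, Or.inl ⟨by dsimp only; omega, hy.le⟩, hM'⟩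
        exact hhor _ _ (eq_of_meet hT hf (hE (unit_mem hL hL')) hz
          ((mem_hor ((Klt h).2 (by linarith))).2 ⟨f3, f2, hz2⟩))

end

end Pool.Agent.Y605.ST
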