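import Pool.Agent.Y605.ST.Row

/-!
# The prescribed edges
-/

set_option autoImplicit false

namespace Pool.Agent.Y605.ST

open Pool.Agent.W982.TA

open scoped Classical

/-! ### Exchange of the coordinates -/

/-- exchange of the coordinates -/
def sw (p : Pt) : Pt := (p.2, p.1)

@[simp] theorem sw_sw (p : Pt) : sw (sw p) = p := rfl

theorem sw_inj : Function.Injective sw := fun p q h => by
  rw [← sw_sw p, h, sw_sw]

theorem oseg_sw (p q : Pt) (z : ℝ × ℝ) : z ∈ oseg (sw p) (sw q) ↔ (z.2, z.1) ∈ oseg p q := by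
  constructor
  · intro h
    obtain ⟨t, h0, h1, e1, e2⟩ := G4aux.mem_seg h
    exact G4aux.seg_mem t h0 h1 e2 e1
  · intro h
    obtain ⟨t, h0, h1, e1, e2⟩ := G4aux.mem_seg h
    exact G4aux.seg_mem t h0 h1 e2 e1

/-- the reflected family of segments -/
def swS (E : Set (Sym2 Pt)) : Set (Sym2 Pt) := {e | e.map sw ∈ E}

theorem mem_swS {E : Set (Sym2 Pt)} {p q : Pt} : s(p, q) ∈ swS E ↔ s(sw p, sw q) ∈ E := by
  unfold swS
  rw [Set.mem_setOf_eq, Sym2.map_mk]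

theorem s_sw (p q p' q' : Pt) : s(sw p, sw q) = s(sw p', sw q') ↔ s(p, q) = s(p', q') := by
  rw [← Sym2.map_mk sw p q, ← Sym2.map_mk sw p' q']
  exact (Sym2.map.injective sw_inj).eq_iff

theorem isSeg_sw {S : Finset Pt} {p q : Pt} (h : IsSeg S p q) :
    IsSeg (S.image sw) (sw p) (sw q) := by
  refine ⟨Finset.mem_image_of_mem _ h.1, Finset.mem_image_of_mem _ h.2.1,
    fun he => h.2.2.1 (sw_inj he), fun r hr hm => ?_⟩
  obtain ⟨r', hr', rfl⟩ := Finset.mem_image.1 hr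
  rw [oseg_sw] at hm
  exact h.2.2.2 r' hr' hm

theorem image_sw_sw (S : Finset Pt) : (S.image sw).image sw = S := by
  rw [Finset.image_image]
  have : (sw ∘ sw) = id := by funext p; rfl
  rw [this, Finset.image_id]

theorem isSeg_sw_iff {S : Finset Pt} {p q : Pt} :
    IsSeg (S.image sw) p q ↔ IsSeg S (sw p) (sw q) := by
  constructor
  · intro h
    have := isSeg_sw h
    rwa [image_sw_sw] at this
  · intro h
    exact isSeg_sw h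

theorem tri_sw {S : Finset Pt} {T : Set (Sym2 Pt)} (hT : IsTriangulation S T) :
    IsTriangulation (S.image sw) (swS T) := by
  refine ⟨?_, ?_, ?_⟩
  · intro p q h
    rw [isSeg_sw_iff]
    exact hT.seg _ _ (mem_swS.1 h)
  · intro p q p' q' h1 h2 hne
    have h3 := hT.noncross _ _ _ _ (mem_swS.1 h1) (mem_swS.1 h2) (fun he => hne ((s_sw _ _ _ _).1 he))
    rw [Set.disjoint_left] at h3 ⊢
    intro z hz hz'
    exact h3 ((oseg_sw p q (z.2, z.1)).2 hz) ((oseg_sw p' q' (z.2, z.1)).2 hz')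
  · intro p q hs hd
    rw [mem_swS]
    refine hT.maximal _ _ (isSeg_sw_iff.1 hs) ?_
    intro p' q' h1 hne
    have h2 : s(sw p', sw q') ∈ swS T := mem_swS.2 h1
    have h3 := hd (sw p') (sw q') h2 (fun he => hne (by
      have := (s_sw _ _ _ _).2 he
      exact this))
    rw [Set.disjoint_left] at h3 ⊢
    intro z hz hz'
    refine h3 (a := (z.2, z.1)) ?_ ?_
    · exact (oseg_sw p q z).1 hz
    · rw [oseg_sw]
      exact hz'

/-- the reflected data -/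
def Cfg.sw (C : Cfg) : Cfg where
  a := C.a
  r := C.r
  σ := C.σ
  M := C.M.image Prod.swap
  H := C.V
  V := C.H

theorem Cfg.sw_sw (C : Cfg) : C.sw.sw = C := by
  unfold Cfg.sw
  simp only [Finset.image_image, Prod.swap_swap_eq, Finset.image_id]

theorem Cfg.mem_sw {C : Cfg} {x y : ℤ} : (x, y) ∈ C.sw.M ↔ (y, x) ∈ C.M := by
  unfold Cfg.sw
  simp only [Finset.mem_image]
  constructor
  · rintro ⟨⟨u, w⟩, h1, h2⟩
    rw [Prod.swap_prod_mk, Prod.mk.injEq] at h2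
    rw [← h2.1, ← h2.2]
    exact h1
  · intro h
    exact ⟨(y, x), h, rfl⟩

theorem Cfg.sw_OK {C : Cfg} (h : C.OK) : C.sw.OK := by
  refine ⟨h.apos, h.rpos, h.σpos, ?_, ?_, h.Vbox, h.Hbox⟩
  · rintro ⟨x, y⟩ hp
    have := h.Mbox _ (Cfg.mem_sw.1 hp)
    exact ⟨this.2.2.1, this.2.2.2, this.1, this.2.1⟩
  · rintro ⟨x, y⟩ hp ⟨x', y'⟩ hq h1 h2 h3 h4
    have := h.iso _ (Cfg.mem_sw.1 hp) _ (Cfg.mem_sw.1 hq) h3 h4 h1 h2
    rw [Prod.mk.injEq] at this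
    rw [this.1, this.2]

theorem Cfg.Lat_sw {C : Cfg} {x y : ℤ} : C.sw.Lat (x, y) ↔ C.Lat (y, x) := by
  unfold Cfg.Lat
  rw [Cfg.mem_sw]
  show (0 ≤ x ∧ 0 ≤ y ∧ ((x ≤ C.a + C.r ∧ y ≤ C.a) ∨ (x ≤ C.a ∧ y ≤ C.a + C.r)) ∧ _) ↔
    (0 ≤ y ∧ 0 ≤ x ∧ ((y ≤ C.a + C.r ∧ x ≤ C.a) ∨ (y ≤ C.a ∧ x ≤ C.a + C.r)) ∧ _)
  tauto

theorem Cfg.In_sw {C : Cfg} {p : Pt} : C.sw.In p ↔ C.In (ST.sw p) := by
  constructor
  · rintro (⟨x, y, h1, rfl⟩ | ⟨j, i, l, h1, h2, h3, h4, h5, rfl⟩ | ⟨j, i, l, h1, h2, h3, h4, h5, rfl⟩)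
    · exact Or.inl ⟨y, x, Cfg.Lat_sw.1 h1, rfl⟩
    · exact Or.inr (Or.inr ⟨j, i, l, h1, h2, h3, h4, h5, rfl⟩)
    · exact Or.inr (Or.inl ⟨j, i, l, h1, h2, h3, h4, h5, rfl⟩)
  · have key : ∀ q : Pt, C.In q → C.sw.In (ST.sw q) := by
      rintro q (⟨x, y, h1, rfl⟩ | ⟨j, i, l, h1, h2, h3, h4, h5, rfl⟩ | ⟨j, i, l, h1, h2, h3, h4, h5, rfl⟩)
      · exact Or.inl ⟨y, x, Cfg.Lat_sw.2 h1, rfl⟩
      · exact Or.inr (Or.inr ⟨j, i, l, h1, h2, h3, h4, h5, rfl⟩)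
      · exact Or.inr (Or.inl ⟨j, i, l, h1, h2, h3, h4, h5, rfl⟩)
    intro h
    exact key _ h

theorem Cfg.P_sw {C : Cfg} (h : C.OK) : C.sw.P = C.P.image ST.sw := by
  ext p
  rw [Cfg.mem_P (Cfg.sw_OK h), Cfg.In_sw, Finset.mem_image]
  constructor
  · intro hp
    exact ⟨ST.sw p, (Cfg.mem_P h).2 hp, rfl⟩
  · rintro ⟨q, hq, rfl⟩
    exact (Cfg.mem_P h).1 hq

/-! ### The families -/

/-- the gaps of the rows with an edge -/
def HE (C : Cfg) (φ : ℤ × ℤ → Prop) (x₁ x₂ y : ℤ) : Prop :=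
  (x₂ = x₁ + 1 ∧ C.Lat (x₁, y) ∧ C.Lat (x₂, y)) ∨ (x₂ = x₁ + 2 ∧ (x₁ + 1, y) ∈ C.M ∧ φ (x₁ + 1, y))

/-- edges on the rows -/
def EL (C : Cfg) (φ : ℤ × ℤ → Prop) : Set (Sym2 Pt) :=
  {e | ∃ x₁ x₂ y : ℤ, HE C φ x₁ x₂ y ∧ e = s((C.K * x₁, C.K * y), (C.K * x₂, C.K * y))}

/-- edges of the rulers -/
def ER (C : Cfg) : Set (Sym2 Pt) :=
  {e | ∃ j i l : ℤ, j ∈ C.H ∧ C.a ≤ i ∧ i < C.a + C.r ∧ 1 ≤ l ∧ l < C.σ ∧
    (e = s((C.K * i, C.K * (j + 1)), (C.K * i + 2 * l, C.K * j + C.σ)) ∨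
     e = s((C.K * i, C.K * j), (C.K * i + 2 * l, C.K * j + C.σ)) ∨
     (l + 1 < C.σ ∧ e = s((C.K * i + 2 * l, C.K * j + C.σ),
        (C.K * i + 2 * l + 2, C.K * j + C.σ))))}

/-- the sides of the kites -/
def EK (C : Cfg) : Set (Sym2 Pt) :=
  {e | ∃ x y s t : ℤ, (x, y) ∈ C.M ∧ (s = 1 ∨ s = -1) ∧ (t = 1 ∨ t = -1) ∧
    e = s((C.K * (x + s), C.K * y), (C.K * x, C.K * (y + t)))}

/-- the choices for the reflected data -/
def nsw (φ : ℤ × ℤ → Prop) : ℤ × ℤ → Prop := fun p => ¬ φ p.swap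

/-- all prescribed edges -/
def E0 (C : Cfg) (φ : ℤ × ℤ → Prop) : Set (Sym2 Pt) :=
  (EL C φ ∪ ER C) ∪ EK C ∪ (swS (EL C.sw (nsw φ)) ∪ swS (ER C.sw))

section
variable {C : Cfg} {φ : ℤ × ℤ → Prop}

theorem cell_eq (h : C.OK) {i i' : ℤ} {x : ℝ} (h1 : ((C.K * i : ℤ) : ℝ) < x)
    (h2 : x < ((C.K * (i + 1) : ℤ) : ℝ)) (h3 : ((C.K * i' : ℤ) : ℝ) < x)
    (h4 : x < ((C.K * (i' + 1) : ℤ) : ℝ)) : i = i' := by
  have a1 : i < i' + 1 := (KltR h).1 (h1.trans h4)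
  have a2 : i' < i + 1 := (KltR h).1 (h3.trans h2)
  omega

theorem no_line (h : C.OK) {i y : ℤ} {x : ℝ} (h1 : ((C.K * i : ℤ) : ℝ) < x)
    (h2 : x < ((C.K * (i + 1) : ℤ) : ℝ)) (h3 : x = ((C.K * y : ℤ) : ℝ)) : False := by
  rw [h3] at h1 h2
  have a1 : i < y := (KltR h).1 h1
  have a2 : y < i + 1 := (KltR h).1 h2
  omega

theorem HE_lt {x₁ x₂ y : ℤ} (h : HE C φ x₁ x₂ y) : x₁ < x₂ := by
  rcases h with h | h <;> linarith [h.1]

theorem loc_EL (h : C.OK) {p q : Pt} (he : s(p, q) ∈ EL C φ) {z : ℝ × ℝ} (hz : z ∈ oseg p q) :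
    ∃ x₁ x₂ y : ℤ, HE C φ x₁ x₂ y ∧ s(p, q) = s((C.K * x₁, C.K * y), (C.K * x₂, C.K * y)) ∧
      ((C.K * x₁ : ℤ) : ℝ) < z.1 ∧ z.1 < ((C.K * x₂ : ℤ) : ℝ) ∧ z.2 = ((C.K * y : ℤ) : ℝ) := by
  obtain ⟨x₁, x₂, y, h1, h2⟩ := he
  rw [g5_oseg_congr h2, mem_hor ((Klt h).2 (HE_lt h1))] at hz
  exact ⟨x₁, x₂, y, h1, h2, hz⟩

/-- the position of a point of a ruler edge -/
def LocR (C : Cfg) (j i l : ℤ) (e : Sym2 Pt) (z : ℝ × ℝ) : Prop :=
  (e = s((C.K * i, C.K * (j + 1)), (C.K * i + 2 * l, C.K * j + C.σ)) ∧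
    ((C.K * j + C.σ : ℤ) : ℝ) < z.2 ∧
    (C.σ : ℝ) * (z.1 - (C.K * i : ℤ)) = 2 * l * ((C.K * (j + 1) : ℤ) - z.2)) ∨
  (e = s((C.K * i, C.K * j), (C.K * i + 2 * l, C.K * j + C.σ)) ∧
    z.2 < ((C.K * j + C.σ : ℤ) : ℝ) ∧
    (C.σ : ℝ) * (z.1 - (C.K * i : ℤ)) = 2 * l * (z.2 - (C.K * j : ℤ))) ∨
  (e = s((C.K * i + 2 * l, C.K * j + C.σ), (C.K * i + 2 * l + 2, C.K * j + C.σ)) ∧
    z.2 = ((C.K * j + C.σ : ℤ) : ℝ) ∧ ((C.K * i + 2 * l : ℤ) : ℝ) < z.1 ∧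
    z.1 < ((C.K * i + 2 * l + 2 : ℤ) : ℝ))

theorem loc_ER (h : C.OK) {p q : Pt} (he : s(p, q) ∈ ER C) {z : ℝ × ℝ} (hz : z ∈ oseg p q) :
    ∃ j i l : ℤ, j ∈ C.H ∧ C.a ≤ i ∧ i < C.a + C.r ∧ 1 ≤ l ∧ l < C.σ ∧
      ((C.K * i : ℤ) : ℝ) < z.1 ∧ z.1 < ((C.K * (i + 1) : ℤ) : ℝ) ∧
      ((C.K * j : ℤ) : ℝ) < z.2 ∧ z.2 < ((C.K * (j + 1) : ℤ) : ℝ) ∧ LocR C j i l s(p, q) z := by
  obtain ⟨j, i, l, h1, h2, h3, h4, h5, h6⟩ := he
  have hσ := h.σpos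
  have hK2 : (C.K : ℝ) = 2 * C.σ := by unfold Cfg.K; push_cast; ring
  have hσr : (0 : ℝ) < C.σ := by exact_mod_cast (by linarith : (0 : ℤ) < C.σ)
  have hl0 : (0 : ℝ) < l := by exact_mod_cast (by linarith : (0 : ℤ) < l)
  have hl1 : (l : ℝ) < C.σ := by exact_mod_cast h5
  refine ⟨j, i, l, h1, h2, h3, h4, h5, ?_⟩
  rcases h6 with h6 | h6 | ⟨h7, h6⟩
  · rw [g5_oseg_congr h6] at hz
    obtain ⟨t, t0, t1, e1, e2⟩ := G4aux.mem_seg hz
    simp only [emb] at e1 e2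
    push_cast at e1 e2
    have e1' : z.1 = C.K * i + 2 * l * t := by rw [e1]; ring
    have e2' : z.2 = C.K * j + C.K - C.σ * t := by rw [e2, hK2]; ring
    have hlt : (l : ℝ) * t < C.σ := by nlinarith
    have hst : (C.σ : ℝ) * t < C.σ := by nlinarith
    have hst0 : 0 < (C.σ : ℝ) * t := by positivity
    have hlt0 : 0 < (l : ℝ) * t := by positivity
    refine ⟨?_, ?_, ?_, ?_, Or.inl ⟨h6, ?_, ?_⟩⟩
    · push_cast; rw [e1']; linarith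
    · push_cast; rw [e1']; linarith
    · push_cast; rw [e2']; linarith
    · push_cast; rw [e2']; linarith
    · push_cast; rw [e2']; linarith
    · push_cast; rw [e1', e2']; ring
  · rw [g5_oseg_congr h6] at hz
    obtain ⟨t, t0, t1, e1, e2⟩ := G4aux.mem_seg hz
    simp only [emb] at e1 e2
    push_cast at e1 e2
    have e1' : z.1 = C.K * i + 2 * l * t := by rw [e1]; ring
    have e2' : z.2 = C.K * j + C.σ * t := by rw [e2]; ring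
    have hlt : (l : ℝ) * t < C.σ := by nlinarith
    have hst : (C.σ : ℝ) * t < C.σ := by nlinarith
    have hst0 : 0 < (C.σ : ℝ) * t := by positivity
    have hlt0 : 0 < (l : ℝ) * t := by positivity
    refine ⟨?_, ?_, ?_, ?_, Or.inr (Or.inl ⟨h6, ?_, ?_⟩)⟩
    · push_cast; rw [e1']; linarith
    · push_cast; rw [e1']; linarith
    · push_cast; rw [e2']; linarith
    · push_cast; rw [e2']; linarith
    · push_cast; rw [e2']; linarith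
    · push_cast; rw [e1', e2']; ring
  · rw [g5_oseg_congr h6, mem_hor (by linarith)] at hz
    obtain ⟨b1, b2, b3⟩ := hz
    have h7' : (l : ℝ) + 1 < C.σ := by exact_mod_cast h7
    refine ⟨?_, ?_, ?_, ?_, Or.inr (Or.inr ⟨h6, b3, b1, b2⟩)⟩
    · push_cast at b1 ⊢; linarith
    · push_cast at b2 ⊢; linarith
    · rw [b3]; push_cast; linarith
    · rw [b3]; push_cast; linarith

theorem loc_EK (h : C.OK) {p q : Pt} (he : s(p, q) ∈ EK C) {z : ℝ × ℝ} (hz : z ∈ oseg p q) :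
    ∃ x y s t i j : ℤ, (x, y) ∈ C.M ∧ (s = 1 ∨ s = -1) ∧ (t = 1 ∨ t = -1) ∧
      s(p, q) = s((C.K * (x + s), C.K * y), (C.K * x, C.K * (y + t))) ∧
      2 * i = 2 * x + s - 1 ∧ 2 * j = 2 * y + t - 1 ∧
      ((C.K * i : ℤ) : ℝ) < z.1 ∧ z.1 < ((C.K * (i + 1) : ℤ) : ℝ) ∧
      ((C.K * j : ℤ) : ℝ) < z.2 ∧ z.2 < ((C.K * (j + 1) : ℤ) : ℝ) := by
  obtain ⟨x, y, s, t, h1, h2, h3, h4⟩ := he
  have hK := Cfg.K_pos h
  have hKr : (0 : ℝ) < C.K := by exact_mod_cast hK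
  rw [g5_oseg_congr h4] at hz
  obtain ⟨τ, t0, t1, e1, e2⟩ := G4aux.mem_seg hz
  simp only [emb] at e1 e2
  push_cast at e1 e2
  have k1 : (C.K : ℝ) * τ < C.K := by nlinarith
  have k2 : 0 < (C.K : ℝ) * τ := by positivity
  have e1' : z.1 = C.K * x + C.K * s * (1 - τ) := by rw [e1]; ring
  have e2' : z.2 = C.K * y + C.K * t * τ := by rw [e2]; ring
  rcases h2 with rfl | rfl <;> rcases h3 with rfl | rfl
  · refine ⟨x, y, 1, 1, x, y, h1, Or.inl rfl, Or.inl rfl, h4, by ring, by ring, ?_, ?_, ?_, ?_⟩ <;>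
    · push_cast
      first
        | (rw [e1']; push_cast; linarith)
        | (rw [e2']; push_cast; linarith)
  · refine ⟨x, y, 1, -1, x, y - 1, h1, Or.inl rfl, Or.inr rfl, h4, by ring, by ring, ?_, ?_, ?_, ?_⟩ <;>
    · push_cast
      first
        | (rw [e1']; push_cast; linarith)
        | (rw [e2']; push_cast; linarith)
  · refine ⟨x, y, -1, 1, x - 1, y, h1, Or.inr rfl, Or.inl rfl, h4, by ring, by ring, ?_, ?_, ?_, ?_⟩ <;>
    · push_cast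
      first
        | (rw [e1']; push_cast; linarith)
        | (rw [e2']; push_cast; linarith)
  · refine ⟨x, y, -1, -1, x - 1, y - 1, h1, Or.inr rfl, Or.inr rfl, h4, by ring, by ring, ?_, ?_, ?_, ?_⟩ <;>
    · push_cast
      first
        | (rw [e1']; push_cast; linarith)
        | (rw [e2']; push_cast; linarith)

/-- two families meet only in common segments -/
def Dj (E F : Set (Sym2 Pt)) : Prop := ∀ (p q p' q' : Pt) (z : ℝ × ℝ), s(p, q) ∈ E →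
  s(p', q') ∈ F → z ∈ oseg p q → z ∈ oseg p' q' → s(p, q) = s(p', q')

theorem Dj.symm {E F : Set (Sym2 Pt)} (h : Dj E F) : Dj F E :=
  fun p q p' q' z h1 h2 h3 h4 => (h p' q' p q z h2 h1 h4 h3).symm

theorem Dj.swS {E F : Set (Sym2 Pt)} (h : Dj E F) : Dj (swS E) (swS F) := by
  intro p q p' q' z h1 h2 h3 h4
  have := h (sw p) (sw q) (sw p') (sw q') (z.2, z.1) (mem_swS.1 h1) (mem_swS.1 h2)
    ((oseg_sw p q _).2 h3) ((oseg_sw p' q' _).2 h4)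
  exact (s_sw _ _ _ _).1 this

theorem Dj.union {E F G : Set (Sym2 Pt)} (h1 : Dj E G) (h2 : Dj F G) : Dj (E ∪ F) G := by
  rintro p q p' q' z (h | h) h' hz hz'
  · exact h1 p q p' q' z h h' hz hz'
  · exact h2 p q p' q' z h h' hz hz'

theorem dj_EL_EL (h : C.OK) : Dj (EL C φ) (EL C φ) := by
  intro p q p' q' z he he' hz hz'
  obtain ⟨x₁, x₂, y, g1, g2, g3, g4, g5⟩ := loc_EL h he hz
  obtain ⟨x₁', x₂', y', g1', g2', g3', g4', g5'⟩ := loc_EL h he' hz'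
  have ey : y = y' := by
    have : ((C.K * y : ℤ) : ℝ) = ((C.K * y' : ℤ) : ℝ) := g5.symm.trans g5'
    have : C.K * y = C.K * y' := by exact_mod_cast this
    exact mul_inj (Cfg.K_pos h) this
  subst ey
  have b1 : x₁ < x₂' := (KltR h).1 (g3.trans g4')
  have b2 : x₁' < x₂ := (KltR h).1 (g3'.trans g4)
  have key : x₁ = x₁' ∧ x₂ = x₂' := by
    rcases g1 with ⟨c1, c2, c3⟩ | ⟨c1, c2, c3⟩ <;> rcases g1' with ⟨d1, d2, d3⟩ | ⟨d1, d2, d3⟩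
    · omega
    · exfalso
      have : x₁ = x₁' ∨ x₁ = x₁' + 1 := by omega
      rcases this with rfl | rfl
      · rw [c1] at c3; exact c3.2.2.2 d2
      · exact c2.2.2.2 d2
    · exfalso
      have : x₁' = x₁ ∨ x₁' = x₁ + 1 := by omega
      rcases this with rfl | rfl
      · rw [d1] at d3; exact d3.2.2.2 c2
      · exact d2.2.2.2 c2
    · have := h.iso _ c2 _ d2 (by dsimp only; omega) (by dsimp only; omega) (by simp) (by simp)
      rw [Prod.mk.injEq] at this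
      omega
  rw [g2, g2', key.1, key.2]

theorem loc_ELs (h : C.OK) {p q : Pt} (he : s(p, q) ∈ swS (EL C.sw (nsw φ))) {z : ℝ × ℝ}
    (hz : z ∈ oseg p q) :
    ∃ y₁ y₂ x : ℤ, HE C.sw (nsw φ) y₁ y₂ x ∧
      s(p, q) = s((C.K * x, C.K * y₁), (C.K * x, C.K * y₂)) ∧
      ((C.K * y₁ : ℤ) : ℝ) < z.2 ∧ z.2 < ((C.K * y₂ : ℤ) : ℝ) ∧ z.1 = ((C.K * x : ℤ) : ℝ) := by
  obtain ⟨x₁, x₂, y, h1, h2, h3, h4, h5⟩ := loc_EL (Cfg.sw_OK h) (mem_swS.1 he)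
    (z := (z.2, z.1)) ((oseg_sw p q _).2 hz)
  refine ⟨x₁, x₂, y, h1, ?_, h3, h4, h5⟩
  rw [← s_sw]
  exact h2

theorem loc_ERs (h : C.OK) {p q : Pt} (he : s(p, q) ∈ swS (ER C.sw)) {z : ℝ × ℝ}
    (hz : z ∈ oseg p q) :
    ∃ j i : ℤ, 1 ≤ j ∧ j ≤ C.a - 2 ∧ C.a ≤ i ∧ i < C.a + C.r ∧
      ((C.K * i : ℤ) : ℝ) < z.2 ∧ z.2 < ((C.K * (i + 1) : ℤ) : ℝ) ∧
      ((C.K * j : ℤ) : ℝ) < z.1 ∧ z.1 < ((C.K * (j + 1) : ℤ) : ℝ) := by
  obtain ⟨j, i, l, h1, h2, h3, h4, h5, h6, h7, h8, h9, -⟩ := loc_ER (Cfg.sw_OK h) (mem_swS.1 he)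
    (z := (z.2, z.1)) ((oseg_sw p q _).2 hz)
  have := h.Vbox j h1
  exact ⟨j, i, this.1, this.2, h2, h3, h6, h7, h8, h9⟩

theorem dj_EL_ELs (h : C.OK) : Dj (EL C φ) (swS (EL C.sw (nsw φ))) := by
  intro p q p' q' z he he' hz hz'
  exfalso
  obtain ⟨x₁, x₂, y, g1, g2, g3, g4, g5⟩ := loc_EL h he hz
  obtain ⟨y₁, y₂, x, g1', g2', g3', g4', g5'⟩ := loc_ELs h he' hz'
  rw [g5'] at g3 g4
  rw [g5] at g3' g4'
  have b1 : x₁ < x := (KltR h).1 g3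
  have b2 : x < x₂ := (KltR h).1 g4
  have b3 : y₁ < y := (KltR h).1 g3'
  have b4 : y < y₂ := (KltR h).1 g4'
  rcases g1 with ⟨c1, c2, c3⟩ | ⟨c1, c2, c3⟩
  · omega
  · rcases g1' with ⟨d1, d2, d3⟩ | ⟨d1, d2, d3⟩
    · omega
    · have e1 : x = x₁ + 1 := by omega
      have e2 : y = y₁ + 1 := by omega
      subst e1; subst e2
      exact d3 c3

theorem dj_ER_ER (h : C.OK) : Dj (ER C) (ER C) := by
  intro p q p' q' z he he' hz hz'
  obtain ⟨j, i, l, a1, a2, a3, a4, a5, a6, a7, a8, a9, a10⟩ := loc_ER h he hz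
  obtain ⟨j', i', l', b1, b2, b3, b4, b5, b6, b7, b8, b9, b10⟩ := loc_ER h he' hz'
  have e1 := cell_eq h a6 a7 b6 b7
  have e2 := cell_eq h a8 a9 b8 b9
  subst e1; subst e2
  rcases a10 with ⟨c1, c2, c3⟩ | ⟨c1, c2, c3⟩ | ⟨c1, c2, c3, c4⟩ <;>
    rcases b10 with ⟨d1, d2, d3⟩ | ⟨d1, d2, d3⟩ | ⟨d1, d2, d3, d4⟩
  · rw [c3] at d3
    have h1 : (0 : ℝ) < ((C.K * (j + 1) : ℤ) : ℝ) - z.2 := by linarith
    have h2 : (l : ℝ) = l' := by
      have := mul_right_cancel₀ h1.ne' d3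
      linarith
    have h3 : l = l' := by exact_mod_cast h2
    rw [c1, d1, h3]
  · exact absurd (c2.trans d2) (lt_irrefl _)
  · rw [d2] at c2; exact absurd c2 (lt_irrefl _)
  · exact absurd (c2.trans d2) (lt_irrefl _)
  · rw [c3] at d3
    have h1 : (0 : ℝ) < z.2 - ((C.K * j : ℤ) : ℝ) := by linarith
    have h2 : (l : ℝ) = l' := by
      have := mul_right_cancel₀ h1.ne' d3
      linarith
    have h3 : l = l' := by exact_mod_cast h2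
    rw [c1, d1, h3]
  · rw [d2] at c2; exact absurd c2 (lt_irrefl _)
  · rw [c2] at d2; exact absurd d2 (lt_irrefl _)
  · rw [c2] at d2; exact absurd d2 (lt_irrefl _)
  · have h1 : C.K * i + 2 * l < C.K * i + 2 * l' + 2 := by exact_mod_cast c3.trans d4
    have h2 : C.K * i + 2 * l' < C.K * i + 2 * l + 2 := by exact_mod_cast d3.trans c4
    have h3 : l = l' := by omega
    rw [c1, d1, h3]

theorem dj_EK_EK (h : C.OK) : Dj (EK C) (EK C) := by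
  intro p q p' q' z he he' hz hz'
  obtain ⟨x, y, s, t, i, j, a1, a2, a3, a4, a5, a6, a7, a8, a9, a10⟩ := loc_EK h he hz
  obtain ⟨x', y', s', t', i', j', b1, b2, b3, b4, b5, b6, b7, b8, b9, b10⟩ := loc_EK h he' hz'
  have e1 := cell_eq h a7 a8 b7 b8
  have e2 := cell_eq h a9 a10 b9 b10
  subst e1; subst e2
  have h1 := h.iso _ a1 _ b1 (by dsimp only; omega) (by dsimp only; omega) (by dsimp only; omega)
    (by dsimp only; omega)
  rw [Prod.mk.injEq] at h1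
  obtain ⟨rfl, rfl⟩ := h1
  have h2 : s = s' := by omega
  have h3 : t = t' := by omega
  rw [a4, b4, h2, h3]

theorem dj_EL_ER (h : C.OK) : Dj (EL C φ) (ER C) := by
  intro p q p' q' z he he' hz hz'
  obtain ⟨x₁, x₂, y, g1, g2, g3, g4, g5⟩ := loc_EL h he hz
  obtain ⟨j', i', l', b1, b2, b3, b4, b5, b6, b7, b8, b9, b10⟩ := loc_ER h he' hz'
  exact (no_line h b8 b9 g5).elim

theorem dj_EL_EK (h : C.OK) : Dj (EL C φ) (EK C) := by
  intro p q p' q' z he he' hz hz'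
  obtain ⟨x₁, x₂, y, g1, g2, g3, g4, g5⟩ := loc_EL h he hz
  obtain ⟨x', y', s', t', i', j', b1, b2, b3, b4, b5, b6, b7, b8, b9, b10⟩ := loc_EK h he' hz'
  exact (no_line h b9 b10 g5).elim

theorem dj_EL_ERs (h : C.OK) : Dj (EL C φ) (swS (ER C.sw)) := by
  intro p q p' q' z he he' hz hz'
  obtain ⟨x₁, x₂, y, g1, g2, g3, g4, g5⟩ := loc_EL h he hz
  obtain ⟨j, i, b1, b2, b3, b4, b5, b6, b7, b8⟩ := loc_ERs h he' hz'
  exact (no_line h b5 b6 g5).elim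

theorem dj_ELs_ER (h : C.OK) : Dj (swS (EL C.sw (nsw φ))) (ER C) := by
  intro p q p' q' z he he' hz hz'
  obtain ⟨x₁, x₂, y, g1, g2, g3, g4, g5⟩ := loc_ELs h he hz
  obtain ⟨j', i', l', b1, b2, b3, b4, b5, b6, b7, b8, b9, b10⟩ := loc_ER h he' hz'
  exact (no_line h b6 b7 g5).elim

theorem dj_ELs_EK (h : C.OK) : Dj (swS (EL C.sw (nsw φ))) (EK C) := by
  intro p q p' q' z he he' hz hz'
  obtain ⟨x₁, x₂, y, g1, g2, g3, g4, g5⟩ := loc_ELs h he hz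
  obtain ⟨x', y', s', t', i', j', b1, b2, b3, b4, b5, b6, b7, b8, b9, b10⟩ := loc_EK h he' hz'
  exact (no_line h b7 b8 g5).elim

theorem dj_ELs_ERs (h : C.OK) : Dj (swS (EL C.sw (nsw φ))) (swS (ER C.sw)) := by
  intro p q p' q' z he he' hz hz'
  obtain ⟨x₁, x₂, y, g1, g2, g3, g4, g5⟩ := loc_ELs h he hz
  obtain ⟨j, i, b1, b2, b3, b4, b5, b6, b7, b8⟩ := loc_ERs h he' hz'
  exact (no_line h b7 b8 g5).elim

theorem dj_ER_EK (h : C.OK) : Dj (ER C) (EK C) := by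
  intro p q p' q' z he he' hz hz'
  obtain ⟨j, i, l, a1, a2, a3, a4, a5, a6, a7, a8, a9, a10⟩ := loc_ER h he hz
  obtain ⟨x', y', s', t', i', j', b1, b2, b3, b4, b5, b6, b7, b8, b9, b10⟩ := loc_EK h he' hz'
  have e1 := cell_eq h a6 a7 b7 b8
  have := h.Mbox _ b1
  dsimp only at this
  omega

theorem dj_ER_ERs (h : C.OK) : Dj (ER C) (swS (ER C.sw)) := by
  intro p q p' q' z he he' hz hz'
  obtain ⟨j, i, l, a1, a2, a3, a4, a5, a6, a7, a8, a9, a10⟩ := loc_ER h he hz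
  obtain ⟨j', i', b1, b2, b3, b4, b5, b6, b7, b8⟩ := loc_ERs h he' hz'
  have e1 := cell_eq h a6 a7 b7 b8
  omega

theorem dj_EK_ERs (h : C.OK) : Dj (EK C) (swS (ER C.sw)) := by
  intro p q p' q' z he he' hz hz'
  obtain ⟨x', y', s', t', i', j', b1, b2, b3, b4, b5, b6, b7, b8, b9, b10⟩ := loc_EK h he hz
  obtain ⟨j, i, c1, c2, c3, c4, c5, c6, c7, c8⟩ := loc_ERs h he' hz'
  have e1 := cell_eq h b9 b10 c5 c6
  have := h.Mbox _ b1
  dsimp only at this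
  omega

/-- the prescribed edges do not cross -/
theorem dj_E0 (h : C.OK) : Dj (E0 C φ) (E0 C φ) := by
  have h1 : Dj (swS (EL C.sw (nsw φ))) (swS (EL C.sw (nsw φ))) := (dj_EL_EL (Cfg.sw_OK h)).swS
  have h2 : Dj (swS (ER C.sw)) (swS (ER C.sw)) := (dj_ER_ER (Cfg.sw_OK h)).swS
  have u1 : Dj (E0 C φ) (EL C φ) :=
    (((dj_EL_EL h).union (dj_EL_ER h).symm).union (dj_EL_EK h).symm).union
      ((dj_EL_ELs h).symm.union (dj_EL_ERs h).symm)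
  have u2 : Dj (E0 C φ) (ER C) :=
    (((dj_EL_ER h).union (dj_ER_ER h)).union (dj_ER_EK h).symm).union
      ((dj_ELs_ER h).union (dj_ER_ERs h).symm)
  have u3 : Dj (E0 C φ) (EK C) :=
    (((dj_EL_EK h).union (dj_ER_EK h)).union (dj_EK_EK h)).union
      ((dj_ELs_EK h).union (dj_EK_ERs h).symm)
  have u4 : Dj (E0 C φ) (swS (EL C.sw (nsw φ))) :=
    (((dj_EL_ELs h).union (dj_ELs_ER h).symm).union (dj_ELs_EK h).symm).union
      (h1.union (dj_ELs_ERs h).symm)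
  have u5 : Dj (E0 C φ) (swS (ER C.sw)) :=
    (((dj_EL_ERs h).union (dj_ER_ERs h)).union (dj_EK_ERs h)).union
      ((dj_ELs_ERs h).union h2)
  exact ((u1.symm.union u2.symm).union u3.symm).union (u4.symm.union u5.symm)

end

end Pool.Agent.Y605.ST
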