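import Pool.Agent.NPC.Sat2

/-!
# The translation of formulas to choices
-/

set_option autoImplicit false

namespace Pool.Agent.Y605.ST

open Pool.Agent.NPC

/-- clauses -/
abbrev Cl : Type := Lit ℕ × Lit ℕ × Lit ℕ

/-- the number of a literal -/
def lc (l : Lit ℕ) : ℕ := 2 * l.2 + (if l.1 = true then 0 else 1)

/-- the number of literals -/
def nL (φ : List Cl) : ℕ := 6 * φ.length

/-- the number of nodes -/
def nN (φ : List Cl) : ℕ := nL φ * φ.length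

/-- the literal of the node occurs in the clause of the node -/
def occ (φ : List Cl) (ν : ℕ) : Bool :=
  decide (lc (φ.getD (ν / nL φ) ((true, 0), (true, 0), (true, 0))).1 = ν % nL φ) ||
    (decide (lc (φ.getD (ν / nL φ) ((true, 0), (true, 0), (true, 0))).2.1 = ν % nL φ) ||
      decide (lc (φ.getD (ν / nL φ) ((true, 0), (true, 0), (true, 0))).2.2 = ν % nL φ))

/-- the first point of a node -/
def pz (ν : ℕ) : ℕ × ℕ := (4 * ν + 2, 4 * ν + 2)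

/-- the row of the second point of a node -/
def prow (φ : List Cl) (ν : ℕ) : ℕ :=
  if ν + nL φ < nN φ then 4 * (ν + nL φ) + 1
  else 4 * nN φ + 2 * (ν + nL φ - nN φ) + 1 - ν % 2

/-- the second point of a node -/
def pw (φ : List Cl) (ν : ℕ) : ℕ × ℕ := (4 * ν + 3, prow φ ν)

/-- the third point of a node -/
def pp (φ : List Cl) (ν : ℕ) : ℕ × ℕ := (4 * nN φ + 4 * (ν / nL φ) + 2, 4 * ν + 3)

/-- the missing points -/
def Ml (φ : List Cl) : List (ℕ × ℕ) :=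
  ((List.range (nN φ)).map fun ν => pz ν) ++ (((List.range (nN φ)).map fun ν => pw φ ν) ++
    (((List.range (nN φ)).filter fun ν => occ φ ν).map fun ν => pp φ ν))

/-- the row gaps -/
def Hl (φ : List Cl) : List ℕ :=
  (((List.range (nN φ)).filter fun ν => occ φ ν).map fun ν => 4 * ν + 2) ++
    ((((List.range (nN φ)).filter fun ν => decide (nL φ ≤ ν)).map fun ν => 4 * ν + 1) ++
      ((List.range (3 * φ.length)).map fun x => 4 * nN φ + 4 * x + 1))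

/-- the column gaps -/
def Vl (φ : List Cl) : List ℕ :=
  ((List.range (nN φ)).map fun ν => 4 * ν + 2) ++
    ((List.range φ.length).map fun c => 4 * nN φ + 4 * c + 2)

theorem mem_Ml {φ : List Cl} {v : ℕ × ℕ} : v ∈ Ml φ ↔ (∃ ν < nN φ, v = pz ν) ∨
    (∃ ν < nN φ, v = pw φ ν) ∨ (∃ ν < nN φ, occ φ ν = true ∧ v = pp φ ν) := by
  unfold Ml
  simp only [List.mem_append, List.mem_map, List.mem_filter, List.mem_range]
  constructor
  · rintro (⟨ν, h1, h2⟩ | ⟨ν, h1, h2⟩ | ⟨ν, ⟨h1, h3⟩, h2⟩)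
    · exact Or.inl ⟨ν, h1, h2.symm⟩
    · exact Or.inr (Or.inl ⟨ν, h1, h2.symm⟩)
    · exact Or.inr (Or.inr ⟨ν, h1, h3, h2.symm⟩)
  · rintro (⟨ν, h1, h2⟩ | ⟨ν, h1, h2⟩ | ⟨ν, h1, h3, h2⟩)
    · exact Or.inl ⟨ν, h1, h2.symm⟩
    · exact Or.inr (Or.inl ⟨ν, h1, h2.symm⟩)
    · exact Or.inr (Or.inr ⟨ν, ⟨h1, h3⟩, h2.symm⟩)

theorem mem_Hl {φ : List Cl} {j : ℕ} : j ∈ Hl φ ↔ (∃ ν < nN φ, occ φ ν = true ∧ j = 4 * ν + 2) ∨
    (∃ ν < nN φ, nL φ ≤ ν ∧ j = 4 * ν + 1) ∨ ∃ x < 3 * φ.length, j = 4 * nN φ + 4 * x + 1 := by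
  unfold Hl
  simp only [List.mem_append, List.mem_map, List.mem_filter, List.mem_range, decide_eq_true_eq]
  constructor
  · rintro (⟨ν, ⟨h1, h3⟩, h2⟩ | ⟨ν, ⟨h1, h3⟩, h2⟩ | ⟨ν, h1, h2⟩)
    · exact Or.inl ⟨ν, h1, h3, h2.symm⟩
    · exact Or.inr (Or.inl ⟨ν, h1, h3, h2.symm⟩)
    · exact Or.inr (Or.inr ⟨ν, h1, h2.symm⟩)
  · rintro (⟨ν, h1, h3, h2⟩ | ⟨ν, h1, h3, h2⟩ | ⟨ν, h1, h2⟩)
    · exact Or.inl ⟨ν, ⟨h1, h3⟩, h2.symm⟩
    · exact Or.inr (Or.inl ⟨ν, ⟨h1, h3⟩, h2.symm⟩)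
    · exact Or.inr (Or.inr ⟨ν, h1, h2.symm⟩)

theorem mem_Vl {φ : List Cl} {j : ℕ} : j ∈ Vl φ ↔ (∃ ν < nN φ, j = 4 * ν + 2) ∨
    ∃ c < φ.length, j = 4 * nN φ + 4 * c + 2 := by
  unfold Vl
  simp only [List.mem_append, List.mem_map, List.mem_range]
  constructor
  · rintro (⟨ν, h1, h2⟩ | ⟨ν, h1, h2⟩)
    · exact Or.inl ⟨ν, h1, h2.symm⟩
    · exact Or.inr ⟨ν, h1, h2.symm⟩
  · rintro (⟨ν, h1, h2⟩ | ⟨ν, h1, h2⟩)
    · exact Or.inl ⟨ν, h1, h2.symm⟩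
    · exact Or.inr ⟨ν, h1, h2.symm⟩

section
variable {φ : List Cl}

theorem nL_even : nL φ % 2 = 0 := by unfold nL; omega

theorem nN_even : nN φ % 2 = 0 := by
  unfold nN nL
  rw [Nat.mul_assoc, Nat.mul_mod]
  norm_num

theorem nL_le {ν : ℕ} (h : ν < nN φ) : 6 ≤ nL φ ∧ nL φ ≤ nN φ := by
  unfold nN nL at *
  rcases Nat.eq_zero_or_pos φ.length with h0 | h0
  · rw [h0] at h
    simp at h
  · exact ⟨by omega, Nat.le_mul_of_pos_right _ h0⟩

theorem prow_lt {ν : ℕ} (h : ν + nL φ < nN φ) : prow φ ν = 4 * (ν + nL φ) + 1 := if_pos h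

theorem prow_ge {ν : ℕ} (h : ¬ ν + nL φ < nN φ) :
    prow φ ν = 4 * nN φ + 2 * (ν + nL φ - nN φ) + 1 - ν % 2 := if_neg h

/-- the choice problem -/
def SatN (φ : List Cl) : Prop := ∃ ψ : ℕ × ℕ → Prop,
  (∀ j ∈ Hl φ, ∃ p ∈ Ml φ, (p.2 = j ∨ p.2 = j + 1) ∧ ψ p) ∧
  (∀ j ∈ Vl φ, ∃ p ∈ Ml φ, (p.1 = j ∨ p.1 = j + 1) ∧ ¬ ψ p)

theorem fact0 {v : ℕ × ℕ} (hv : v ∈ Ml φ) {ν : ℕ} (hν : ν < nN φ)
    (h : v.1 = 4 * ν + 2 ∨ v.1 = 4 * ν + 2 + 1) : v = pz ν ∨ v = pw φ ν := by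
  rcases mem_Ml.1 hv with ⟨μ, h1, rfl⟩ | ⟨μ, h1, rfl⟩ | ⟨μ, h1, h2, rfl⟩
  · unfold pz at h
    dsimp only at h
    have : μ = ν := by omega
    rw [this]
    exact Or.inl rfl
  · unfold pw at h
    dsimp only at h
    have : μ = ν := by omega
    rw [this]
    exact Or.inr rfl
  · unfold pp at h
    dsimp only at h
    omega

theorem fact1 {v : ℕ × ℕ} (hv : v ∈ Ml φ) {c : ℕ}
    (h : v.1 = 4 * nN φ + 4 * c + 2 ∨ v.1 = 4 * nN φ + 4 * c + 2 + 1) :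
    ∃ ν < nN φ, occ φ ν = true ∧ v = pp φ ν ∧ ν / nL φ = c := by
  rcases mem_Ml.1 hv with ⟨μ, h1, rfl⟩ | ⟨μ, h1, rfl⟩ | ⟨μ, h1, h2, rfl⟩
  · unfold pz at h
    dsimp only at h
    omega
  · unfold pw at h
    dsimp only at h
    omega
  · unfold pp at h
    dsimp only at h
    exact ⟨μ, h1, h2, rfl, by omega⟩

theorem fact2 {v : ℕ × ℕ} (hv : v ∈ Ml φ) {ν : ℕ} (hν : ν < nN φ)
    (h : v.2 = 4 * ν + 2 ∨ v.2 = 4 * ν + 2 + 1) : v = pz ν ∨ v = pp φ ν := by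
  have hL := nL_le hν
  rcases mem_Ml.1 hv with ⟨μ, h1, rfl⟩ | ⟨μ, h1, rfl⟩ | ⟨μ, h1, h2, rfl⟩
  · unfold pz at h
    dsimp only at h
    have : μ = ν := by omega
    rw [this]
    exact Or.inl rfl
  · exfalso
    unfold pw at h
    dsimp only at h
    by_cases h3 : μ + nL φ < nN φ
    · rw [prow_lt h3] at h
      omega
    · rw [prow_ge h3] at h
      omega
  · unfold pp at h
    dsimp only at h
    have : μ = ν := by omega
    rw [this]
    exact Or.inr rfl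

theorem fact3 {v : ℕ × ℕ} (hv : v ∈ Ml φ) {ν : ℕ} (hν : ν + nL φ < nN φ)
    (h : v.2 = 4 * (ν + nL φ) + 1 ∨ v.2 = 4 * (ν + nL φ) + 1 + 1) :
    v = pw φ ν ∨ v = pz (ν + nL φ) := by
  rcases mem_Ml.1 hv with ⟨μ, h1, rfl⟩ | ⟨μ, h1, rfl⟩ | ⟨μ, h1, h2, rfl⟩
  · unfold pz at h
    dsimp only at h
    have : μ = ν + nL φ := by omega
    rw [this]
    exact Or.inr rfl
  · unfold pw at h
    dsimp only at h
    by_cases h3 : μ + nL φ < nN φ
    · rw [prow_lt h3] at h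
      have : μ = ν := by omega
      rw [this]
      exact Or.inl rfl
    · rw [prow_ge h3] at h
      omega
  · unfold pp at h
    dsimp only at h
    omega

theorem fact4 {v : ℕ × ℕ} (hv : v ∈ Ml φ) {x : ℕ} (hLN : nL φ ≤ nN φ)
    (h : v.2 = 4 * nN φ + 4 * x + 1 ∨ v.2 = 4 * nN φ + 4 * x + 1 + 1) :
    v = pw φ (nN φ - nL φ + 2 * x) ∨ v = pw φ (nN φ - nL φ + (2 * x + 1)) := by
  have hL2 := nL_even (φ := φ)
  have hN2 := nN_even (φ := φ)
  rcases mem_Ml.1 hv with ⟨μ, h1, rfl⟩ | ⟨μ, h1, rfl⟩ | ⟨μ, h1, h2, rfl⟩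
  · unfold pz at h
    dsimp only at h
    omega
  · unfold pw at h
    dsimp only at h
    by_cases h3 : μ + nL φ < nN φ
    · rw [prow_lt h3] at h
      omega
    · rw [prow_ge h3] at h
      have : μ = nN φ - nL φ + 2 * x ∨ μ = nN φ - nL φ + (2 * x + 1) := by omega
      rcases this with rfl | rfl
      · exact Or.inl rfl
      · exact Or.inr rfl
  · unfold pp at h
    dsimp only at h
    omega

theorem div_lt {ν : ℕ} (hν : ν < nN φ) : ν / nL φ < φ.length := by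
  unfold nN at hν
  exact Nat.div_lt_of_lt_mul hν

/-- the last node of a literal -/
theorem last_eq {ν : ℕ} (hν : ν < nN φ) :
    ν + (φ.length - 1 - ν / nL φ) * nL φ = nN φ - nL φ + ν % nL φ := by
  have h1 := div_lt hν
  have h2 := Nat.div_add_mod ν (nL φ)
  obtain ⟨k, hk⟩ : ∃ k, φ.length = ν / nL φ + 1 + k := ⟨φ.length - 1 - ν / nL φ, by omega⟩
  have h3 : φ.length - 1 - ν / nL φ = k := by omega
  rw [h3]
  have h4 : nN φ = nL φ * (ν / nL φ) + nL φ + k * nL φ := by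
    have : nN φ = nL φ * φ.length := rfl
    rw [this, hk]
    ring
  omega

theorem chain {ψ : ℕ × ℕ → Prop}
    (hH : ∀ j ∈ Hl φ, ∃ p ∈ Ml φ, (p.2 = j ∨ p.2 = j + 1) ∧ ψ p)
    (hV : ∀ j ∈ Vl φ, ∃ p ∈ Ml φ, (p.1 = j ∨ p.1 = j + 1) ∧ ¬ ψ p) {ν : ℕ} (hz : ψ (pz ν)) :
    ∀ k : ℕ, ν + k * nL φ < nN φ → ψ (pz (ν + k * nL φ)) := by
  intro k
  induction k with
  | zero => intro _; simpa using hz
  | succ k ih =>
    intro hlt
    have e : ν + (k + 1) * nL φ = ν + k * nL φ + nL φ := by ring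
    rw [e] at hlt ⊢
    have h1 := ih (by omega)
    obtain ⟨p, hp, hpj, hpψ⟩ := hV _ (mem_Vl.2 (Or.inl ⟨ν + k * nL φ, by omega, rfl⟩))
    have h2 : p = pw φ (ν + k * nL φ) := by
      rcases fact0 hp (by omega) hpj with h | h
      · rw [h] at hpψ; exact absurd h1 hpψ
      · exact h
    rw [h2] at hpψ
    obtain ⟨q, hq, hqj, hqψ⟩ := hH _ (mem_Hl.2 (Or.inr (Or.inl ⟨ν + k * nL φ + nL φ, hlt,
      by omega, rfl⟩)))
    rcases fact3 hq hlt hqj with h | h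
    · rw [h] at hqψ; exact absurd hqψ hpψ
    · rw [h] at hqψ; exact hqψ

/-- the value of the literal of a node -/
def lit (φ : List Cl) (τ : ℕ → Bool) (ν : ℕ) : Prop :=
  if ν % nL φ % 2 = 0 then τ (ν % nL φ / 2) = true else τ (ν % nL φ / 2) = false

theorem lit_lc {τ : ℕ → Bool} {ν : ℕ} {l : Lit ℕ} (h : lc l = ν % nL φ) :
    lit φ τ ν ↔ τ l.2 = l.1 := by
  unfold lit
  rw [← h]
  unfold lc
  obtain ⟨b, x⟩ := l
  cases b
  · have e1 : (2 * x + 1) % 2 = 1 := by omega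
    have e2 : (2 * x + 1) / 2 = x := by omega
    simp [e1, e2]
  · have e1 : (2 * x) % 2 = 0 := by omega
    have e2 : (2 * x) / 2 = x := by omega
    simp [e1, e2]

theorem occ_iff {ν : ℕ} (hν : ν < nN φ) : occ φ ν = true ↔ ∃ c, φ[ν / nL φ]? = some c ∧
    (lc c.1 = ν % nL φ ∨ lc c.2.1 = ν % nL φ ∨ lc c.2.2 = ν % nL φ) := by
  have h1 := div_lt hν
  unfold occ
  rw [List.getD_eq_getElem?_getD, List.getElem?_eq_getElem h1, Option.getD_some]
  simp only [Bool.or_eq_true, decide_eq_true_eq, Option.some.injEq, exists_eq_left']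

/-- the choices of an assignment -/
def psi (φ : List Cl) (τ : ℕ → Bool) (p : ℕ × ℕ) : Prop :=
  if 4 * nN φ ≤ p.1 then ¬ lit φ τ (p.2 / 4) else
    if p.1 % 4 = 2 then lit φ τ (p.1 / 4) else ¬ lit φ τ (p.1 / 4)

theorem vz {τ : ℕ → Bool} (ν : ℕ) (hν : ν < nN φ) : psi φ τ (pz ν) = lit φ τ ν := by
  unfold psi pz
  dsimp only
  rw [if_neg (by omega), if_pos (by omega)]
  congr 1
  omega

theorem vw {τ : ℕ → Bool} (ν : ℕ) (hν : ν < nN φ) : psi φ τ (pw φ ν) = ¬ lit φ τ ν := by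
  unfold psi pw
  dsimp only
  rw [if_neg (by omega), if_neg (by omega)]
  congr 2
  omega

theorem vp {τ : ℕ → Bool} (ν : ℕ) : psi φ τ (pp φ ν) = ¬ lit φ τ ν := by
  unfold psi pp
  dsimp only
  rw [if_pos (by omega)]
  congr 2
  omega

theorem satN_of {τ : ℕ → Bool} (hB : Bounded3 φ)
    (hτ : ∀ c ∈ φ, τ c.1.2 = c.1.1 ∨ τ c.2.1.2 = c.2.1.1 ∨ τ c.2.2.2 = c.2.2.1) : SatN φ := by
  refine ⟨psi φ τ, ?_, ?_⟩
  · intro j hj
    rcases mem_Hl.1 hj with ⟨ν, h1, h2, rfl⟩ | ⟨ν, h1, h2, rfl⟩ | ⟨x, h1, rfl⟩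
    · by_cases hl : lit φ τ ν
      · exact ⟨pz ν, mem_Ml.2 (Or.inl ⟨ν, h1, rfl⟩), Or.inl rfl, by rw [vz ν h1]; exact hl⟩
      · exact ⟨pp φ ν, mem_Ml.2 (Or.inr (Or.inr ⟨ν, h1, h2, rfl⟩)), Or.inr rfl,
          by rw [vp ν]; exact hl⟩
    · by_cases hl : lit φ τ ν
      · exact ⟨pz ν, mem_Ml.2 (Or.inl ⟨ν, h1, rfl⟩), Or.inr rfl, by rw [vz ν h1]; exact hl⟩
      · obtain ⟨μ, rfl⟩ : ∃ μ, ν = μ + nL φ := ⟨ν - nL φ, by omega⟩
        refine ⟨pw φ μ, mem_Ml.2 (Or.inr (Or.inl ⟨μ, by omega, rfl⟩)), Or.inl (prow_lt h1), ?_⟩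
        rw [vw μ (by omega)]
        unfold lit at hl ⊢
        rwa [Nat.add_mod_right] at hl
    · have hL6 : nL φ = 6 * φ.length := rfl
      have hpos : 0 < φ.length := by omega
      have hNL : nN φ = nL φ * φ.length := rfl
      have hLN : nL φ ≤ nN φ := by rw [hNL]; exact Nat.le_mul_of_pos_right _ hpos
      have hdvd : nL φ ∣ nN φ - nL φ := Nat.dvd_sub (Dvd.intro _ hNL.symm) dvd_rfl
      have m1 : (nN φ - nL φ + 2 * x) % nL φ = 2 * x := by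
        obtain ⟨q, hq⟩ := hdvd
        rw [hq, Nat.mul_add_mod, Nat.mod_eq_of_lt (by omega)]
      have m2 : (nN φ - nL φ + (2 * x + 1)) % nL φ = 2 * x + 1 := by
        obtain ⟨q, hq⟩ := hdvd
        rw [hq, Nat.mul_add_mod, Nat.mod_eq_of_lt (by omega)]
      have hL2 := nL_even (φ := φ)
      have hN2 := nN_even (φ := φ)
      by_cases hx : τ x = true
      · refine ⟨pw φ (nN φ - nL φ + (2 * x + 1)), mem_Ml.2 (Or.inr (Or.inl ⟨_, by omega, rfl⟩)),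
          Or.inr ?_, ?_⟩
        · unfold pw
          dsimp only
          rw [prow_ge (by omega)]
          omega
        · rw [vw (nN φ - nL φ + (2 * x + 1)) (by omega)]
          unfold lit
          rw [m2]
          have e1 : (2 * x + 1) % 2 = 1 := by omega
          have e2 : (2 * x + 1) / 2 = x := by omega
          simp [e1, e2, hx]
      · refine ⟨pw φ (nN φ - nL φ + 2 * x), mem_Ml.2 (Or.inr (Or.inl ⟨_, by omega, rfl⟩)),
          Or.inl ?_, ?_⟩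
        · unfold pw
          dsimp only
          rw [prow_ge (by omega)]
          omega
        · rw [vw (nN φ - nL φ + 2 * x) (by omega)]
          unfold lit
          rw [m1]
          have e1 : (2 * x) % 2 = 0 := by omega
          have e2 : (2 * x) / 2 = x := by omega
          simp [e1, e2, hx]
  · intro j hj
    rcases mem_Vl.1 hj with ⟨ν, h1, rfl⟩ | ⟨c, h1, rfl⟩
    · by_cases hl : lit φ τ ν
      · exact ⟨pw φ ν, mem_Ml.2 (Or.inr (Or.inl ⟨ν, h1, rfl⟩)), Or.inr rfl,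
          by rw [vw ν h1]; exact not_not.2 hl⟩
      · exact ⟨pz ν, mem_Ml.2 (Or.inl ⟨ν, h1, rfl⟩), Or.inl rfl, by rw [vz ν h1]; exact hl⟩
    · have hL6 : nL φ = 6 * φ.length := rfl
      have key : ∀ l : Lit ℕ, (l = φ[c].1 ∨ l = φ[c].2.1 ∨ l = φ[c].2.2) → l.2 < 3 * φ.length →
          τ l.2 = l.1 → ∃ ν < nN φ, occ φ ν = true ∧ ν / nL φ = c ∧ lit φ τ ν := by
        intro l hl hb hv
        have hlt : lc l < nL φ := by
          unfold lc
          split_ifs <;> omega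
        have e1 : (nL φ * c + lc l) % nL φ = lc l := by
          rw [Nat.mul_add_mod, Nat.mod_eq_of_lt hlt]
        have e2 : (nL φ * c + lc l) / nL φ = c := by
          rw [Nat.mul_add_div (by omega), Nat.div_eq_of_lt hlt, add_zero]
        have e3 : nL φ * c + lc l < nN φ := by
          have : nL φ * (c + 1) ≤ nL φ * φ.length := Nat.mul_le_mul_left _ h1
          unfold nN
          have e : nL φ * (c + 1) = nL φ * c + nL φ := by ring
          omega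
        refine ⟨nL φ * c + lc l, e3, ?_, e2, ?_⟩
        · rw [occ_iff e3, e2, e1]
          refine ⟨φ[c], List.getElem?_eq_getElem h1, ?_⟩
          rcases hl with rfl | rfl | rfl
          · exact Or.inl rfl
          · exact Or.inr (Or.inl rfl)
          · exact Or.inr (Or.inr rfl)
        · exact (lit_lc e1.symm).2 hv
      have hmem : φ[c] ∈ φ := List.getElem_mem h1
      have hb := hB _ hmem
      have : ∃ ν < nN φ, occ φ ν = true ∧ ν / nL φ = c ∧ lit φ τ ν := by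
        rcases hτ _ hmem with h | h | h
        · exact key _ (Or.inl rfl) hb.1 h
        · exact key _ (Or.inr (Or.inl rfl)) hb.2.1 h
        · exact key _ (Or.inr (Or.inr rfl)) hb.2.2 h
      obtain ⟨ν, k1, k2, k3, k4⟩ := this
      refine ⟨pp φ ν, mem_Ml.2 (Or.inr (Or.inr ⟨ν, k1, k2, rfl⟩)), Or.inl ?_, ?_⟩
      · unfold pp
        dsimp only
        rw [k3]
      · rw [vp ν]
        exact not_not.2 k4

theorem sat_of (hB : Bounded3 φ) (h : SatN φ) : SAT3 φ := by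
  classical
  obtain ⟨ψ, hH, hV⟩ := h
  refine ⟨fun x => decide (¬ ψ (pw φ (nN φ - nL φ + 2 * x))), ?_⟩
  intro c hc
  obtain ⟨i, hi, hic⟩ := List.getElem_of_mem hc
  obtain ⟨p, hp, hpj, hpψ⟩ := hV _ (mem_Vl.2 (Or.inr ⟨i, hi, rfl⟩))
  obtain ⟨ν, h1, h2, rfl, h3⟩ := fact1 hp hpj
  have hLN := (nL_le h1).2
  have hzν : ψ (pz ν) := by
    obtain ⟨q, hq, hqj, hqψ⟩ := hH _ (mem_Hl.2 (Or.inl ⟨ν, h1, h2, rfl⟩))
    rcases fact2 hq h1 hqj with h | h
    · rw [h] at hqψ; exact hqψ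
    · rw [h] at hqψ; exact absurd hqψ hpψ
  have hm : ν % nL φ < nL φ := Nat.mod_lt _ (by have := (nL_le h1).1; omega)
  have hlast := chain hH hV hzν (φ.length - 1 - ν / nL φ) (by rw [last_eq h1]; omega)
  rw [last_eq h1] at hlast
  have hw : ¬ ψ (pw φ (nN φ - nL φ + ν % nL φ)) := by
    obtain ⟨q, hq, hqj, hqψ⟩ := hV _ (mem_Vl.2 (Or.inl ⟨nN φ - nL φ + ν % nL φ, by omega, rfl⟩))
    rcases fact0 hq (by omega) hqj with h | h
    · rw [h] at hqψ; exact absurd hlast hqψ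
    · rw [h] at hqψ; exact hqψ
  have key : ∀ l : Lit ℕ, lc l = ν % nL φ → l.2 < 3 * φ.length →
      decide (¬ ψ (pw φ (nN φ - nL φ + 2 * l.2))) = l.1 := by
    rintro ⟨b, x⟩ hl hb
    unfold lc at hl
    dsimp only at hl hb ⊢
    cases b
    · rw [if_neg (by simp)] at hl
      rw [← hl] at hw
      obtain ⟨q, hq, hqj, hqψ⟩ := hH _ (mem_Hl.2 (Or.inr (Or.inr ⟨x, hb, rfl⟩)))
      rcases fact4 hq hLN hqj with h | h
      · rw [h] at hqψ
        simp [hqψ]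
      · rw [h] at hqψ
        exact absurd hqψ hw
    · rw [if_pos rfl, add_zero] at hl
      rw [← hl] at hw
      simp [hw]
  obtain ⟨c', hc', hor⟩ := (occ_iff h1).1 h2
  rw [h3, List.getElem?_eq_getElem hi, Option.some.injEq] at hc'
  have hcc : c' = c := by rw [← hc', hic]
  subst hcc
  have hb := hB _ hc
  rcases hor with h | h | h
  · exact Or.inl (key _ h hb.1)
  · exact Or.inr (Or.inl (key _ h hb.2.1))
  · exact Or.inr (Or.inr (key _ h hb.2.2))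

theorem satN_iff (hB : Bounded3 φ) : SAT3 φ ↔ SatN φ :=
  ⟨fun ⟨_, hτ⟩ => satN_of hB hτ, sat_of hB⟩

end

end Pool.Agent.Y605.ST
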