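import Pool.Agent.Y605.ST.Out

/-!
# The number of edges of a triangulation
-/

set_option autoImplicit false

namespace Pool.Agent.Y605.ST

open Pool.Agent.W982.TA

open scoped Classical

/-- `v` is on the boundary of the convex hull of `S` -/
def Bd (S : Finset Pt) (v : Pt) : Prop :=
  ∃ α β : ℤ, (α ≠ 0 ∨ β ≠ 0) ∧ ∀ s ∈ S, α * s.1 + β * s.2 ≤ α * v.1 + β * v.2

/-- upper support -/
def Up (S : Finset Pt) (μ ν : ℤ) (v : Pt) : Prop :=
  ∃ α β : ℤ, 0 < β * μ - α * ν ∧ ∀ s ∈ S, α * s.1 + β * s.2 ≤ α * v.1 + β * v.2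

/-- lower support -/
def Lo (S : Finset Pt) (μ ν : ℤ) (v : Pt) : Prop :=
  ∃ α β : ℤ, β * μ - α * ν < 0 ∧ ∀ s ∈ S, α * s.1 + β * s.2 ≤ α * v.1 + β * v.2

/-- `S` is not contained in a line -/
def NC (S : Finset Pt) : Prop := ∃ a ∈ S, ∃ b ∈ S, ∃ c ∈ S, dt a b c ≠ 0

theorem triple (μ ν : ℤ) (x p q v : Pt) :
    (fx μ ν p - fx μ ν x) * dt x q v + (fx μ ν q - fx μ ν x) * dt x v p +
      (fx μ ν v - fx μ ν x) * dt x p q = 0 := by
  unfold dt fx; ring

theorem gid (μ ν α β : ℤ) (y z x : Pt) :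
    (fx μ ν z - fx μ ν y) * ((α * x.1 + β * x.2) - (α * y.1 + β * y.2)) -
      (fx μ ν x - fx μ ν y) * ((α * z.1 + β * z.2) - (α * y.1 + β * y.2)) =
      (β * μ - α * ν) * dt y z x := by
  unfold dt fx; ring

section
variable {S : Finset Pt} {T : Set (Sym2 Pt)} {μ ν : ℤ}

/-- later neighbours -/
noncomputable def Oo (S : Finset Pt) (T : Set (Sym2 Pt)) (μ ν : ℤ) (v : Pt) : Finset Pt :=
  S.filter fun w => s(v, w) ∈ T ∧ fx μ ν v < fx μ ν w

theorem mem_Oo (hT : IsTriangulation S T) {v w : Pt} :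
    w ∈ Oo S T μ ν v ↔ s(v, w) ∈ T ∧ fx μ ν v < fx μ ν w := by
  unfold Oo
  rw [Finset.mem_filter]
  exact ⟨fun h => h.2, fun h => ⟨mem_right hT h.1, h⟩⟩

theorem ray_eq' (hT : IsTriangulation S T) {v w w' : Pt} (h : w ∈ Oo S T μ ν v)
    (h' : w' ∈ Oo S T μ ν v) (h0 : dt v w w' = 0) : w = w' := by
  rw [mem_Oo hT] at h h'
  refine ray_eq (hT.seg _ _ h.1) (hT.seg _ _ h'.1) μ ν ?_ ?_ h0
  · have := h.2; unfold fx at this; linarith
  · have := h'.2; unfold fx at this; linarith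

theorem top_exists (hT : IsTriangulation S T) (hμ : 0 < μ) {v : Pt} (hne : (Oo S T μ ν v).Nonempty) :
    ∃ t ∈ Oo S T μ ν v, ∀ w ∈ Oo S T μ ν v, w ≠ t → 0 < dt v w t := by
  obtain ⟨t, ht, hmax⟩ := Finset.exists_max_image (Oo S T μ ν v)
    (fun w => ((w.2 - v.2 : ℤ) : ℚ) / (fx μ ν w - fx μ ν v : ℤ)) hne
  refine ⟨t, ht, fun w hw hwt => ?_⟩
  have h := hmax w hw
  have hw' := (mem_Oo hT).1 hw
  have ht' := (mem_Oo hT).1 ht
  have p1 : (0 : ℚ) < (fx μ ν w - fx μ ν v : ℤ) := by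
    exact_mod_cast sub_pos.2 hw'.2
  have p2 : (0 : ℚ) < (fx μ ν t - fx μ ν v : ℤ) := by
    exact_mod_cast sub_pos.2 ht'.2
  rw [div_le_div_iff₀ p1 p2] at h
  have h' : (w.2 - v.2) * (fx μ ν t - fx μ ν v) ≤ (t.2 - v.2) * (fx μ ν w - fx μ ν v) := by
    exact_mod_cast h
  have e : (t.2 - v.2) * (fx μ ν w - fx μ ν v) - (w.2 - v.2) * (fx μ ν t - fx μ ν v) =
      μ * dt v w t := by
    unfold dt fx; ring
  have h2 : 0 ≤ μ * dt v w t := by rw [← e]; linarith
  have h3 : 0 ≤ dt v w t := nonneg_of_mul_nonneg_right h2 hμ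
  refine lt_of_le_of_ne h3 fun h4 => hwt (ray_eq' hT hw ht h4.symm)

theorem bot_exists (hT : IsTriangulation S T) (hμ : 0 < μ) {v : Pt} (hne : (Oo S T μ ν v).Nonempty) :
    ∃ t ∈ Oo S T μ ν v, ∀ w ∈ Oo S T μ ν v, w ≠ t → 0 < dt v t w := by
  obtain ⟨t, ht, hmax⟩ := Finset.exists_min_image (Oo S T μ ν v)
    (fun w => ((w.2 - v.2 : ℤ) : ℚ) / (fx μ ν w - fx μ ν v : ℤ)) hne
  refine ⟨t, ht, fun w hw hwt => ?_⟩
  have h := hmax w hw
  have hw' := (mem_Oo hT).1 hw
  have ht' := (mem_Oo hT).1 ht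
  have p1 : (0 : ℚ) < (fx μ ν w - fx μ ν v : ℤ) := by
    exact_mod_cast sub_pos.2 hw'.2
  have p2 : (0 : ℚ) < (fx μ ν t - fx μ ν v : ℤ) := by
    exact_mod_cast sub_pos.2 ht'.2
  rw [div_le_div_iff₀ p2 p1] at h
  have h' : (t.2 - v.2) * (fx μ ν w - fx μ ν v) ≤ (w.2 - v.2) * (fx μ ν t - fx μ ν v) := by
    exact_mod_cast h
  have e : (w.2 - v.2) * (fx μ ν t - fx μ ν v) - (t.2 - v.2) * (fx μ ν w - fx μ ν v) =
      μ * dt v t w := by
    unfold dt fx; ring
  have h2 : 0 ≤ μ * dt v t w := by rw [← e]; linarith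
  have h3 : 0 ≤ dt v t w := nonneg_of_mul_nonneg_right h2 hμ
  refine lt_of_le_of_ne h3 fun h4 => hwt (ray_eq' hT ht hw h4.symm).symm

/-- all triangles, the vertices in increasing order -/
noncomputable def Tp (S : Finset Pt) (T : Set (Sym2 Pt)) (μ ν : ℤ) : Finset (Pt × Pt × Pt) :=
  (S ×ˢ S ×ˢ S).filter fun t => fx μ ν t.1 < fx μ ν t.2.1 ∧ fx μ ν t.2.1 < fx μ ν t.2.2 ∧
    (Tr S T t.1 t.2.1 t.2.2 ∨ Tr S T t.1 t.2.2 t.2.1)

theorem mem_Tp (hT : IsTriangulation S T) {x y z : Pt} :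
    (x, y, z) ∈ Tp S T μ ν ↔ fx μ ν x < fx μ ν y ∧ fx μ ν y < fx μ ν z ∧
      (Tr S T x y z ∨ Tr S T x z y) := by
  unfold Tp
  rw [Finset.mem_filter, Finset.mem_product, Finset.mem_product]
  constructor
  · exact fun h => h.2
  · intro h
    refine ⟨?_, h⟩
    rcases h.2.2 with h | h
    · exact ⟨mem_left hT h.ab, mem_left hT h.bc, mem_left hT h.ca⟩
    · exact ⟨mem_left hT h.ab, mem_left hT h.ca, mem_left hT h.bc⟩

theorem card_first (hT : IsTriangulation S T)
    (hX : ∀ p ∈ S, ∀ q ∈ S, fx μ ν p = fx μ ν q → p = q) (hμ : 0 < μ) {x : Pt} (hx : x ∈ S)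
    (hne : (Oo S T μ ν x).Nonempty) :
    ((Tp S T μ ν).filter fun t => t.1 = x).card + 1 = (Oo S T μ ν x).card := by
  classical
  obtain ⟨t, ht, htop⟩ := top_exists hT hμ hne
  rw [← Finset.card_erase_add_one ht]
  congr 1
  have ht' := (mem_Oo hT).1 ht
  refine Finset.card_bij (fun u _ => if Tr S T u.1 u.2.1 u.2.2 then u.2.1 else u.2.2) ?_ ?_ ?_
  · rintro ⟨x', y, z⟩ hu
    rw [Finset.mem_filter, mem_Tp hT] at hu
    obtain ⟨⟨h1, h2, h3⟩, rfl⟩ := hu
    rw [Finset.mem_erase, mem_Oo hT]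
    dsimp only
    split_ifs with h
    · refine ⟨?_, h.ab, h1⟩
      rintro rfl
      have hz : z ∈ Oo S T μ ν x' := (mem_Oo hT).2 ⟨by rw [Sym2.eq_swap]; exact h.ca, h1.trans h2⟩
      have hzy : z ≠ y := by rintro rfl; exact lt_irrefl _ h2
      have := htop z hz hzy
      rw [dt_swap] at this
      linarith [h.pos]
    · have h3 := h3.resolve_left h
      refine ⟨?_, h3.ab, h1.trans h2⟩
      rintro rfl
      have hz : y ∈ Oo S T μ ν x' := (mem_Oo hT).2 ⟨by rw [Sym2.eq_swap]; exact h3.ca, h1⟩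
      have hzy : y ≠ z := by rintro rfl; exact lt_irrefl _ h2
      have := htop y hz hzy
      rw [dt_swap] at this
      linarith [h3.pos]
  · rintro ⟨x₁, y₁, z₁⟩ hu₁ ⟨x₂, y₂, z₂⟩ hu₂ he
    rw [Finset.mem_filter, mem_Tp hT] at hu₁ hu₂
    obtain ⟨⟨a1, a2, a3⟩, rfl⟩ := hu₁
    obtain ⟨⟨b1, b2, b3⟩, rfl⟩ := hu₂
    dsimp only at *
    by_cases h : Tr S T x₂ y₁ z₁
    · by_cases h' : Tr S T x₂ y₂ z₂
      · rw [if_pos h, if_pos h'] at he
        subst he
        have := tri_unique hT h h'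
        subst this
        rfl
      · rw [if_pos h, if_neg h'] at he
        subst he
        have := tri_unique hT h (b3.resolve_left h')
        subst this
        exact absurd (a2.trans b2) (lt_irrefl _)
    · by_cases h' : Tr S T x₂ y₂ z₂
      · rw [if_neg h, if_pos h'] at he
        subst he
        have := tri_unique hT h' (a3.resolve_left h)
        subst this
        exact absurd (a2.trans b2) (lt_irrefl _)
      · rw [if_neg h, if_neg h'] at he
        subst he
        have := tri_unique hT (a3.resolve_left h) (b3.resolve_left h')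
        subst this
        rfl
  · intro w hw
    rw [Finset.mem_erase] at hw
    have hw' := (mem_Oo hT).1 hw.2
    have hwt := htop w hw.2 hw.1
    obtain ⟨c, hc⟩ := left_tri hT hw'.1 ⟨t, mem_right hT ht'.1, hwt⟩
    have hcS := mem_left hT hc.ca
    have hcx : fx μ ν x < fx μ ν c := by
      by_contra hcon
      push Not at hcon
      have hne' : c ≠ x := by
        rintro rfl
        have := hc.pos
        rw [dt_left] at this
        exact lt_irrefl _ this
      have hlt : fx μ ν c < fx μ ν x := lt_of_le_of_ne hcon fun h => hne' (hX c hcS x hx h)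
      refine wedge hT hc ht'.1 hwt ?_
      have e := triple μ ν x w t c
      have h1 : dt x c w = - dt x w c := by rw [dt_swap]
      rw [h1] at e
      have p1 : 0 < fx μ ν w - fx μ ν x := sub_pos.2 hw'.2
      have p2 := mul_pos (sub_pos.2 ht'.2) hc.pos
      have p3 := mul_pos (sub_pos.2 hlt) hwt
      by_contra hcon2
      push Not at hcon2
      nlinarith [mul_nonneg p1.le (neg_nonneg.2 hcon2)]
    rcases lt_or_gt_of_ne (show fx μ ν w ≠ fx μ ν c from fun h => by
      have := hX w (mem_right hT hw'.1) c hcS h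
      subst this
      have := hc.pos
      rw [dt_right] at this
      exact lt_irrefl _ this) with h | h
    · refine ⟨(x, w, c), ?_, ?_⟩
      · rw [Finset.mem_filter, mem_Tp hT]
        exact ⟨⟨hw'.2, h, Or.inl hc⟩, rfl⟩
      · dsimp only
        rw [if_pos hc]
    · refine ⟨(x, c, w), ?_, ?_⟩
      · rw [Finset.mem_filter, mem_Tp hT]
        exact ⟨⟨hcx, h, Or.inr hc⟩, rfl⟩
      · dsimp only
        rw [if_neg]
        intro h2
        have h3 := h2.pos
        rw [dt_swap] at h3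
        linarith [hc.pos]

theorem up_of_max (hX : ∀ p ∈ S, ∀ q ∈ S, fx μ ν p = fx μ ν q → p = q) {v : Pt} (hv : v ∈ S)
    (e : ℤ) (he : e = 1 ∨ e = -1) (hmax : ∀ w ∈ S, e * fx μ ν w ≤ e * fx μ ν v) (α₀ β₀ : ℤ) :
    ∃ α β : ℤ, β * μ - α * ν = β₀ * μ - α₀ * ν ∧
      ∀ s ∈ S, α * s.1 + β * s.2 ≤ α * v.1 + β * v.2 := by
  classical
  set N : ℤ := ∑ s ∈ S, |(α₀ * s.1 + β₀ * s.2) - (α₀ * v.1 + β₀ * v.2)| with hN
  refine ⟨N * e * μ + α₀, N * e * ν + β₀, by ring, fun s hs => ?_⟩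
  have h1 : |(α₀ * s.1 + β₀ * s.2) - (α₀ * v.1 + β₀ * v.2)| ≤ N := by
    rw [hN]
    exact Finset.single_le_sum (f := fun s : Pt => |(α₀ * s.1 + β₀ * s.2) - (α₀ * v.1 + β₀ * v.2)|)
      (fun s _ => abs_nonneg _) hs
  have h2 := le_abs_self ((α₀ * s.1 + β₀ * s.2) - (α₀ * v.1 + β₀ * v.2))
  have hN0 : 0 ≤ N := (abs_nonneg _).trans h1
  by_cases hsv : s = v
  · rw [hsv]
  · have h3 : e * fx μ ν s ≤ e * fx μ ν v - 1 := by
      have h4 := hmax s hs
      have h5 : e * fx μ ν s ≠ e * fx μ ν v := by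
        intro h6
        apply hsv
        refine hX s hs v hv ?_
        rcases he with rfl | rfl <;> linarith
      omega
    have h6 : N * (e * fx μ ν s) ≤ N * (e * fx μ ν v - 1) := mul_le_mul_of_nonneg_left h3 hN0
    unfold fx at h6
    nlinarith

theorem card_up (hT : IsTriangulation S T)
    (hX : ∀ p ∈ S, ∀ q ∈ S, fx μ ν p = fx μ ν q → p = q) (hμ : 0 < μ) {y : Pt} (hy : y ∈ S) :
    ((Tp S T μ ν).filter fun t => t.2.1 = y ∧ Tr S T t.1 t.2.1 t.2.2).card =
      if Up S μ ν y then 0 else 1 := by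
  classical
  by_cases hU : Up S μ ν y
  · rw [if_pos hU, Finset.card_eq_zero, Finset.filter_eq_empty_iff]
    rintro ⟨x, y', z⟩ hu ⟨h1, h2⟩
    dsimp only at h1 h2
    subst h1
    rw [mem_Tp hT] at hu
    obtain ⟨a1, a2, -⟩ := hu
    obtain ⟨α, β, hp, hs⟩ := hU
    have e := gid μ ν α β y' z x
    have h3 := hs x (mem_left hT h2.ab)
    have h4 := hs z (mem_left hT h2.ca)
    have h5 : dt y' z x = dt x y' z := by unfold dt; ring
    rw [h5] at e
    have p1 := mul_pos hp h2.pos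
    nlinarith [mul_nonneg (sub_nonneg.2 a2.le) (sub_nonneg.2 h3),
      mul_nonneg (sub_nonneg.2 a1.le) (sub_nonneg.2 h4)]
  · rw [if_neg hU, Finset.card_eq_one]
    have hmax : ∃ w ∈ S, fx μ ν y < fx μ ν w := by
      by_contra hcon
      push Not at hcon
      apply hU
      obtain ⟨α, β, h1, h2⟩ := up_of_max hX hy 1 (Or.inl rfl)
        (fun w hw => by rw [one_mul, one_mul]; exact hcon w hw) 0 1
      exact ⟨α, β, by rw [h1]; linarith, h2⟩
    obtain ⟨w₀, hw₀, hyw₀⟩ := out_exists hT hX hy hmax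
    obtain ⟨w, hw, htop⟩ := top_exists hT hμ ⟨w₀, (mem_Oo hT).2 ⟨hw₀, hyw₀⟩⟩
    have hw' := (mem_Oo hT).1 hw
    have hex : ∃ s ∈ S, 0 < dt y w s := by
      by_contra hcon
      push Not at hcon
      apply hU
      refine ⟨-(w.2 - y.2), w.1 - y.1, ?_, fun s hs => ?_⟩
      · have := hw'.2; unfold fx at this; linarith
      · have := hcon s hs; unfold dt at this; linarith
    obtain ⟨c, hc⟩ := left_tri hT hw'.1 hex
    have hcS := mem_left hT hc.ca
    have hcy : fx μ ν c < fx μ ν y := by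
      by_contra hcon
      push Not at hcon
      have hne : fx μ ν y ≠ fx μ ν c := by
        intro h
        have := hX y hy c hcS h
        subst this
        have := hc.pos
        rw [dt_left] at this
        exact lt_irrefl _ this
      have hc' : c ∈ Oo S T μ ν y :=
        (mem_Oo hT).2 ⟨by rw [Sym2.eq_swap]; exact hc.ca, lt_of_le_of_ne hcon hne⟩
      have hcw : c ≠ w := by
        rintro rfl
        have := hc.pos
        rw [dt_right] at this
        exact lt_irrefl _ this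
      have := htop c hc' hcw
      rw [dt_swap] at this
      linarith [hc.pos]
    refine ⟨(c, y, w), ?_⟩
    rw [Finset.eq_singleton_iff_unique_mem]
    constructor
    · rw [Finset.mem_filter, mem_Tp hT]
      exact ⟨⟨hcy, hw'.2, Or.inl hc.rot.rot⟩, rfl, hc.rot.rot⟩
    · rintro ⟨x, y', z⟩ hu
      rw [Finset.mem_filter, mem_Tp hT] at hu
      obtain ⟨⟨a1, a2, -⟩, h1, h2⟩ := hu
      dsimp only at h1 h2
      subst h1
      have h3 : Tr S T y' z x := h2.rot
      have hz : z ∈ Oo S T μ ν y' := (mem_Oo hT).2 ⟨h2.bc, a2⟩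
      have hzw : z = w := by
        by_contra hzw
        have h4 := htop z hz hzw
        refine wedge hT h3 hw'.1 h4 ?_
        have e := triple μ ν y' z w x
        have h5 : dt y' x z = - dt y' z x := by rw [dt_swap]
        rw [h5] at e
        have p2 := mul_pos (sub_pos.2 hw'.2) h3.pos
        have p3 := mul_pos (sub_pos.2 a1) h4
        by_contra hcon2
        push Not at hcon2
        nlinarith [mul_nonneg (sub_nonneg.2 a2.le) (neg_nonneg.2 hcon2)]
      subst hzw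
      have := tri_unique hT h3 hc
      subst this
      rfl

theorem card_lo (hT : IsTriangulation S T)
    (hX : ∀ p ∈ S, ∀ q ∈ S, fx μ ν p = fx μ ν q → p = q) (hμ : 0 < μ) {y : Pt} (hy : y ∈ S) :
    ((Tp S T μ ν).filter fun t => t.2.1 = y ∧ Tr S T t.1 t.2.2 t.2.1).card =
      if Lo S μ ν y then 0 else 1 := by
  classical
  by_cases hU : Lo S μ ν y
  · rw [if_pos hU, Finset.card_eq_zero, Finset.filter_eq_empty_iff]
    rintro ⟨x, y', z⟩ hu ⟨h1, h2⟩
    dsimp only at h1 h2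
    subst h1
    rw [mem_Tp hT] at hu
    obtain ⟨a1, a2, -⟩ := hu
    obtain ⟨α, β, hp, hs⟩ := hU
    have e := gid μ ν α β y' z x
    have h3 := hs x (mem_left hT h2.ab)
    have h4 := hs z (mem_left hT h2.bc)
    have h5 : dt y' z x = - dt x z y' := by unfold dt; ring
    rw [h5] at e
    have p1 := mul_pos (neg_pos.2 hp) h2.pos
    nlinarith [mul_nonneg (sub_nonneg.2 a2.le) (sub_nonneg.2 h3),
      mul_nonneg (sub_nonneg.2 a1.le) (sub_nonneg.2 h4)]
  · rw [if_neg hU, Finset.card_eq_one]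
    have hmax : ∃ w ∈ S, fx μ ν y < fx μ ν w := by
      by_contra hcon
      push Not at hcon
      apply hU
      obtain ⟨α, β, h1, h2⟩ := up_of_max hX hy 1 (Or.inl rfl)
        (fun w hw => by rw [one_mul, one_mul]; exact hcon w hw) 0 (-1)
      exact ⟨α, β, by rw [h1]; linarith, h2⟩
    obtain ⟨w₀, hw₀, hyw₀⟩ := out_exists hT hX hy hmax
    obtain ⟨w, hw, hbot⟩ := bot_exists hT hμ ⟨w₀, (mem_Oo hT).2 ⟨hw₀, hyw₀⟩⟩
    have hw' := (mem_Oo hT).1 hw
    have hex : ∃ s ∈ S, 0 < dt w y s := by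
      by_contra hcon
      push Not at hcon
      apply hU
      refine ⟨w.2 - y.2, -(w.1 - y.1), ?_, fun s hs => ?_⟩
      · have := hw'.2; unfold fx at this; linarith
      · have := hcon s hs; unfold dt at this; linarith
    have hwy : s(w, y) ∈ T := by rw [Sym2.eq_swap]; exact hw'.1
    obtain ⟨c, hc⟩ := left_tri hT hwy hex
    have hcS := mem_left hT hc.ca
    have hcy : fx μ ν c < fx μ ν y := by
      by_contra hcon
      push Not at hcon
      have hne : fx μ ν y ≠ fx μ ν c := by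
        intro h
        have := hX y hy c hcS h
        subst this
        have := hc.pos
        rw [dt_right] at this
        exact lt_irrefl _ this
      have hc' : c ∈ Oo S T μ ν y := (mem_Oo hT).2 ⟨hc.bc, lt_of_le_of_ne hcon hne⟩
      have hcw : c ≠ w := by
        rintro rfl
        have := hc.pos
        rw [dt_left] at this
        exact lt_irrefl _ this
      have := hbot c hc' hcw
      have h1 := hc.pos
      rw [dt_swap'] at h1
      linarith
    refine ⟨(c, y, w), ?_⟩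
    rw [Finset.eq_singleton_iff_unique_mem]
    constructor
    · rw [Finset.mem_filter, mem_Tp hT]
      exact ⟨⟨hcy, hw'.2, Or.inr hc.rot.rot⟩, rfl, hc.rot.rot⟩
    · rintro ⟨x, y', z⟩ hu
      rw [Finset.mem_filter, mem_Tp hT] at hu
      obtain ⟨⟨a1, a2, -⟩, h1, h2⟩ := hu
      dsimp only at h1 h2
      subst h1
      have h3 : Tr S T y' x z := h2.rot.rot
      have hz : z ∈ Oo S T μ ν y' := (mem_Oo hT).2 ⟨by rw [Sym2.eq_swap]; exact h2.bc, a2⟩
      have hzw : z = w := by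
        by_contra hzw
        have h4 := hbot z hz hzw
        refine wedge hT h3 hw'.1 ?_ h4
        have e := triple μ ν y' x w z
        have h5 : dt y' z x = - dt y' x z := by rw [dt_swap]
        rw [h5] at e
        have p2 := mul_pos (sub_pos.2 hw'.2) h3.pos
        have p3 := mul_pos (sub_pos.2 a1) h4
        by_contra hcon2
        push Not at hcon2
        nlinarith [mul_nonneg (sub_nonneg.2 a2.le) (neg_nonneg.2 hcon2)]
      subst hzw
      have := tri_unique hT (show Tr S T z y' x from h2.rot) hc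
      subst this
      rfl

end

end Pool.Agent.Y605.ST
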