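import Pool.Agent.Y605.ST.Basic

/-!
# No edge passes through the interior of a triangle
-/

set_option autoImplicit false

namespace Pool.Agent.Y605.ST

open Pool.Agent.W982.TA

/-- the determinant with a real point -/
def dr (a b : Pt) (w : ℝ × ℝ) : ℝ :=
  ((b.1 : ℝ) - a.1) * (w.2 - a.2) - ((b.2 : ℝ) - a.2) * (w.1 - a.1)

theorem dr_emb (a b c : Pt) : dr a b (emb c) = (dt a b c : ℝ) := by
  unfold dr dt emb; push_cast; ring

theorem dr_aff (a b : Pt) (z w : ℝ × ℝ) (t : ℝ) :
    dr a b ((1 - t) * z.1 + t * w.1, (1 - t) * z.2 + t * w.2) = (1 - t) * dr a b z + t * dr a b w := by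
  unfold dr; ring

theorem dr_oseg {a b : Pt} {z : ℝ × ℝ} (hz : z ∈ oseg a b) : dr a b z = 0 := by
  obtain ⟨t, h0, h1, e1, e2⟩ := G4aux.mem_seg hz
  simp only [emb] at e1 e2
  unfold dr
  rw [e1, e2]; ring

section
variable {S : Finset Pt} {T : Set (Sym2 Pt)}

theorem eq_of_meet (hT : IsTriangulation S T) {a b c d : Pt} (h1 : s(a, b) ∈ T) (h2 : s(c, d) ∈ T)
    {z : ℝ × ℝ} (hz : z ∈ oseg a b) (hz' : z ∈ oseg c d) : s(a, b) = s(c, d) := by
  by_contra hne
  exact Set.disjoint_left.1 (hT.noncross a b c d h1 h2 hne) hz hz'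

theorem exit_side (hT : IsTriangulation S T) {a b c d u : Pt} (ht : Tr S T a b c)
    (hdu : s(d, u) ∈ T) {z : ℝ × ℝ} (hz : z ∈ oseg d u) (h1 : 0 < dr a b z) (h2 : 0 < dr b c z)
    (h3 : 0 < dr c a z) (hu : dr a b (emb u) < 0)
    (m2 : dr b c z * dr a b (emb u) ≤ dr a b z * dr b c (emb u))
    (m3 : dr c a z * dr a b (emb u) ≤ dr a b z * dr c a (emb u)) : False := by
  have hden : 0 < dr a b z - dr a b (emb u) := by linarith
  set t := dr a b z / (dr a b z - dr a b (emb u)) with htd
  have t0 : 0 < t := div_pos h1 hden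
  have t1 : t < 1 := (div_lt_one hden).2 (by linarith)
  have htm : t * (dr a b z - dr a b (emb u)) = dr a b z := div_mul_cancel₀ _ hden.ne'
  set w : ℝ × ℝ := ((1 - t) * z.1 + t * (emb u).1, (1 - t) * z.2 + t * (emb u).2) with hw
  have w1 : dr a b w = 0 := by
    rw [hw, dr_aff]; linarith
  have w2 : 0 ≤ dr b c w := by
    rw [hw, dr_aff]
    have e : ((1 - t) * dr b c z + t * dr b c (emb u)) * (dr a b z - dr a b (emb u)) =
        dr a b z * dr b c (emb u) - dr b c z * dr a b (emb u) := by
      linear_combination (dr b c (emb u) - dr b c z) * htm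
    by_contra hcon
    push Not at hcon
    have := mul_neg_of_neg_of_pos hcon hden
    rw [e] at this
    linarith
  have w3 : 0 ≤ dr c a w := by
    rw [hw, dr_aff]
    have e : ((1 - t) * dr c a z + t * dr c a (emb u)) * (dr a b z - dr a b (emb u)) =
        dr a b z * dr c a (emb u) - dr c a z * dr a b (emb u) := by
      linear_combination (dr c a (emb u) - dr c a z) * htm
    by_contra hcon
    push Not at hcon
    have := mul_neg_of_neg_of_pos hcon hden
    rw [e] at this
    linarith
  have hwdu : w ∈ oseg d u := by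
    obtain ⟨s, s0, s1, e1, e2⟩ := G4aux.mem_seg hz
    refine G4aux.seg_mem (1 - (1 - t) * (1 - s)) ?_ ?_ ?_ ?_
    · nlinarith
    · nlinarith
    · rw [hw]; simp only; rw [e1]; ring
    · rw [hw]; simp only; rw [e2]; ring
  have hD : (0 : ℝ) < (dt a b c : ℝ) := by exact_mod_cast ht.pos
  have hsum : dr b c w + dr c a w = (dt a b c : ℝ) := by
    have : dr a b w + dr b c w + dr c a w = (dt a b c : ℝ) := by
      unfold dr dt; push_cast; ring
    linarith
  have b1 : (dt a b c : ℝ) * w.1 = dr b c w * a.1 + dr c a w * b.1 + dr a b w * c.1 := by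
    unfold dr dt; push_cast; ring
  have b2 : (dt a b c : ℝ) * w.2 = dr b c w * a.2 + dr c a w * b.2 + dr a b w * c.2 := by
    unfold dr dt; push_cast; ring
  rw [w1, zero_mul, add_zero] at b1 b2
  have haS := mem_left hT ht.ab
  have hbS := mem_right hT ht.ab
  rcases w2.eq_or_lt with h4 | h4
  · refine (hT.seg _ _ hdu).2.2.2 b hbS ?_
    rw [← h4] at b1 b2 hsum
    have e : emb b = w := by
      rw [zero_add] at hsum
      rw [hsum, zero_mul, zero_add] at b1 b2
      exact Prod.ext (mul_left_cancel₀ hD.ne' b1).symm (mul_left_cancel₀ hD.ne' b2).symm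
    rw [e]; exact hwdu
  · rcases w3.eq_or_lt with h5 | h5
    · refine (hT.seg _ _ hdu).2.2.2 a haS ?_
      rw [← h5] at b1 b2 hsum
      have e : emb a = w := by
        rw [add_zero] at hsum
        rw [hsum, zero_mul, add_zero] at b1 b2
        exact Prod.ext (mul_left_cancel₀ hD.ne' b1).symm (mul_left_cancel₀ hD.ne' b2).symm
      rw [e]; exact hwdu
    · have hwab : w ∈ oseg a b := by
        refine G4aux.seg_mem (dr c a w / dt a b c) (div_pos h5 hD)
          ((div_lt_one hD).2 (by linarith)) ?_ ?_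
        · show w.1 = (1 - dr c a w / dt a b c) * (a.1 : ℝ) + dr c a w / dt a b c * (b.1 : ℝ)
          field_simp
          rw [mul_comm, b1]
          linear_combination (a.1 : ℝ) * hsum
        · show w.2 = (1 - dr c a w / dt a b c) * (a.2 : ℝ) + dr c a w / dt a b c * (b.2 : ℝ)
          field_simp
          rw [mul_comm, b2]
          linear_combination (a.2 : ℝ) * hsum
      have he := eq_of_meet hT hdu ht.ab hwdu hwab
      rw [g5_oseg_congr he] at hz
      rw [dr_oseg hz] at h1
      exact lt_irrefl _ h1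

theorem exit_vertex (hT : IsTriangulation S T) {a b c d u : Pt} (ht : Tr S T a b c)
    (hdu : s(d, u) ∈ T) {z : ℝ × ℝ} (hz : z ∈ oseg d u) (h1 : 0 < dr a b z) (h2 : 0 < dr b c z)
    (h3 : 0 < dr c a z) : u = a ∨ u = b ∨ u = c := by
  by_contra hn
  have hni : ¬ InTri a b c u := fun hi => hn (ht.emp u (mem_right hT hdu) hi)
  have hneg : dr a b (emb u) < 0 ∨ dr b c (emb u) < 0 ∨ dr c a (emb u) < 0 := by
    by_contra hcon
    push Not at hcon
    apply hni
    rw [dr_emb, dr_emb, dr_emb] at hcon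
    exact ⟨by exact_mod_cast hcon.1, by exact_mod_cast hcon.2.1, by exact_mod_cast hcon.2.2⟩
  set z1 := dr a b z
  set z2 := dr b c z
  set z3 := dr c a z
  set u1 := dr a b (emb u)
  set u2 := dr b c (emb u)
  set u3 := dr c a (emb u)
  have cmp : ∀ {x y p q : ℝ}, 0 < x → 0 < y → p / x ≤ q / y → y * p ≤ x * q := by
    intro x y p q hx hy h
    rw [div_le_div_iff₀ hx hy] at h
    linarith
  have neg : ∀ {x y p q : ℝ}, 0 < x → 0 < y → p / x ≤ q / y → q < 0 → p < 0 := by
    intro x y p q hx hy h hq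
    have h1 : q / y < 0 := div_neg_of_neg_of_pos hq hy
    have h2 : p / x < 0 := lt_of_le_of_lt h h1
    by_contra hcon
    push Not at hcon
    exact absurd (div_nonneg hcon hx.le) (not_le.2 h2)
  rcases le_total (u1 / z1) (u2 / z2) with c12 | c12
  · rcases le_total (u1 / z1) (u3 / z3) with c13 | c13
    · have hu : u1 < 0 := by
        rcases hneg with h | h | h
        · exact h
        · exact neg h1 h2 c12 h
        · exact neg h1 h3 c13 h
      exact exit_side hT ht hdu hz h1 h2 h3 hu (cmp h1 h2 c12) (cmp h1 h3 c13)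
    · have c32 : u3 / z3 ≤ u2 / z2 := c13.trans c12
      have hu : u3 < 0 := by
        rcases hneg with h | h | h
        · exact neg h3 h1 c13 h
        · exact neg h3 h2 c32 h
        · exact h
      exact exit_side hT ht.rot.rot hdu hz h3 h1 h2 hu (cmp h3 h1 c13) (cmp h3 h2 c32)
  · rcases le_total (u2 / z2) (u3 / z3) with c23 | c23
    · have hu : u2 < 0 := by
        rcases hneg with h | h | h
        · exact neg h2 h1 c12 h
        · exact h
        · exact neg h2 h3 c23 h
      exact exit_side hT ht.rot hdu hz h2 h3 h1 hu (cmp h2 h3 c23) (cmp h2 h1 c12)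
    · have c31 : u3 / z3 ≤ u1 / z1 := c23.trans c12
      have hu : u3 < 0 := by
        rcases hneg with h | h | h
        · exact neg h3 h1 c31 h
        · exact neg h3 h2 c23 h
        · exact h
      exact exit_side hT ht.rot.rot hdu hz h3 h1 h2 hu (cmp h3 h1 c31) (cmp h3 h2 c23)

/-- no edge passes through an interior point of a triangle -/
theorem tri_lemma (hT : IsTriangulation S T) {a b c d u : Pt} (ht : Tr S T a b c)
    (hdu : s(d, u) ∈ T) {z : ℝ × ℝ} (hz : z ∈ oseg d u) (h1 : 0 < dr a b z) (h2 : 0 < dr b c z)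
    (h3 : 0 < dr c a z) : False := by
  have hu := exit_vertex hT ht hdu hz h1 h2 h3
  have hud : s(u, d) ∈ T := by rw [Sym2.eq_swap]; exact hdu
  have hz' : z ∈ oseg u d := by rw [g5_oseg_symm]; exact hz
  have hd := exit_vertex hT ht hud hz' h1 h2 h3
  have hne := (hT.seg _ _ hdu).2.2.1
  rcases hu with rfl | rfl | rfl <;> rcases hd with rfl | rfl | rfl
  · exact hne rfl
  · rw [dr_oseg hz'] at h1; exact lt_irrefl _ h1
  · rw [dr_oseg hz] at h3; exact lt_irrefl _ h3
  · rw [dr_oseg hz] at h1; exact lt_irrefl _ h1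
  · exact hne rfl
  · rw [dr_oseg hz'] at h2; exact lt_irrefl _ h2
  · rw [dr_oseg hz'] at h3; exact lt_irrefl _ h3
  · rw [dr_oseg hz] at h2; exact lt_irrefl _ h2
  · exact hne rfl

end

end Pool.Agent.Y605.ST
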