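import Pool.Agent.Y605.ST.Edges
import Pool.Agent.Y605.ST.TriL

/-!
# The prescribed edges extend to a triangulation
-/

set_option autoImplicit false

namespace Pool.Agent.Y605.ST

open Pool.Agent.W982.TA

open scoped Classical

section
variable {C : Cfg} {φ : ℤ × ℤ → Prop}

theorem on_row (h : C.OK) {p : Pt} (hp : C.In p) {y : ℤ} (hy : p.2 = C.K * y) :
    ∃ x, C.Lat (x, y) ∧ p = (C.K * x, C.K * y) := by
  have hK := Cfg.K_pos h
  have hσ := h.σpos
  rcases hp with ⟨x, y', hL, rfl⟩ | ⟨j, i, l, hj, h1, h2, h3, h4, rfl⟩ | ⟨j, i, l, hj, h1, h2, h3, h4, rfl⟩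
  · dsimp only at hy
    have := mul_inj hK hy
    subst this
    exact ⟨x, hL, rfl⟩
  · exfalso
    dsimp only at hy
    unfold Cfg.K at hy
    have e : C.σ * (2 * j + 1) = C.σ * (2 * y) := by linarith
    have := mul_inj (by linarith) e
    omega
  · exfalso
    dsimp only at hy
    have hK2 : C.K = 2 * C.σ := rfl
    have e1 : C.K * i < C.K * y := by linarith
    have e2 : C.K * y < C.K * (i + 1) := by
      have : C.K * (i + 1) = C.K * i + C.K := by ring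
      rw [this, ← hy]
      linarith
    have e3 := (Klt h).1 e1
    have e4 := (Klt h).1 e2
    omega

theorem seg_EL (h : C.OK) {p q : Pt} (he : s(p, q) ∈ EL C φ) : IsSeg C.P p q := by
  obtain ⟨x₁, x₂, y, h1, h2⟩ := he
  refine g5_isSeg_congr h2.symm ?_
  have hlt := HE_lt h1
  have hlt' : C.K * x₁ < C.K * x₂ := (Klt h).2 hlt
  have hend : C.Lat (x₁, y) ∧ C.Lat (x₂, y) := by
    rcases h1 with ⟨-, h3, h4⟩ | ⟨h3, h4, -⟩
    · exact ⟨h3, h4⟩
    · have a1 := Cfg.lat_near h h4 (-1) 0 (by norm_num) (by norm_num) (by norm_num) (by norm_num)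
        (Or.inl (by norm_num))
      have a2 := Cfg.lat_near h h4 1 0 (by norm_num) (by norm_num) (by norm_num) (by norm_num)
        (Or.inl (by norm_num))
      have e1 : x₁ + 1 + -1 = x₁ := by ring
      have e2 : y + 0 = y := by ring
      have e3 : x₁ + 1 + 1 = x₂ := by rw [h3]; ring
      rw [e1, e2] at a1
      rw [e3, e2] at a2
      exact ⟨a1, a2⟩
  refine ⟨Cfg.mem_lat h hend.1, Cfg.mem_lat h hend.2, ?_, ?_⟩
  · intro he
    rw [Prod.mk.injEq] at he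
    linarith [he.1]
  · intro r hr hm
    rw [mem_hor hlt'] at hm
    obtain ⟨a1, a2, a3⟩ := hm
    have a3' : r.2 = C.K * y := by
      have : ((r.2 : ℤ) : ℝ) = ((C.K * y : ℤ) : ℝ) := a3
      exact_mod_cast this
    obtain ⟨x, hL, rfl⟩ := on_row h ((Cfg.mem_P h).1 hr) a3'
    have b1 : x₁ < x := (KltR h).1 a1
    have b2 : x < x₂ := (KltR h).1 a2
    rcases h1 with ⟨h3, -, -⟩ | ⟨h3, h4, -⟩
    · omega
    · have : x = x₁ + 1 := by omega
      subst this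
      exact hL.2.2.2 h4

theorem ruler_cell (h : C.OK) {i j l : ℤ} (hl1 : 1 ≤ l) (hl : l < C.σ) :
    ((C.K * i : ℤ) : ℝ) < ((C.K * i + 2 * l : ℤ) : ℝ) ∧
      ((C.K * i + 2 * l : ℤ) : ℝ) < ((C.K * (i + 1) : ℤ) : ℝ) ∧
      ((C.K * j : ℤ) : ℝ) < ((C.K * j + C.σ : ℤ) : ℝ) ∧
      ((C.K * j + C.σ : ℤ) : ℝ) < ((C.K * (j + 1) : ℤ) : ℝ) := by
  have hσ := h.σpos
  have hK2 : C.K = 2 * C.σ := rfl
  have e1 : C.K * (i + 1) = C.K * i + C.K := by ring
  have e2 : C.K * (j + 1) = C.K * j + C.K := by ring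
  refine ⟨?_, ?_, ?_, ?_⟩ <;> rw [Int.cast_lt] <;> linarith

theorem seg_ER (h : C.OK) {p q : Pt} (he : s(p, q) ∈ ER C) : IsSeg C.P p q := by
  have he0 := he
  obtain ⟨j, i, l, h1, h2, h3, h4, h5, h6⟩ := he
  have hj := h.Hbox j h1
  have hσ := h.σpos
  have hr := h.rpos
  have ha := h.apos
  have hq1 : ((C.K * i + 2 * l, C.K * j + C.σ) : Pt) ∈ C.P :=
    (Cfg.mem_P h).2 (Or.inr (Or.inl ⟨j, i, l, h1, h2, h3, h4, h5, rfl⟩))
  have hend : p ∈ C.P ∧ q ∈ C.P ∧ p ≠ q := by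
    have gen : ∀ a b : Pt, s(p, q) = s(a, b) → a ∈ C.P → b ∈ C.P → a ≠ b →
        p ∈ C.P ∧ q ∈ C.P ∧ p ≠ q := by
      intro a b he ha hb hne
      rcases Sym2.eq_iff.1 he with ⟨rfl, rfl⟩ | ⟨rfl, rfl⟩
      · exact ⟨ha, hb, hne⟩
      · exact ⟨hb, ha, hne.symm⟩
    rcases h6 with h6 | h6 | ⟨h7, h6⟩
    · refine gen _ _ h6 (Cfg.mem_lat h (Cfg.lat_bd h (by linarith) (by linarith) (by linarith)
        (by linarith) (Or.inr (Or.inl (by linarith))))) hq1 ?_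
      intro e
      rw [Prod.mk.injEq] at e
      linarith [e.1]
    · refine gen _ _ h6 (Cfg.mem_lat h (Cfg.lat_bd h (by linarith) (by linarith) (by linarith)
        (by linarith) (Or.inr (Or.inl (by linarith))))) hq1 ?_
      intro e
      rw [Prod.mk.injEq] at e
      linarith [e.1]
    · refine gen _ _ h6 hq1 ((Cfg.mem_P h).2 (Or.inr (Or.inl ⟨j, i, l + 1, h1, h2, h3, by linarith,
        h7, by rw [Prod.mk.injEq]; exact ⟨by ring, rfl⟩⟩))) ?_
      intro e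
      rw [Prod.mk.injEq] at e
      linarith [e.1]
  refine ⟨hend.1, hend.2.1, hend.2.2, ?_⟩
  intro w hw hm
  obtain ⟨j, i, l, a1, a2, a3, a4, a5, a6, a7, a8, a9, a10⟩ := loc_ER h he0 hm
  have hj := h.Hbox j a1
  rcases (Cfg.mem_P h).1 hw with ⟨x, y, hL, rfl⟩ | ⟨j', i', l', b1, b2, b3, b4, b5, rfl⟩ |
    ⟨j', i', l', b1, b2, b3, b4, b5, rfl⟩
  · exact no_line h a6 a7 rfl
  · obtain ⟨c1, c2, c3, c4⟩ := ruler_cell h (i := i') (j := j') b4 b5
    have e1 := cell_eq h a6 a7 c1 c2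
    have e2 := cell_eq h a8 a9 c3 c4
    subst e1; subst e2
    rcases a10 with ⟨d1, d2, d3⟩ | ⟨d1, d2, d3⟩ | ⟨d1, d2, d3, d4⟩
    · exact lt_irrefl _ d2
    · exact lt_irrefl _ d2
    · have g1 : C.K * i + 2 * l < C.K * i + 2 * l' := by
        have : ((C.K * i + 2 * l : ℤ) : ℝ) < ((C.K * i + 2 * l' : ℤ) : ℝ) := d3
        exact_mod_cast this
      have g2 : C.K * i + 2 * l' < C.K * i + 2 * l + 2 := by
        have : ((C.K * i + 2 * l' : ℤ) : ℝ) < ((C.K * i + 2 * l + 2 : ℤ) : ℝ) := d4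
        exact_mod_cast this
      omega
  · obtain ⟨c1, c2, c3, c4⟩ := ruler_cell h (i := i') (j := j') b4 b5
    have e1 := cell_eq h a6 a7 c3 c4
    have := h.Vbox _ b1
    omega

theorem seg_EK (h : C.OK) {p q : Pt} (he : s(p, q) ∈ EK C) : IsSeg C.P p q := by
  have he0 := he
  obtain ⟨x, y, s, t, h1, h2, h3, h4⟩ := he
  have hK := Cfg.K_pos h
  have a1 : C.Lat (x + s, y) := by
    have := Cfg.lat_near h h1 s 0 (by omega) (by omega) (by norm_num) (by norm_num)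
        (Or.inl (by omega))
    rwa [add_zero] at this
  have a2 : C.Lat (x, y + t) := by
    have := Cfg.lat_near h h1 0 t (by norm_num) (by norm_num) (by omega) (by omega)
        (Or.inr (by omega))
    rwa [add_zero] at this
  refine g5_isSeg_congr h4.symm ?_
  refine ⟨Cfg.mem_lat h a1, Cfg.mem_lat h a2, ?_, ?_⟩
  · intro e
    rw [Prod.mk.injEq] at e
    have := mul_inj hK e.1
    omega
  · intro w hw hm
    rw [← g5_oseg_congr h4] at hm
    obtain ⟨x', y', s', t', i', j', b1, b2, b3, b4, b5, b6, b7, b8, b9, b10⟩ := loc_EK h he0 hm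
    have hb := h.Mbox _ b1
    dsimp only at hb
    rcases (Cfg.mem_P h).1 hw with ⟨x, y, hL, rfl⟩ | ⟨j, i, l, c1, c2, c3, c4, c5, rfl⟩ |
      ⟨j, i, l, c1, c2, c3, c4, c5, rfl⟩
    · exact no_line h b7 b8 rfl
    · obtain ⟨d1, d2, d3, d4⟩ := ruler_cell h (i := i) (j := j) c4 c5
      have e1 := cell_eq h b7 b8 d1 d2
      omega
    · obtain ⟨d1, d2, d3, d4⟩ := ruler_cell h (i := i) (j := j) c4 c5
      have e1 := cell_eq h b9 b10 d1 d2
      omega

theorem seg_sw (h : C.OK) {p q : Pt} (hs : IsSeg C.sw.P (sw p) (sw q)) : IsSeg C.P p q := by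
  rw [Cfg.P_sw h, isSeg_sw_iff] at hs
  exact hs

theorem seg_E0 (h : C.OK) {p q : Pt} (he : s(p, q) ∈ E0 C φ) : IsSeg C.P p q := by
  rcases he with ((he | he) | he) | (he | he)
  · exact seg_EL h he
  · exact seg_ER h he
  · exact seg_EK h he
  · exact seg_sw h (seg_EL (Cfg.sw_OK h) (mem_swS.1 he))
  · exact seg_sw h (seg_ER (Cfg.sw_OK h) (mem_swS.1 he))

theorem exists_T (h : C.OK) (φ : ℤ × ℤ → Prop) : ∃ T, IsTriangulation C.P T ∧ E0 C φ ⊆ T := by
  refine g5 C.P (E0 C φ) (fun p q he => seg_E0 h he) ?_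
  intro p q p' q' h1 h2 hne
  rw [Set.disjoint_left]
  intro z hz hz'
  exact hne (dj_E0 h p q p' q' z h1 h2 hz hz')

theorem nsw_nsw (φ : ℤ × ℤ → Prop) : nsw (nsw φ) = φ := by
  funext p
  unfold nsw
  rw [Prod.swap_swap, not_not]

theorem map_sw_sw (e : Sym2 Pt) : (e.map sw).map sw = e := by
  induction e with
  | _ p q => rfl

theorem EK_sw {e : Sym2 Pt} (he : e ∈ EK C.sw) : e.map sw ∈ EK C := by
  obtain ⟨x, y, s, t, h1, h2, h3, rfl⟩ := he
  refine ⟨y, x, t, s, Cfg.mem_sw.1 h1, h3, h2, ?_⟩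
  rw [Sym2.map_mk, Sym2.eq_swap]
  rfl

/-- the prescribed edges of the reflected data -/
theorem E0_sw {T : Set (Sym2 Pt)} (hE : E0 C φ ⊆ T) : E0 C.sw (nsw φ) ⊆ swS T := by
  rintro e (((he | he) | he) | (he | he))
  · exact hE (Or.inr (Or.inl (by unfold swS; rw [Set.mem_setOf_eq, map_sw_sw]; exact he)))
  · exact hE (Or.inr (Or.inr (by unfold swS; rw [Set.mem_setOf_eq, map_sw_sw]; exact he)))
  · exact hE (Or.inl (Or.inr (EK_sw he)))
  · rw [Cfg.sw_sw, nsw_nsw] at he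
    exact hE (Or.inl (Or.inl (Or.inl he)))
  · rw [Cfg.sw_sw] at he
    exact hE (Or.inl (Or.inl (Or.inr he)))

theorem longH_mem {x y : ℤ} (h1 : (x, y) ∈ C.M) (h2 : φ (x, y)) : longH C (x, y) ∈ E0 C φ := by
  refine Or.inl (Or.inl (Or.inl ⟨x - 1, x + 1, y, Or.inr ⟨by ring, ?_, ?_⟩, rfl⟩))
  · rw [sub_add_cancel]; exact h1
  · rw [sub_add_cancel]; exact h2

theorem longV_mem {x y : ℤ} (h1 : (x, y) ∈ C.M) (h2 : ¬ φ (x, y)) : longV C (x, y) ∈ E0 C φ := by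
  refine Or.inr (Or.inl ⟨y - 1, y + 1, x, Or.inr ⟨by ring, ?_, ?_⟩, ?_⟩)
  · rw [sub_add_cancel]; exact Cfg.mem_sw.2 h1
  · rw [sub_add_cancel]; exact h2
  · rfl

theorem unit_mem {x y : ℤ} (h1 : C.Lat (x, y)) (h2 : C.Lat (x + 1, y)) :
    s((C.K * x, C.K * y), (C.K * (x + 1), C.K * y)) ∈ E0 C φ :=
  Or.inl (Or.inl (Or.inl ⟨x, x + 1, y, Or.inl ⟨rfl, h1, h2⟩, rfl⟩))

theorem kite_mem {x y : ℤ} (h1 : (x, y) ∈ C.M) (s t : ℤ) (hs : s = 1 ∨ s = -1)
    (ht : t = 1 ∨ t = -1) :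
    s((C.K * (x + s), C.K * y), (C.K * x, C.K * (y + t))) ∈ E0 C φ :=
  Or.inl (Or.inr ⟨x, y, s, t, h1, hs, ht, rfl⟩)

/-- the points near a missing point -/
theorem kite_pts (h : C.OK) {x y : ℤ} (h1 : (x, y) ∈ C.M) {p : Pt} (hp : C.In p)
    (hx : C.K * (x - 1) ≤ p.1) (hx' : p.1 ≤ C.K * (x + 1)) (hy : C.K * (y - 1) ≤ p.2)
    (hy' : p.2 ≤ C.K * (y + 1)) : ∃ x' y', C.Lat (x', y') ∧ p = (C.K * x', C.K * y') := by
  have hb := h.Mbox _ h1
  dsimp only at hb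
  rcases hp with ⟨x', y', hL, rfl⟩ | ⟨j, i, l, c1, c2, c3, c4, c5, rfl⟩ |
      ⟨j, i, l, c1, c2, c3, c4, c5, rfl⟩
  · exact ⟨x', y', hL, rfl⟩
  · exfalso
    dsimp only at hx'
    have : C.K * (x + 1) ≤ C.K * i := (Kle h).2 (by linarith)
    linarith
  · exfalso
    dsimp only at hy'
    have : C.K * (y + 1) ≤ C.K * i := (Kle h).2 (by linarith)
    linarith

/-- the right half of a kite -/
theorem kite_right (h : C.OK) {T : Set (Sym2 Pt)} (hE : E0 C φ ⊆ T) {x y : ℤ}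
    (h1 : (x, y) ∈ C.M) (h2 : ¬ φ (x, y)) :
    Tr C.P T (C.K * x, C.K * (y - 1)) (C.K * (x + 1), C.K * y) (C.K * x, C.K * (y + 1)) := by
  have hK := Cfg.K_pos h
  have hKK := mul_pos hK hK
  refine ⟨?_, ?_, ?_, ?_, ?_⟩
  · unfold dt; dsimp only
    have : (C.K * (x + 1) - C.K * x) * (C.K * (y + 1) - C.K * (y - 1)) -
        (C.K * y - C.K * (y - 1)) * (C.K * x - C.K * x) = 2 * (C.K * C.K) := by ring
    rw [this]; linarith
  · rw [Sym2.eq_swap]
    exact hE (kite_mem h1 1 (-1) (Or.inl rfl) (Or.inr rfl))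
  · exact hE (kite_mem h1 1 1 (Or.inl rfl) (Or.inl rfl))
  · rw [Sym2.eq_swap]
    exact hE (longV_mem h1 h2)
  · rintro r hr ⟨g1, g2, g3⟩
    unfold dt at g1 g2 g3
    dsimp only at g1 g2 g3
    have k1 : 0 ≤ (r.2 - C.K * (y - 1)) - (r.1 - C.K * x) := by
      by_contra hcon
      push Not at hcon
      have := mul_neg_of_pos_of_neg hK hcon
      linarith
    have k2 : 0 ≤ C.K * (x + 1 + y) - (r.1 + r.2) := by
      by_contra hcon
      push Not at hcon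
      have := mul_neg_of_pos_of_neg hK hcon
      linarith
    have k3 : 0 ≤ r.1 - C.K * x := by
      by_contra hcon
      push Not at hcon
      have := mul_neg_of_pos_of_neg hK hcon
      linarith
    obtain ⟨x', y', hL, rfl⟩ := kite_pts h h1 ((Cfg.mem_P h).1 hr) (by linarith) (by linarith)
      (by linarith) (by linarith)
    dsimp only at k1 k2 k3
    have m1 : x ≤ x' := (Kle h).1 (by linarith)
    have m2 : x' - y' ≤ x - y + 1 := (Kle h).1 (by linarith)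
    have m3 : x' + y' ≤ x + y + 1 := (Kle h).1 (by linarith)
    have m4 : (x' = x ∧ y' = y - 1) ∨ (x' = x + 1 ∧ y' = y) ∨ (x' = x ∧ y' = y + 1) ∨
        (x' = x ∧ y' = y) := by omega
    rcases m4 with ⟨rfl, rfl⟩ | ⟨rfl, rfl⟩ | ⟨rfl, rfl⟩ | ⟨rfl, rfl⟩
    · exact Or.inl rfl
    · exact Or.inr (Or.inl rfl)
    · exact Or.inr (Or.inr rfl)
    · exact absurd h1 hL.2.2.2

/-- the left half of a kite -/
theorem kite_left (h : C.OK) {T : Set (Sym2 Pt)} (hE : E0 C φ ⊆ T) {x y : ℤ}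
    (h1 : (x, y) ∈ C.M) (h2 : ¬ φ (x, y)) :
    Tr C.P T (C.K * x, C.K * (y + 1)) (C.K * (x - 1), C.K * y) (C.K * x, C.K * (y - 1)) := by
  have hK := Cfg.K_pos h
  have hKK := mul_pos hK hK
  refine ⟨?_, ?_, ?_, ?_, ?_⟩
  · unfold dt; dsimp only
    have : (C.K * (x - 1) - C.K * x) * (C.K * (y - 1) - C.K * (y + 1)) -
        (C.K * y - C.K * (y + 1)) * (C.K * x - C.K * x) = 2 * (C.K * C.K) := by ring
    rw [this]; linarith
  · rw [Sym2.eq_swap]
    exact hE (kite_mem h1 (-1) 1 (Or.inr rfl) (Or.inl rfl))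
  · exact hE (kite_mem h1 (-1) (-1) (Or.inr rfl) (Or.inr rfl))
  · exact hE (longV_mem h1 h2)
  · rintro r hr ⟨g1, g2, g3⟩
    unfold dt at g1 g2 g3
    dsimp only at g1 g2 g3
    have k1 : 0 ≤ (r.1 - C.K * x) - (r.2 - C.K * (y + 1)) := by
      by_contra hcon
      push Not at hcon
      have := mul_neg_of_pos_of_neg hK hcon
      linarith
    have k2 : 0 ≤ (r.1 + r.2) - C.K * (x - 1 + y) := by
      by_contra hcon
      push Not at hcon
      have := mul_neg_of_pos_of_neg hK hcon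
      linarith
    have k3 : 0 ≤ C.K * x - r.1 := by
      by_contra hcon
      push Not at hcon
      have := mul_neg_of_pos_of_neg hK hcon
      linarith
    obtain ⟨x', y', hL, rfl⟩ := kite_pts h h1 ((Cfg.mem_P h).1 hr) (by linarith) (by linarith)
      (by linarith) (by linarith)
    dsimp only at k1 k2 k3
    have m1 : x' ≤ x := (Kle h).1 (by linarith)
    have m2 : y' - x' ≤ y - x + 1 := (Kle h).1 (by linarith)
    have m3 : x + y - 1 ≤ x' + y' := (Kle h).1 (by linarith)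
    have m4 : (x' = x ∧ y' = y - 1) ∨ (x' = x - 1 ∧ y' = y) ∨ (x' = x ∧ y' = y + 1) ∨
        (x' = x ∧ y' = y) := by omega
    rcases m4 with ⟨rfl, rfl⟩ | ⟨rfl, rfl⟩ | ⟨rfl, rfl⟩ | ⟨rfl, rfl⟩
    · exact Or.inr (Or.inr rfl)
    · exact Or.inr (Or.inl rfl)
    · exact Or.inl rfl
    · exact absurd h1 hL.2.2.2

end

end Pool.Agent.Y605.ST
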