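import Pool.Agent.Y605.ST.Hit

/-!
# The lines that carry no ruler
-/

set_option autoImplicit false

namespace Pool.Agent.Y605.ST

open Pool.Agent.W982.TA

open scoped Classical

theorem nc_P {C : Cfg} (h : C.OK) : NC C.P := by
  have hK := Cfg.K_pos h
  have ha := h.apos
  have hr := h.rpos
  have g : ∀ x y : ℤ, 0 ≤ x → x ≤ 1 → 0 ≤ y → y ≤ 1 → ((C.K * x, C.K * y) : Pt) ∈ C.P :=
    fun x y h1 h2 h3 h4 => Cfg.mem_lat h (Cfg.lat_bd h h1 (by linarith) h3 (by linarith)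
      (Or.inl h2))
  refine ⟨_, g 0 0 (by norm_num) (by norm_num) (by norm_num) (by norm_num),
    _, g 1 0 (by norm_num) (by norm_num) (by norm_num) (by norm_num),
    _, g 0 1 (by norm_num) (by norm_num) (by norm_num) (by norm_num), ?_⟩
  unfold dt
  dsimp only
  have : (C.K * 1 - C.K * 0) * (C.K * 1 - C.K * 0) - (C.K * 0 - C.K * 0) * (C.K * 0 - C.K * 0) =
    C.K * C.K := by ring
  rw [this]
  exact (mul_pos hK hK).ne'

theorem card_P {C : Cfg} (h : C.OK) : (C.P.card : ℤ) ≤ 2 * (C.a + 1) * (C.a + C.r + 1) +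
    (C.H.card + C.V.card) * (C.r * (C.σ - 1)) := by
  have ha := h.apos
  have hr := h.rpos
  have hσ := h.σpos
  set L := (Finset.Icc 0 (C.a + C.r) ×ˢ Finset.Icc 0 C.a) ∪
    (Finset.Icc 0 C.a ×ˢ Finset.Icc 0 (C.a + C.r)) with hL
  set A := L.image (fun v : ℤ × ℤ => ((C.K * v.1, C.K * v.2) : Pt)) with hA
  set B := (C.H ×ˢ Finset.Ico C.a (C.a + C.r) ×ˢ Finset.Ico 1 C.σ).image
    (fun v : ℤ × ℤ × ℤ => ((C.K * v.2.1 + 2 * v.2.2, C.K * v.1 + C.σ) : Pt)) with hB
  set D := (C.V ×ˢ Finset.Ico C.a (C.a + C.r) ×ˢ Finset.Ico 1 C.σ).image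
    (fun v : ℤ × ℤ × ℤ => ((C.K * v.1 + C.σ, C.K * v.2.1 + 2 * v.2.2) : Pt)) with hD
  have hsub : C.P ⊆ (A ∪ B) ∪ D := by
    intro p hp
    rw [Finset.mem_union, Finset.mem_union]
    rcases (Cfg.mem_P h).1 hp with ⟨x, y, hL, rfl⟩ | ⟨j, i, l, c1, c2, c3, c4, c5, rfl⟩ |
      ⟨j, i, l, c1, c2, c3, c4, c5, rfl⟩
    · left; left
      refine Finset.mem_image.2 ⟨(x, y), ?_, rfl⟩
      obtain ⟨h1, h2, h3, -⟩ := hL
      dsimp only at h1 h2 h3
      rw [Finset.mem_union, Finset.mem_product, Finset.mem_product, Finset.mem_Icc, Finset.mem_Icc,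
        Finset.mem_Icc, Finset.mem_Icc]
      rcases h3 with h3 | h3
      · exact Or.inl ⟨⟨h1, h3.1⟩, h2, h3.2⟩
      · exact Or.inr ⟨⟨h1, h3.1⟩, h2, h3.2⟩
    · left; right
      refine Finset.mem_image.2 ⟨(j, i, l), ?_, rfl⟩
      rw [Finset.mem_product, Finset.mem_product, Finset.mem_Ico, Finset.mem_Ico]
      exact ⟨c1, ⟨c2, c3⟩, c4, c5⟩
    · right
      refine Finset.mem_image.2 ⟨(j, i, l), ?_, rfl⟩
      rw [Finset.mem_product, Finset.mem_product, Finset.mem_Ico, Finset.mem_Ico]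
      exact ⟨c1, ⟨c2, c3⟩, c4, c5⟩
  have c1 := Finset.card_le_card hsub
  have c2 := Finset.card_union_le (A ∪ B) D
  have c3 := Finset.card_union_le A B
  have c4 : A.card ≤ L.card := Finset.card_image_le
  have c5 : B.card ≤ (C.H ×ˢ Finset.Ico C.a (C.a + C.r) ×ˢ Finset.Ico 1 C.σ).card :=
    Finset.card_image_le
  have c6 : D.card ≤ (C.V ×ˢ Finset.Ico C.a (C.a + C.r) ×ˢ Finset.Ico 1 C.σ).card :=
    Finset.card_image_le
  have c7 := Finset.card_union_le (Finset.Icc 0 (C.a + C.r) ×ˢ Finset.Icc 0 C.a)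
    (Finset.Icc 0 C.a ×ˢ Finset.Icc 0 (C.a + C.r))
  rw [Finset.card_product, Finset.card_product, Int.card_Icc, Int.card_Icc] at c7
  rw [Finset.card_product, Finset.card_product, Int.card_Ico, Int.card_Ico] at c5 c6
  have e1 : (((C.a + C.r - C.a).toNat : ℕ) : ℤ) = C.r := by
    rw [Int.toNat_of_nonneg (by linarith)]; ring
  have e2 : (((C.σ - 1).toNat : ℕ) : ℤ) = C.σ - 1 := Int.toNat_of_nonneg (by linarith)
  have e3 : (((C.a + C.r + 1 - 0).toNat : ℕ) : ℤ) = C.a + C.r + 1 := by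
    rw [Int.toNat_of_nonneg (by linarith)]; ring
  have e4 : (((C.a + 1 - 0).toNat : ℕ) : ℤ) = C.a + 1 := by
    rw [Int.toNat_of_nonneg (by linarith)]; ring
  have c7' : (L.card : ℤ) ≤ (((C.a + C.r + 1 - 0).toNat : ℕ) : ℤ) * (((C.a + 1 - 0).toNat : ℕ) : ℤ) +
    (((C.a + 1 - 0).toNat : ℕ) : ℤ) * (((C.a + C.r + 1 - 0).toNat : ℕ) : ℤ) := by exact_mod_cast c7
  have c5' : (B.card : ℤ) ≤ C.H.card * ((((C.a + C.r - C.a).toNat : ℕ) : ℤ) *
    (((C.σ - 1).toNat : ℕ) : ℤ)) := by exact_mod_cast c5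
  have c6' : (D.card : ℤ) ≤ C.V.card * ((((C.a + C.r - C.a).toNat : ℕ) : ℤ) *
    (((C.σ - 1).toNat : ℕ) : ℤ)) := by exact_mod_cast c6
  rw [e1, e2] at c5' c6'
  rw [e3, e4] at c7'
  have c8 : (C.P.card : ℤ) ≤ A.card + B.card + D.card := by exact_mod_cast (by omega)
  have c4' : (A.card : ℤ) ≤ L.card := by exact_mod_cast c4
  linarith

theorem card_H {C : Cfg} (h : C.OK) : (C.H.card : ℤ) ≤ C.a := by
  have ha := h.apos
  have h1 : C.H ⊆ Finset.Icc 1 (C.a - 2) := fun j hj => Finset.mem_Icc.2 (h.Hbox j hj)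
  have h2 := Finset.card_le_card h1
  rw [Int.card_Icc] at h2
  omega

/-- the ruler edges -/
noncomputable def FH (C : Cfg) : Finset (Sym2 Pt) := (IU C).image (udE C) ∪ (IN C).image (nE C)

theorem card_FH {C : Cfg} (h : C.OK) :
    ((FH C).card : ℤ) = C.H.card * (2 * (C.r * (C.σ - 1)) + C.r * (C.σ - 2)) := by
  unfold FH
  rw [Finset.card_union_of_disjoint, Finset.card_image_of_injective, Finset.card_image_of_injOn]
  · push_cast
    rw [card_IU h, card_IN h]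
    ring
  · intro v hv w hw he
    exact nE_inj h hv hw he
  · intro v w he
    exact udE_inj h he
  · rw [Finset.disjoint_left]
    intro e he he'
    obtain ⟨v, -, rfl⟩ := Finset.mem_image.1 he
    obtain ⟨w, -, h2⟩ := Finset.mem_image.1 he'
    exact ud_ne_n h h2.symm

theorem FH_sub {C : Cfg} : ∀ e ∈ FH C, e ∈ ER C := by
  intro e he
  unfold FH at he
  rcases Finset.mem_union.1 he with he | he
  · obtain ⟨⟨κ, i, l⟩, hv, rfl⟩ := Finset.mem_image.1 he
    rw [mem_IU] at hv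
    dsimp only at hv
    obtain ⟨⟨j, hj, rfl | rfl⟩, ⟨h1, h2⟩, h3, h4⟩ := hv
    · refine ⟨j, i, l, hj, h1, h2, h3, h4, Or.inr (Or.inl ?_)⟩
      unfold udE
      dsimp only
      have e1 : (2 * j + 1) / 2 = j := by omega
      have e2 : 2 * j / 2 = j := by omega
      rw [e1, e2]
    · refine ⟨j, i, l, hj, h1, h2, h3, h4, Or.inl ?_⟩
      unfold udE
      dsimp only
      have e1 : (2 * j + 1 + 1) / 2 = j + 1 := by omega
      have e2 : (2 * j + 1) / 2 = j := by omega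
      rw [e1, e2]
  · obtain ⟨⟨j, i, l⟩, hv, rfl⟩ := Finset.mem_image.1 he
    rw [mem_IN] at hv
    dsimp only at hv
    obtain ⟨hj, ⟨h1, h2⟩, h3, h4⟩ := hv
    exact ⟨j, i, l, hj, h1, h2, h3, by linarith, Or.inr (Or.inr ⟨by linarith, rfl⟩)⟩

theorem FH_x {C : Cfg} (h : C.OK) {e : Sym2 Pt} (he : e ∈ FH C) {p : Pt} (hp : p ∈ e) :
    C.K * C.a ≤ p.1 ∧ p.2 ≤ C.K * (C.a - 1) := by
  obtain ⟨j, i, l, h1, h2, h3, h4, h5, h6⟩ := FH_sub e he
  have hK := Cfg.K_pos h
  have hσ := h.σpos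
  have hK2 : C.K = 2 * C.σ := rfl
  have hj := h.Hbox j h1
  have a1 : C.K * C.a ≤ C.K * i := mul_le_mul_of_nonneg_left h2 hK.le
  have a2 : C.K * (j + 1) ≤ C.K * (C.a - 1) := mul_le_mul_of_nonneg_left (by linarith) hK.le
  have a3 : C.K * (j + 1) = C.K * j + C.K := by ring
  rcases h6 with rfl | rfl | ⟨-, rfl⟩ <;> rcases Sym2.mem_iff.1 hp with rfl | rfl <;>
    refine ⟨?_, ?_⟩ <;> dsimp only <;> linarith

theorem FH_hit {C : Cfg} (α β γ : ℝ) :
    ((FH C).filter (hitE α β γ)).card ≤ (tU C α β γ).card + (tN C α β γ).card := by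
  refine le_trans (Finset.card_le_card (t := (tU C α β γ).image (udE C) ∪
    (tN C α β γ).image (nE C)) ?_) ((Finset.card_union_le _ _).trans
    (add_le_add Finset.card_image_le Finset.card_image_le))
  intro e he
  rw [Finset.mem_filter] at he
  obtain ⟨h1, h2⟩ := he
  unfold FH at h1
  rw [Finset.mem_union]
  rcases Finset.mem_union.1 h1 with h1 | h1
  · left
    obtain ⟨v, hv, rfl⟩ := Finset.mem_image.1 h1
    exact Finset.mem_image.2 ⟨v, Finset.mem_filter.2 ⟨hv, h2⟩, rfl⟩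
  · right
    obtain ⟨v, hv, rfl⟩ := Finset.mem_image.1 h1
    exact Finset.mem_image.2 ⟨v, Finset.mem_filter.2 ⟨hv, h2⟩, rfl⟩

/-- the ruler edges of the upper arm -/
noncomputable def FV (C : Cfg) : Finset (Sym2 Pt) := (FH C.sw).image (Sym2.map sw)

theorem FV_hit {C : Cfg} (α β γ : ℝ) :
    ((FV C).filter (hitE α β γ)).card ≤ (tU C.sw β α γ).card + (tN C.sw β α γ).card := by
  refine le_trans (le_trans (Finset.card_le_card (t := ((FH C.sw).filter (hitE β α γ)).image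
    (Sym2.map sw)) ?_) Finset.card_image_le) (FH_hit β α γ)
  intro e he
  rw [Finset.mem_filter] at he
  obtain ⟨h1, h2⟩ := he
  obtain ⟨v, hv, rfl⟩ := Finset.mem_image.1 h1
  rw [hitE_sw] at h2
  exact Finset.mem_image.2 ⟨v, Finset.mem_filter.2 ⟨hv, h2⟩, rfl⟩

/-- the arms are long -/
def Cfg.Big (C : Cfg) : Prop := 3 ≤ C.σ ∧
  6 * ((C.a + 1) * (C.a + 1)) + 8 * (C.r * (C.a + 1)) + 6 * ((C.a + 1) * (C.a + 1) * C.σ) ≤
    C.r * (C.σ + 1)

theorem gen {C : Cfg} {φ : ℤ × ℤ → Prop} (h : C.OK) (hB : C.Big) {T : Set (Sym2 Pt)}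
    (hT : IsTriangulation C.P T) (hE : E0 C φ ⊆ T) {α β γ : ℝ} (hne : α ≠ 0 ∨ β ≠ 0)
    (nrH : ∀ j ∈ C.H, ¬ (α = 0 ∧ γ = β * ((C.K * j + C.σ : ℤ) : ℝ)))
    (nrV : ∀ j ∈ C.V, ¬ (β = 0 ∧ γ = α * ((C.K * j + C.σ : ℤ) : ℝ))) :
    (({e | e ∈ T ∧ hitE α β γ e} : Set (Sym2 Pt)).ncard : ℤ) ≤
      3 * (C.r * (C.σ - 1)) + 2 * (C.a + C.r) := by
  obtain ⟨hσ3, hbig⟩ := hB
  have h' := Cfg.sw_OK h
  have ha := h.apos
  have hr := h.rpos
  have hσ := h.σpos
  have hK := Cfg.K_pos h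
  have hfin := tri_finite hT
  set F := FH C ∪ FV C with hF
  have hdis : Disjoint (FH C) (FV C) := by
    rw [Finset.disjoint_left]
    intro e he he'
    obtain ⟨e', he'', rfl⟩ := Finset.mem_image.1 he'
    have : ∃ p, p ∈ e' := by
      induction e' with
      | _ u w => exact ⟨u, Sym2.mem_mk_left u w⟩
    obtain ⟨p, hp⟩ := this
    have k1 := (FH_x h' he'' hp).2
    have k2 := (FH_x h he (p := sw p) (Sym2.mem_map.2 ⟨p, hp, rfl⟩)).1
    have k3 : (sw p).1 = p.2 := rfl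
    have k4 : C.sw.K = C.K := rfl
    have k5 : C.sw.a = C.a := rfl
    rw [k3] at k2
    rw [k4, k5] at k1
    have k6 : C.K * (C.a - 1) = C.K * C.a - C.K := by ring
    linarith
  have hFT : (↑F : Set (Sym2 Pt)) ⊆ T := by
    intro e he
    rw [Finset.mem_coe, hF, Finset.mem_union] at he
    rcases he with he | he
    · exact hE (Or.inl (Or.inl (Or.inr (FH_sub e he))))
    · obtain ⟨e', he'', rfl⟩ := Finset.mem_image.1 he
      refine hE (Or.inr (Or.inr ?_))
      unfold swS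
      rw [Set.mem_setOf_eq, map_sw_sw]
      exact FH_sub e' he''
  have cF : (F.card : ℤ) = (C.H.card + C.V.card) * (2 * (C.r * (C.σ - 1)) + C.r * (C.σ - 2)) := by
    rw [hF, Finset.card_union_of_disjoint hdis]
    push_cast
    have e1 : (FV C).card = (FH C.sw).card :=
      Finset.card_image_of_injective _ (Sym2.map.injective sw_inj)
    rw [e1, card_FH h, card_FH h']
    have e2 : C.sw.H = C.V := rfl
    have e3 : C.sw.r = C.r := rfl
    have e4 : C.sw.σ = C.σ := rfl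
    rw [e2, e3, e4]
    ring
  have c1 := card_tri hT (nc_P h)
  have c2 := card_P h
  have c3 := Set.ncard_diff_add_ncard_of_subset hFT hfin
  rw [Set.ncard_coe_finset] at c3
  have c4 : ({e | e ∈ T ∧ hitE α β γ e} : Set (Sym2 Pt)).ncard ≤
      (T \ ↑F).ncard + (F.filter (hitE α β γ)).card := by
    have hs : ({e | e ∈ T ∧ hitE α β γ e} : Set (Sym2 Pt)) ⊆
        (T \ ↑F) ∪ ↑(F.filter (hitE α β γ)) := by
      rintro e ⟨he1, he2⟩
      by_cases heF : e ∈ F
      · right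
        rw [Finset.mem_coe, Finset.mem_filter]
        exact ⟨heF, he2⟩
      · exact Or.inl ⟨he1, fun hc => heF (Finset.mem_coe.1 hc)⟩
    refine le_trans (Set.ncard_le_ncard hs ((hfin.subset Set.diff_subset).union
      (Finset.finite_toSet _))) ((Set.ncard_union_le _ _).trans ?_)
    rw [Set.ncard_coe_finset]
  have c5 : (F.filter (hitE α β γ)).card ≤ ((tU C α β γ).card + (tN C α β γ).card) +
      ((tU C.sw β α γ).card + (tN C.sw β α γ).card) := by
    rw [hF, Finset.filter_union]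
    exact (Finset.card_union_le _ _).trans (add_le_add (FH_hit α β γ) (FV_hit α β γ))
  have nH := card_H h
  have nV : (C.V.card : ℤ) ≤ C.a := card_H h'
  have nH0 : (0 : ℤ) ≤ C.H.card := Int.natCast_nonneg _
  have nV0 : (0 : ℤ) ≤ C.V.card := Int.natCast_nonneg _
  have hne' : β ≠ 0 ∨ α ≠ 0 := hne.symm
  have fN1 := flat_N h hne nrH
  have fN2 := flat_N h' hne' nrV
  have eV : C.sw.H = C.V := rfl
  rw [eV] at fN2
  -- steep bounds
  have sH : |β| ≤ 2 * |α| → ((tU C α β γ).card : ℤ) + (tN C α β γ).card ≤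
      6 * ((C.a + 1) * (C.a + 1) * C.σ) := by
    intro hs
    have k1 := steep_U h hne hs (γ := γ)
    have k2 := steep_N h hne hs (γ := γ)
    have k3 : (C.H.card : ℤ) * (C.σ - 1) ≤ (C.a + 1) * C.σ :=
      mul_le_mul (by linarith) (by linarith) (by linarith) (by linarith)
    have k4 : (2 * C.a + 2) * (C.H.card * (C.σ - 1)) ≤ (2 * C.a + 2) * ((C.a + 1) * C.σ) :=
      mul_le_mul_of_nonneg_left k3 (by linarith)
    have k5 : (2 * C.a + 2) * (2 * C.H.card * (C.σ - 1)) =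
      2 * ((2 * C.a + 2) * (C.H.card * (C.σ - 1))) := by ring
    rw [k5] at k1
    have k6 : (2 * C.a + 2) * ((C.a + 1) * C.σ) = 2 * ((C.a + 1) * (C.a + 1) * C.σ) := by ring
    linarith
  have sV : |α| ≤ 2 * |β| → ((tU C.sw β α γ).card : ℤ) + (tN C.sw β α γ).card ≤
      6 * ((C.a + 1) * (C.a + 1) * C.σ) := by
    intro hs
    have k1 := steep_U h' hne' hs (γ := γ)
    have k2 := steep_N h' hne' hs (γ := γ)
    have e3 : C.sw.a = C.a := rfl
    have e4 : C.sw.σ = C.σ := rfl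
    rw [eV, e3, e4] at k1 k2
    have k3 : (C.V.card : ℤ) * (C.σ - 1) ≤ (C.a + 1) * C.σ :=
      mul_le_mul (by linarith) (by linarith) (by linarith) (by linarith)
    have k4 : (2 * C.a + 2) * (C.V.card * (C.σ - 1)) ≤ (2 * C.a + 2) * ((C.a + 1) * C.σ) :=
      mul_le_mul_of_nonneg_left k3 (by linarith)
    have k5 : (2 * C.a + 2) * (2 * C.V.card * (C.σ - 1)) =
      2 * ((2 * C.a + 2) * (C.V.card * (C.σ - 1))) := by ring
    rw [k5] at k1
    have k6 : (2 * C.a + 2) * ((C.a + 1) * C.σ) = 2 * ((C.a + 1) * (C.a + 1) * C.σ) := by ring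
    linarith
  -- the total of the touched ruler edges
  have tot : (((tU C α β γ).card + (tN C α β γ).card : ℕ) : ℤ) +
      ((tU C.sw β α γ).card + (tN C.sw β α γ).card : ℕ) ≤
      2 * (C.r * (C.σ - 1)) + 2 * C.a + 6 * ((C.a + 1) * (C.a + 1) * C.σ) := by
    push_cast
    by_cases hs : 2 * |α| ≤ |β|
    · have k1 := flat_U h hne hs (γ := γ)
      have k2 := sV (by linarith [abs_nonneg α])
      have k3 : ((tN C α β γ).card : ℤ) ≤ 2 * C.H.card := by exact_mod_cast fN1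
      linarith
    · by_cases hs' : 2 * |β| ≤ |α|
      · have k1 := flat_U h' hne' hs' (γ := γ)
        have k2 := sH (by linarith [abs_nonneg β])
        have k3 : ((tN C.sw β α γ).card : ℤ) ≤ 2 * C.V.card := by exact_mod_cast fN2
        have e3 : C.sw.r = C.r := rfl
        have e4 : C.sw.σ = C.σ := rfl
        rw [e3, e4] at k1
        linarith
      · push Not at hs hs'
        have k1 := sH hs.le
        have k2 := sV hs'.le
        have k3 : C.r * (C.σ + 1) ≤ 2 * (C.r * (C.σ - 1)) := by nlinarith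
        have k4 : 0 ≤ C.r * (C.a + 1) := mul_nonneg (by linarith) (by linarith)
        have k5 : 0 ≤ (C.a + 1) * (C.a + 1) := mul_nonneg (by linarith) (by linarith)
        linarith
  have c1' : (T.ncard : ℤ) ≤ 3 * C.P.card := by exact_mod_cast (by omega)
  have c3' : ((T \ ↑F).ncard : ℤ) + F.card = T.ncard := by exact_mod_cast c3
  have c4' : (({e | e ∈ T ∧ hitE α β γ e} : Set (Sym2 Pt)).ncard : ℤ) ≤
      (T \ ↑F).ncard + (F.filter (hitE α β γ)).card := by exact_mod_cast c4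
  have c5' : ((F.filter (hitE α β γ)).card : ℤ) ≤ (((tU C α β γ).card + (tN C α β γ).card : ℕ) : ℤ) +
      ((tU C.sw β α γ).card + (tN C.sw β α γ).card : ℕ) := by exact_mod_cast c5
  have d1 : (C.H.card : ℤ) * C.r ≤ C.a * C.r := mul_le_mul_of_nonneg_right nH (by linarith)
  have d2 : (C.V.card : ℤ) * C.r ≤ C.a * C.r := mul_le_mul_of_nonneg_right nV (by linarith)
  have d3 : 3 * ((C.H.card + C.V.card) * (C.r * (C.σ - 1)) : ℤ) =
      (C.H.card + C.V.card) * (2 * (C.r * (C.σ - 1)) + C.r * (C.σ - 2)) +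
        (C.H.card * C.r + C.V.card * C.r) := by ring
  nlinarith

end Pool.Agent.Y605.ST
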