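import Pool.Agent.Y605.ST.Upb

/-!
# Ruler edges met by a line
-/

set_option autoImplicit false

namespace Pool.Agent.Y605.ST

open Pool.Agent.W982.TA

open scoped Classical

theorem card_diam (X : Finset ℤ) (d : ℕ) (h : ∀ x ∈ X, ∀ y ∈ X, x - y ≤ d) : X.card ≤ d + 1 := by
  rcases X.eq_empty_or_nonempty with rfl | hne
  · simp
  · have h1 : X ⊆ Finset.Icc (X.min' hne) (X.min' hne + d) := by
      intro x hx
      rw [Finset.mem_Icc]
      exact ⟨X.min'_le x hx, by have := h x hx _ (X.min'_mem hne); linarith⟩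
    have h2 := Finset.card_le_card h1
    rw [Int.card_Icc] at h2
    omega

theorem card_fib {α β : Type*} (X : Finset α) (f : α → β) (g : α → ℤ) (d : ℕ)
    (inj : ∀ x ∈ X, ∀ y ∈ X, f x = f y → g x = g y → x = y)
    (hd : ∀ x ∈ X, ∀ y ∈ X, f x = f y → g x - g y ≤ d) (Y : Finset β) (hY : ∀ x ∈ X, f x ∈ Y) :
    X.card ≤ (d + 1) * Y.card := by
  refine Finset.card_le_mul_card_image_of_maps_to hY _ ?_
  intro b _
  rw [← Finset.card_image_of_injOn (f := g)]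
  · refine card_diam _ d ?_
    intro x hx y hy
    obtain ⟨u, hu, rfl⟩ := Finset.mem_image.1 hx
    obtain ⟨w, hw, rfl⟩ := Finset.mem_image.1 hy
    rw [Finset.mem_filter] at hu hw
    exact hd u hu.1 w hw.1 (hu.2.trans hw.2.symm)
  · intro x hx y hy hxy
    rw [Finset.mem_coe, Finset.mem_filter] at hx hy
    exact inj x hx.1 y hy.1 (hx.2.trans hy.2.symm) hxy

/-- the closed segment meets the line -/
def Hit (α β γ : ℝ) (p q : Pt) : Prop :=
  ∃ s : ℝ, 0 ≤ s ∧ s ≤ 1 ∧ α * ((1 - s) * p.1 + s * q.1) + β * ((1 - s) * p.2 + s * q.2) = γ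

/-- the closed edge meets the line -/
def hitE (α β γ : ℝ) (e : Sym2 Pt) : Prop := ∃ p q, e = s(p, q) ∧ Hit α β γ p q

theorem Hit.symm {α β γ : ℝ} {p q : Pt} (h : Hit α β γ p q) : Hit α β γ q p := by
  obtain ⟨s, h0, h1, h2⟩ := h
  refine ⟨1 - s, by linarith, by linarith, ?_⟩
  rw [← h2]; ring

theorem hitE_mk {α β γ : ℝ} {p q : Pt} : hitE α β γ s(p, q) ↔ Hit α β γ p q := by
  constructor
  · rintro ⟨p', q', h1, h2⟩
    rcases Sym2.eq_iff.1 h1 with ⟨rfl, rfl⟩ | ⟨rfl, rfl⟩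
    · exact h2
    · exact h2.symm
  · intro h
    exact ⟨p, q, rfl, h⟩

theorem hit_sw {α β γ : ℝ} {p q : Pt} : Hit β α γ (sw p) (sw q) ↔ Hit α β γ p q := by
  unfold Hit sw
  constructor
  · rintro ⟨s, h0, h1, h2⟩
    exact ⟨s, h0, h1, by rw [← h2]; ring⟩
  · rintro ⟨s, h0, h1, h2⟩
    exact ⟨s, h0, h1, by rw [← h2]; ring⟩

theorem hitE_sw {α β γ : ℝ} {e : Sym2 Pt} : hitE β α γ (e.map sw) ↔ hitE α β γ e := by
  induction e with
  | _ p q => rw [Sym2.map_mk, hitE_mk, hitE_mk, hit_sw]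

/-- the slanted ruler edges -/
def udE (C : Cfg) (v : ℤ × ℤ × ℤ) : Sym2 Pt :=
  s((C.K * v.2.1, C.K * ((v.1 + 1) / 2)), (C.K * v.2.1 + 2 * v.2.2, C.K * (v.1 / 2) + C.σ))

/-- the ruler edges along the rulers -/
def nE (C : Cfg) (v : ℤ × ℤ × ℤ) : Sym2 Pt :=
  s((C.K * v.2.1 + 2 * v.2.2, C.K * v.1 + C.σ), (C.K * v.2.1 + 2 * v.2.2 + 2, C.K * v.1 + C.σ))

/-- the indices of the half gaps -/
def Kp (C : Cfg) : Finset ℤ := C.H.image (fun j => 2 * j) ∪ C.H.image (fun j => 2 * j + 1)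

theorem mem_Kp {C : Cfg} {κ : ℤ} : κ ∈ Kp C ↔ ∃ j ∈ C.H, κ = 2 * j ∨ κ = 2 * j + 1 := by
  unfold Kp
  rw [Finset.mem_union, Finset.mem_image, Finset.mem_image]
  constructor
  · rintro (⟨j, h1, h2⟩ | ⟨j, h1, h2⟩)
    · exact ⟨j, h1, Or.inl h2.symm⟩
    · exact ⟨j, h1, Or.inr h2.symm⟩
  · rintro ⟨j, h1, h2 | h2⟩
    · exact Or.inl ⟨j, h1, h2.symm⟩
    · exact Or.inr ⟨j, h1, h2.symm⟩

theorem card_Kp (C : Cfg) : (Kp C).card = 2 * C.H.card := by
  unfold Kp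
  rw [Finset.card_union_of_disjoint, Finset.card_image_of_injective, Finset.card_image_of_injective]
  · ring
  · intro x y h
    dsimp only at h
    omega
  · intro x y h
    dsimp only at h
    omega
  · rw [Finset.disjoint_left]
    intro x hx hy
    obtain ⟨j, -, h1⟩ := Finset.mem_image.1 hx
    obtain ⟨j', -, h2⟩ := Finset.mem_image.1 hy
    omega

/-- the indices of the slanted ruler edges -/
noncomputable def IU (C : Cfg) : Finset (ℤ × ℤ × ℤ) :=
  Kp C ×ˢ Finset.Ico C.a (C.a + C.r) ×ˢ Finset.Ico 1 C.σ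

/-- the indices of the ruler edges along the rulers -/
noncomputable def IN (C : Cfg) : Finset (ℤ × ℤ × ℤ) :=
  C.H ×ˢ Finset.Ico C.a (C.a + C.r) ×ˢ Finset.Ico 1 (C.σ - 1)

theorem mem_IU {C : Cfg} {v : ℤ × ℤ × ℤ} : v ∈ IU C ↔ (∃ j ∈ C.H, v.1 = 2 * j ∨ v.1 = 2 * j + 1) ∧
    (C.a ≤ v.2.1 ∧ v.2.1 < C.a + C.r) ∧ 1 ≤ v.2.2 ∧ v.2.2 < C.σ := by
  unfold IU
  rw [Finset.mem_product, Finset.mem_product, mem_Kp, Finset.mem_Ico, Finset.mem_Ico]

theorem mem_IN {C : Cfg} {v : ℤ × ℤ × ℤ} : v ∈ IN C ↔ v.1 ∈ C.H ∧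
    (C.a ≤ v.2.1 ∧ v.2.1 < C.a + C.r) ∧ 1 ≤ v.2.2 ∧ v.2.2 < C.σ - 1 := by
  unfold IN
  rw [Finset.mem_product, Finset.mem_product, Finset.mem_Ico, Finset.mem_Ico]

theorem card_IU {C : Cfg} (h : C.OK) : ((IU C).card : ℤ) = 2 * C.H.card * (C.r * (C.σ - 1)) := by
  unfold IU
  rw [Finset.card_product, Finset.card_product, card_Kp, Int.card_Ico, Int.card_Ico]
  have h1 := h.rpos
  have h2 := h.σpos
  push_cast
  rw [Int.toNat_of_nonneg (by linarith), Int.toNat_of_nonneg (by linarith)]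
  ring

theorem card_IN {C : Cfg} (h : C.OK) : ((IN C).card : ℤ) = C.H.card * (C.r * (C.σ - 2)) := by
  unfold IN
  rw [Finset.card_product, Finset.card_product, Int.card_Ico, Int.card_Ico]
  have h1 := h.rpos
  have h2 := h.σpos
  push_cast
  rw [Int.toNat_of_nonneg (by linarith), Int.toNat_of_nonneg (by linarith)]
  ring

theorem sig_inj {σ i l i' l' : ℤ} (h1 : 1 ≤ l) (h2 : l < σ) (h1' : 1 ≤ l') (h2' : l' < σ)
    (he : σ * i + l = σ * i' + l') : i = i' ∧ l = l' := by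
  have hi : i = i' := by
    by_contra hne
    rcases lt_or_gt_of_ne hne with hlt | hlt
    · have : σ * (i + 1) ≤ σ * i' := mul_le_mul_of_nonneg_left (by omega) (by linarith)
      linarith
    · have : σ * (i' + 1) ≤ σ * i := mul_le_mul_of_nonneg_left (by omega) (by linarith)
      linarith
  subst hi
  exact ⟨rfl, by linarith⟩

theorem udE_inj {C : Cfg} (h : C.OK) {v w : ℤ × ℤ × ℤ} (he : udE C v = udE C w) : v = w := by
  obtain ⟨κ, i, l⟩ := v
  obtain ⟨κ', i', l'⟩ := w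
  have hK := Cfg.K_pos h
  have hσ := h.σpos
  have hK2 : C.K = 2 * C.σ := rfl
  unfold udE at he
  dsimp only at he
  rcases Sym2.eq_iff.1 he with ⟨e1, e2⟩ | ⟨e1, e2⟩
  · rw [Prod.mk.injEq] at e1 e2
    have f1 := mul_inj hK e1.1
    have f2 := mul_inj hK e1.2
    have f3 := mul_inj hK (by linarith : C.K * (κ / 2) = C.K * (κ' / 2))
    subst f1
    have f4 : l = l' := by linarith [e2.1]
    have f5 : κ = κ' := by omega
    rw [f4, f5]
  · exfalso
    rw [Prod.mk.injEq] at e1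
    have e3 := e1.2
    rw [hK2] at e3
    have e4 : C.σ * (2 * ((κ + 1) / 2)) = C.σ * (2 * (κ' / 2) + 1) := by linarith
    have := mul_inj (by linarith) e4
    omega

theorem nE_inj {C : Cfg} (h : C.OK) {v w : ℤ × ℤ × ℤ} (hv : v ∈ IN C) (hw : w ∈ IN C)
    (he : nE C v = nE C w) : v = w := by
  obtain ⟨j, i, l⟩ := v
  obtain ⟨j', i', l'⟩ := w
  rw [mem_IN] at hv hw
  dsimp only at hv hw
  have hK := Cfg.K_pos h
  have hσ := h.σpos
  have hK2 : C.K = 2 * C.σ := rfl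
  unfold nE at he
  dsimp only at he
  rcases Sym2.eq_iff.1 he with ⟨e1, e2⟩ | ⟨e1, e2⟩
  · rw [Prod.mk.injEq] at e1 e2
    have f2 := mul_inj hK (by linarith [e1.2] : C.K * j = C.K * j')
    have e3 := e1.1
    rw [hK2] at e3
    have f3 := sig_inj hv.2.2.1 (by linarith [hv.2.2.2]) hw.2.2.1 (by linarith [hw.2.2.2])
      (by linarith : C.σ * i + l = C.σ * i' + l')
    rw [f2, f3.1, f3.2]
  · exfalso
    rw [Prod.mk.injEq] at e1 e2
    linarith [e1.1, e2.1]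

theorem ud_ne_n {C : Cfg} (h : C.OK) {v w : ℤ × ℤ × ℤ} (he : udE C v = nE C w) : False := by
  have hσ := h.σpos
  have hK2 : C.K = 2 * C.σ := rfl
  unfold udE nE at he
  rcases Sym2.eq_iff.1 he with ⟨e1, e2⟩ | ⟨e1, e2⟩
  · rw [Prod.mk.injEq] at e1
    have e3 := e1.2
    rw [hK2] at e3
    have e4 : C.σ * (2 * ((v.1 + 1) / 2)) = C.σ * (2 * w.1 + 1) := by linarith
    have := mul_inj (by linarith) e4
    omega
  · rw [Prod.mk.injEq] at e1
    have e3 := e1.2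
    rw [hK2] at e3
    have e4 : C.σ * (2 * ((v.1 + 1) / 2)) = C.σ * (2 * w.1 + 1) := by linarith
    have := mul_inj (by linarith) e4
    omega

/-- the position of a point of a slanted ruler edge -/
theorem ud_pos {C : Cfg} (h : C.OK) {α β γ : ℝ} {v : ℤ × ℤ × ℤ} (hv : v ∈ IU C)
    (hh : hitE α β γ (udE C v)) : ∃ x y : ℝ, α * x + β * y = γ ∧
      ((C.K * v.2.1 : ℤ) : ℝ) ≤ x ∧ x ≤ ((C.K * v.2.1 + 2 * v.2.2 : ℤ) : ℝ) ∧
      ((C.σ * v.1 : ℤ) : ℝ) ≤ y ∧ y ≤ ((C.σ * (v.1 + 1) : ℤ) : ℝ) := by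
  obtain ⟨κ, i, l⟩ := v
  rw [mem_IU] at hv
  dsimp only at hv
  unfold udE at hh
  dsimp only at hh
  rw [hitE_mk] at hh
  obtain ⟨s, h0, h1, h2⟩ := hh
  dsimp only at h2 ⊢
  have hσ := h.σpos
  have hσr : (0 : ℝ) < C.σ := by exact_mod_cast (by linarith : (0 : ℤ) < C.σ)
  have hl0 : (0 : ℝ) < l := by exact_mod_cast (by linarith [hv.2.2.1] : (0 : ℤ) < l)
  have hK2 : (C.K : ℝ) = 2 * C.σ := by unfold Cfg.K; push_cast; ring
  refine ⟨_, _, h2, ?_, ?_, ?_, ?_⟩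
  · push_cast; nlinarith
  · push_cast; nlinarith
  · obtain ⟨j, -, rfl | rfl⟩ := hv.1
    · have e1 : (2 * j + 1) / 2 = j := by omega
      have e2 : 2 * j / 2 = j := by omega
      rw [e1, e2]; push_cast; rw [hK2]; nlinarith
    · have e1 : (2 * j + 1 + 1) / 2 = j + 1 := by omega
      have e2 : (2 * j + 1) / 2 = j := by omega
      rw [e1, e2]; push_cast; rw [hK2]; nlinarith
  · obtain ⟨j, -, rfl | rfl⟩ := hv.1
    · have e1 : (2 * j + 1) / 2 = j := by omega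
      have e2 : 2 * j / 2 = j := by omega
      rw [e1, e2]; push_cast; rw [hK2]; nlinarith
    · have e1 : (2 * j + 1 + 1) / 2 = j + 1 := by omega
      have e2 : (2 * j + 1) / 2 = j := by omega
      rw [e1, e2]; push_cast; rw [hK2]; nlinarith

/-- the position of a point of an edge along a ruler -/
theorem n_pos {C : Cfg} {α β γ : ℝ} {v : ℤ × ℤ × ℤ} (hh : hitE α β γ (nE C v)) :
    ∃ x y : ℝ, α * x + β * y = γ ∧
      ((C.K * v.2.1 + 2 * v.2.2 : ℤ) : ℝ) ≤ x ∧ x ≤ ((C.K * v.2.1 + 2 * v.2.2 + 2 : ℤ) : ℝ) ∧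
      y = ((C.K * v.1 + C.σ : ℤ) : ℝ) := by
  obtain ⟨j, i, l⟩ := v
  unfold nE at hh
  dsimp only at hh
  rw [hitE_mk] at hh
  obtain ⟨s, h0, h1, h2⟩ := hh
  dsimp only at h2 ⊢
  refine ⟨_, _, h2, ?_, ?_, ?_⟩
  · push_cast; nlinarith
  · push_cast; nlinarith
  · push_cast; ring

/-- the touched slanted ruler edges -/
noncomputable def tU (C : Cfg) (α β γ : ℝ) : Finset (ℤ × ℤ × ℤ) :=
  (IU C).filter fun v => hitE α β γ (udE C v)

/-- the touched ruler edges along the rulers -/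
noncomputable def tN (C : Cfg) (α β γ : ℝ) : Finset (ℤ × ℤ × ℤ) :=
  (IN C).filter fun v => hitE α β γ (nE C v)

theorem flat_U {C : Cfg} (h : C.OK) {α β γ : ℝ} (hne : α ≠ 0 ∨ β ≠ 0) (hs : 2 * |α| ≤ |β|) :
    ((tU C α β γ).card : ℤ) ≤ 2 * (C.r * (C.σ - 1)) := by
  have hβ : 0 < |β| := by
    rcases hne with h1 | h1
    · have := abs_pos.2 h1; linarith
    · exact abs_pos.2 h1
  have hσ := h.σpos
  have hr := h.rpos
  have hσr : (0 : ℝ) < C.σ := by exact_mod_cast (by linarith : (0 : ℤ) < C.σ)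
  have key : (tU C α β γ).card ≤ (1 + 1) *
      (Finset.Ico C.a (C.a + C.r) ×ˢ Finset.Ico 1 C.σ).card := by
    refine card_fib _ (fun v => v.2) (fun v => v.1) 1 ?_ ?_ _ ?_
    · intro x _ y _ h1 h2
      exact Prod.ext h2 h1
    · rintro ⟨κ, i, l⟩ hx ⟨κ', i', l'⟩ hy h1
      rw [Prod.mk.injEq] at h1
      obtain ⟨rfl, rfl⟩ := h1
      have hx1 := (Finset.mem_filter.1 hx).1
      obtain ⟨x, y, g1, g2, g3, g4, g5⟩ := ud_pos h hx1 (Finset.mem_filter.1 hx).2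
      obtain ⟨x', y', k1, k2, k3, k4, k5⟩ := ud_pos h (Finset.mem_filter.1 hy).1
        (Finset.mem_filter.1 hy).2
      rw [mem_IU] at hx1
      dsimp only at hx1 g1 g2 g3 g4 g5 k1 k2 k3 k4 k5 ⊢
      have hl : (l : ℝ) < C.σ := by exact_mod_cast hx1.2.2.2
      have e1 : β * (y - y') = α * (x' - x) := by linarith
      have e2 : |β| * |y - y'| = |α| * |x' - x| := by rw [← abs_mul, ← abs_mul, e1]
      have e3 : |x' - x| ≤ 2 * l := by
        rw [abs_le]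
        push_cast at g2 g3 k2 k3
        constructor <;> linarith
      have e4 : |β| * |y - y'| ≤ |β| * l := by
        have a1 : |α| * |x' - x| ≤ |α| * (2 * l) := mul_le_mul_of_nonneg_left e3 (abs_nonneg α)
        have a2 : (0 : ℝ) < l := by exact_mod_cast (by linarith [hx1.2.2.1] : (0 : ℤ) < l)
        nlinarith
      have e5 : |y - y'| ≤ l := le_of_mul_le_mul_left e4 hβ
      have e6 := le_abs_self (y - y')
      push_cast at g4 k5
      have e7 : (C.σ : ℝ) * (κ - κ' - 1) < C.σ * 1 := by nlinarith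
      have e8 : (κ : ℝ) - κ' - 1 < 1 := lt_of_mul_lt_mul_left e7 hσr.le
      have e9 : κ - κ' - 1 < 1 := by exact_mod_cast e8
      push_cast
      omega
    · intro v hv
      have := (Finset.mem_filter.1 hv).1
      unfold IU at this
      exact (Finset.mem_product.1 this).2
  rw [Finset.card_product, Int.card_Ico, Int.card_Ico] at key
  have e1 : (((C.a + C.r - C.a).toNat : ℕ) : ℤ) = C.r := by
    rw [Int.toNat_of_nonneg (by linarith)]; ring
  have e2 : (((C.σ - 1).toNat : ℕ) : ℤ) = C.σ - 1 := Int.toNat_of_nonneg (by linarith)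
  have key' : ((tU C α β γ).card : ℤ) ≤ (1 + 1) *
      (((C.a + C.r - C.a).toNat : ℕ) * (((C.σ - 1).toNat : ℕ) : ℤ)) := by exact_mod_cast key
  rw [e1, e2] at key'
  linarith

theorem flat_N {C : Cfg} (h : C.OK) {α β γ : ℝ} (hne : α ≠ 0 ∨ β ≠ 0)
    (nr : ∀ j ∈ C.H, ¬ (α = 0 ∧ γ = β * ((C.K * j + C.σ : ℤ) : ℝ))) :
    (tN C α β γ).card ≤ 2 * C.H.card := by
  have hσ := h.σpos
  refine card_fib _ (fun v => v.1) (fun v => C.σ * v.2.1 + v.2.2) 1 ?_ ?_ _ ?_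
  · rintro ⟨j, i, l⟩ hx ⟨j', i', l'⟩ hy h1 h2
    have hx1 := mem_IN.1 (Finset.mem_filter.1 hx).1
    have hy1 := mem_IN.1 (Finset.mem_filter.1 hy).1
    dsimp only at h1 h2 hx1 hy1
    have := sig_inj hx1.2.2.1 (by linarith [hx1.2.2.2]) hy1.2.2.1 (by linarith [hy1.2.2.2]) h2
    rw [h1, this.1, this.2]
  · rintro ⟨j, i, l⟩ hx ⟨j', i', l'⟩ hy h1
    dsimp only at h1
    subst h1
    have hx1 := mem_IN.1 (Finset.mem_filter.1 hx).1
    obtain ⟨x, y, g1, g2, g3, g4⟩ := n_pos (Finset.mem_filter.1 hx).2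
    obtain ⟨x', y', k1, k2, k3, k4⟩ := n_pos (Finset.mem_filter.1 hy).2
    dsimp only at hx1 g1 g2 g3 g4 k1 k2 k3 k4 ⊢
    by_cases hα : α = 0
    · exfalso
      refine nr j hx1.1 ⟨hα, ?_⟩
      rw [← g4, ← g1, hα]; ring
    · have e1 : α * x = α * x' := by
        have : y = y' := g4.trans k4.symm
        rw [this] at g1
        linarith
      have e2 : x = x' := mul_left_cancel₀ hα e1
      rw [← e2] at k2 k3
      have e3 : C.K * i + 2 * l ≤ C.K * i' + 2 * l' + 2 := by exact_mod_cast g2.trans k3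
      have hK2 : C.K = 2 * C.σ := rfl
      rw [hK2] at e3
      push_cast
      linarith
  · intro v hv
    exact (mem_IN.1 (Finset.mem_filter.1 hv).1).1

theorem steep_aux {C : Cfg} (h : C.OK) {α β γ : ℝ} (hne : α ≠ 0 ∨ β ≠ 0) (hs : |β| ≤ 2 * |α|)
    {x y x' y' : ℝ} {i i' : ℤ} (g1 : α * x + β * y = γ) (g2 : ((C.K * i : ℤ) : ℝ) ≤ x)
    (g4 : 0 ≤ y) (g5 : y ≤ ((C.K * C.a : ℤ) : ℝ)) (k1 : α * x' + β * y' = γ)
    (k3 : x' ≤ ((C.K * (i' + 1) : ℤ) : ℝ)) (k4 : 0 ≤ y') (k5 : y' ≤ ((C.K * C.a : ℤ) : ℝ)) :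
    i - i' ≤ 2 * C.a + 1 := by
  have hα : 0 < |α| := by
    rcases hne with h1 | h1
    · exact abs_pos.2 h1
    · have := abs_pos.2 h1; linarith
  have hK : (0 : ℝ) < C.K := by exact_mod_cast Cfg.K_pos h
  have e1 : α * (x - x') = β * (y' - y) := by linarith
  have e2 : |α| * |x - x'| = |β| * |y' - y| := by rw [← abs_mul, ← abs_mul, e1]
  have e3 : |y' - y| ≤ C.K * C.a := by
    rw [abs_le]
    push_cast at g5 k5
    constructor <;> linarith
  have e4 : |α| * |x - x'| ≤ |α| * (2 * (C.K * C.a)) := by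
    have a1 : |β| * |y' - y| ≤ (2 * |α|) * (C.K * C.a) :=
      mul_le_mul hs e3 (abs_nonneg _) (by linarith)
    linarith
  have e5 : |x - x'| ≤ 2 * (C.K * C.a) := le_of_mul_le_mul_left e4 hα
  have e6 := le_abs_self (x - x')
  push_cast at g2 k3
  have e7 : (C.K : ℝ) * (i - i') ≤ C.K * (2 * C.a + 1) := by nlinarith
  have e8 : (i : ℝ) - i' ≤ 2 * C.a + 1 := le_of_mul_le_mul_left e7 hK
  exact_mod_cast e8

theorem steep_U {C : Cfg} (h : C.OK) {α β γ : ℝ} (hne : α ≠ 0 ∨ β ≠ 0) (hs : |β| ≤ 2 * |α|) :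
    ((tU C α β γ).card : ℤ) ≤ (2 * C.a + 2) * (2 * C.H.card * (C.σ - 1)) := by
  have hσ := h.σpos
  have ha := h.apos
  have hK := Cfg.K_pos h
  have hK2 : C.K = 2 * C.σ := rfl
  have key : (tU C α β γ).card ≤ ((2 * C.a + 1).toNat + 1) * (Kp C ×ˢ Finset.Ico 1 C.σ).card := by
    refine card_fib _ (fun v => (v.1, v.2.2)) (fun v => v.2.1) _ ?_ ?_ _ ?_
    · rintro ⟨κ, i, l⟩ hx ⟨κ', i', l'⟩ hy h1 h2
      rw [Prod.mk.injEq] at h1
      dsimp only at h1 h2
      rw [h1.1, h1.2, h2]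
    · rintro ⟨κ, i, l⟩ hx ⟨κ', i', l'⟩ hy h1
      have hx1 := (Finset.mem_filter.1 hx).1
      have hy1 := (Finset.mem_filter.1 hy).1
      obtain ⟨x, y, g1, g2, g3, g4, g5⟩ := ud_pos h hx1 (Finset.mem_filter.1 hx).2
      obtain ⟨x', y', k1, k2, k3, k4, k5⟩ := ud_pos h hy1 (Finset.mem_filter.1 hy).2
      rw [mem_IU] at hx1 hy1
      dsimp only at hx1 hy1 g1 g2 g3 g4 g5 k1 k2 k3 k4 k5 ⊢
      rw [Int.toNat_of_nonneg (by linarith)]
      have bnd : ∀ κ : ℤ, (∃ j ∈ C.H, κ = 2 * j ∨ κ = 2 * j + 1) →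
          0 ≤ C.σ * κ ∧ C.σ * (κ + 1) ≤ C.K * C.a := by
        rintro κ ⟨j, hj, hjκ⟩
        have := h.Hbox j hj
        constructor
        · exact mul_nonneg (by linarith) (by omega)
        · have : C.σ * (κ + 1) ≤ C.σ * (2 * C.a) := mul_le_mul_of_nonneg_left (by omega) (by linarith)
          rw [hK2]
          linarith
      have b1 := bnd κ hx1.1
      have b2 := bnd κ' hy1.1
      refine steep_aux h hne hs g1 g2 (le_trans ?_ g4) (le_trans g5 ?_) k1 (le_trans k3 ?_)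
        (le_trans ?_ k4) (le_trans k5 ?_)
      · exact_mod_cast b1.1
      · exact_mod_cast b1.2
      · have : C.K * i' + 2 * l' ≤ C.K * (i' + 1) := by
          have := hy1.2.2.2
          linarith
        exact_mod_cast this
      · exact_mod_cast b2.1
      · exact_mod_cast b2.2
    · intro v hv
      have := (Finset.mem_filter.1 hv).1
      unfold IU at this
      rw [Finset.mem_product, Finset.mem_product] at this
      exact Finset.mem_product.2 ⟨this.1, this.2.2⟩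
  rw [Finset.card_product, card_Kp, Int.card_Ico] at key
  have e1 : (((2 * C.a + 1).toNat : ℕ) : ℤ) = 2 * C.a + 1 := Int.toNat_of_nonneg (by linarith)
  have e2 : (((C.σ - 1).toNat : ℕ) : ℤ) = C.σ - 1 := Int.toNat_of_nonneg (by linarith)
  have key' : ((tU C α β γ).card : ℤ) ≤ ((((2 * C.a + 1).toNat : ℕ) : ℤ) + 1) *
      (2 * C.H.card * (((C.σ - 1).toNat : ℕ) : ℤ)) := by exact_mod_cast key
  rw [e1, e2] at key'
  linarith

theorem steep_N {C : Cfg} (h : C.OK) {α β γ : ℝ} (hne : α ≠ 0 ∨ β ≠ 0) (hs : |β| ≤ 2 * |α|) :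
    ((tN C α β γ).card : ℤ) ≤ (2 * C.a + 2) * (C.H.card * (C.σ - 1)) := by
  have hσ := h.σpos
  have ha := h.apos
  have hK := Cfg.K_pos h
  have hK2 : C.K = 2 * C.σ := rfl
  have key : (tN C α β γ).card ≤ ((2 * C.a + 1).toNat + 1) * (C.H ×ˢ Finset.Ico 1 C.σ).card := by
    refine card_fib _ (fun v => (v.1, v.2.2)) (fun v => v.2.1) _ ?_ ?_ _ ?_
    · rintro ⟨κ, i, l⟩ hx ⟨κ', i', l'⟩ hy h1 h2
      rw [Prod.mk.injEq] at h1
      dsimp only at h1 h2
      rw [h1.1, h1.2, h2]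
    · rintro ⟨κ, i, l⟩ hx ⟨κ', i', l'⟩ hy h1
      have hx1 := (Finset.mem_filter.1 hx).1
      have hy1 := (Finset.mem_filter.1 hy).1
      obtain ⟨x, y, g1, g2, g3, g4⟩ := n_pos (Finset.mem_filter.1 hx).2
      obtain ⟨x', y', k1, k2, k3, k4⟩ := n_pos (Finset.mem_filter.1 hy).2
      rw [mem_IN] at hx1 hy1
      dsimp only at hx1 hy1 g1 g2 g3 g4 k1 k2 k3 k4 ⊢
      rw [Int.toNat_of_nonneg (by linarith)]
      have bnd : ∀ j ∈ C.H, 0 ≤ C.K * j + C.σ ∧ C.K * j + C.σ ≤ C.K * C.a := by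
        intro j hj
        have := h.Hbox j hj
        constructor
        · have := mul_nonneg hK.le (by linarith : 0 ≤ j)
          linarith
        · have : C.K * (j + 1) ≤ C.K * C.a := mul_le_mul_of_nonneg_left (by omega) (by linarith)
          linarith
      have b1 := bnd κ hx1.1
      have b2 := bnd κ' hy1.1
      refine steep_aux h hne hs g1 (le_trans ?_ g2) (le_trans ?_ g4.ge) (le_trans g4.le ?_) k1
        (le_trans k3 ?_) (le_trans ?_ k4.ge) (le_trans k4.le ?_)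
      · have : C.K * i ≤ C.K * i + 2 * l := by linarith [hx1.2.2.1]
        exact_mod_cast this
      · exact_mod_cast b1.1
      · exact_mod_cast b1.2
      · have : C.K * i' + 2 * l' + 2 ≤ C.K * (i' + 1) := by
          have := hy1.2.2.2
          have e : C.K * (i' + 1) = C.K * i' + C.K := by ring
          rw [e, hK2]
          omega
        exact_mod_cast this
      · exact_mod_cast b2.1
      · exact_mod_cast b2.2
    · intro v hv
      have := mem_IN.1 (Finset.mem_filter.1 hv).1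
      refine Finset.mem_product.2 ⟨this.1, Finset.mem_Ico.2 ⟨this.2.2.1, by linarith [this.2.2.2]⟩⟩
  rw [Finset.card_product, Int.card_Ico] at key
  have e1 : (((2 * C.a + 1).toNat : ℕ) : ℤ) = 2 * C.a + 1 := Int.toNat_of_nonneg (by linarith)
  have e2 : (((C.σ - 1).toNat : ℕ) : ℤ) = C.σ - 1 := Int.toNat_of_nonneg (by linarith)
  have key' : ((tN C α β γ).card : ℤ) ≤ ((((2 * C.a + 1).toNat : ℕ) : ℤ) + 1) *
      (C.H.card * (((C.σ - 1).toNat : ℕ) : ℤ)) := by exact_mod_cast key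
  rw [e1, e2] at key'
  linarith

end Pool.Agent.Y605.ST
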