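import Pool.Agent.Y605.ST.Basic

/-!
# Every point that is not the last one has an edge to a later point
-/

set_option autoImplicit false

namespace Pool.Agent.Y605.ST

open Pool.Agent.W982.TA

/-- a linear functional -/
def fx (μ ν : ℤ) (p : Pt) : ℤ := μ * p.1 + ν * p.2

/-- the functional on the plane -/
def fr (μ ν : ℤ) (z : ℝ × ℝ) : ℝ := μ * z.1 + ν * z.2

theorem fr_emb (μ ν : ℤ) (p : Pt) : fr μ ν (emb p) = (fx μ ν p : ℝ) := by
  simp [fr, fx, emb]

theorem fr_oseg {μ ν : ℤ} {p q : Pt} (h : fx μ ν p < fx μ ν q) {z : ℝ × ℝ} (hz : z ∈ oseg p q) :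
    (fx μ ν p : ℝ) < fr μ ν z ∧ fr μ ν z < (fx μ ν q : ℝ) := by
  obtain ⟨t, h0, h1, e1, e2⟩ := G4aux.mem_seg hz
  have h' : (fx μ ν p : ℝ) < fx μ ν q := by exact_mod_cast h
  have e : fr μ ν z = (1 - t) * (fx μ ν p : ℝ) + t * (fx μ ν q : ℝ) := by
    rw [← fr_emb, ← fr_emb]
    unfold fr
    rw [e1, e2]
    ring
  rw [e]
  constructor <;> nlinarith

theorem cross_of {S : Finset Pt} {a b c d : Pt} (h1 : IsSeg S a b) (h2 : IsSeg S c d)
    (hne : s(a, b) ≠ s(c, d)) (hnd : ¬ Disjoint (oseg a b) (oseg c d)) : PCross a b c d :=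
  g4 a b c d h1.2.2.1 h2.2.2.1 hne (h2.2.2.2 a h1.1) (h2.2.2.2 b h1.2.1) (h1.2.2.2 c h2.1)
    (h1.2.2.2 d h2.2.1) hnd

section
variable {S : Finset Pt} {T : Set (Sym2 Pt)} {μ ν : ℤ} {v : Pt}

theorem descent_right (hT : IsTriangulation S T)
    (hX : ∀ p ∈ S, ∀ q ∈ S, fx μ ν p = fx μ ν q → p = q) (hv : v ∈ S)
    (hno : ∀ w, s(v, w) ∈ T → fx μ ν w ≤ fx μ ν v) {a b : Pt} (hab : s(a, b) ∈ T)
    (ha : fx μ ν a < fx μ ν v) (hb : fx μ ν v < fx μ ν b) : 0 ≤ dt a b v := by
  classical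
  by_contra hcon
  push Not at hcon
  obtain ⟨⟨a, b⟩, hm, hmin⟩ := Finset.exists_min_image
    ((S ×ˢ S).filter fun x : Pt × Pt => s(x.1, x.2) ∈ T ∧ fx μ ν x.1 < fx μ ν v ∧
      fx μ ν v < fx μ ν x.2 ∧ dt x.1 x.2 v < 0)
    (fun x => (-(dt x.1 x.2 v) : ℚ) / (fx μ ν x.2 - fx μ ν x.1 : ℚ))
    ⟨(a, b), by
      rw [Finset.mem_filter, Finset.mem_product]
      exact ⟨⟨mem_left hT hab, mem_right hT hab⟩, hab, ha, hb, hcon⟩⟩
  rw [Finset.mem_filter, Finset.mem_product] at hm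
  obtain ⟨⟨haS, hbS⟩, hab, ha, hb, hd⟩ := hm
  have hmin' : ∀ x y : Pt, s(x, y) ∈ T → fx μ ν x < fx μ ν v → fx μ ν v < fx μ ν y →
      dt x y v < 0 → (-(dt a b v)) * (fx μ ν y - fx μ ν x) ≤ (-(dt x y v)) * (fx μ ν b - fx μ ν a) := by
    intro x y hxy hx hy hd'
    have h := hmin (x, y) (by
      rw [Finset.mem_filter, Finset.mem_product]
      exact ⟨⟨mem_left hT hxy, mem_right hT hxy⟩, hxy, hx, hy, hd'⟩)
    have p1 : (0 : ℚ) < (fx μ ν b - fx μ ν a : ℚ) := by
      have : (fx μ ν a : ℚ) < fx μ ν b := by exact_mod_cast ha.trans hb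
      linarith
    have p2 : (0 : ℚ) < (fx μ ν y - fx μ ν x : ℚ) := by
      have : (fx μ ν x : ℚ) < fx μ ν y := by exact_mod_cast hx.trans hy
      linarith
    rw [div_le_div_iff₀ p1 p2] at h
    exact_mod_cast h
  have hba : s(b, a) ∈ T := by rw [Sym2.eq_swap]; exact hab
  obtain ⟨c, hc⟩ := left_tri hT hba ⟨v, hv, by rw [dt_swap']; linarith⟩
  have hcS := mem_left hT hc.ca
  have hvb : 0 < dt b a v := by rw [dt_swap']; linarith
  by_cases hcv : c = v
  · subst hcv
    exact absurd (hno b hc.ca) (not_le.2 hb)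
  · have hni : ¬ InTri b a c v := by
      intro hi
      rcases hc.emp v hv hi with rfl | rfl | rfl
      · exact lt_irrefl _ hb
      · exact lt_irrefl _ ha
      · exact hcv rfl
    have hne : fx μ ν c ≠ fx μ ν v := fun h => hcv (hX c hcS v hv h)
    have bary : dt a c v * (fx μ ν b - fx μ ν v) + dt c b v * (fx μ ν a - fx μ ν v) +
        dt b a v * (fx μ ν c - fx μ ν v) = 0 := by
      unfold dt fx; ring
    have hD := hc.pos
    rcases lt_or_gt_of_ne hne with h | h
    · have h1 : dt c b v < 0 := by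
        by_contra hcon
        push Not at hcon
        have h2 : dt a c v < 0 := by
          by_contra h3
          push Not at h3
          exact hni ⟨hvb.le, h3, hcon⟩
        nlinarith [mul_neg_of_neg_of_pos h2 (sub_pos.2 hb),
          mul_nonneg hcon (sub_nonneg.2 ha.le), mul_pos hvb (sub_pos.2 h)]
      have h2 := hmin' c b hc.ca h hb h1
      have e : (-(dt c b v)) * (fx μ ν b - fx μ ν a) - (-(dt a b v)) * (fx μ ν b - fx μ ν c) =
          (fx μ ν v - fx μ ν b) * dt b a c := by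
        unfold dt fx; ring
      nlinarith [mul_pos (sub_pos.2 hb) hD]
    · have h1 : dt a c v < 0 := by
        by_contra hcon
        push Not at hcon
        have h2 : dt c b v < 0 := by
          by_contra h3
          push Not at h3
          exact hni ⟨hvb.le, hcon, h3⟩
        nlinarith [mul_nonneg hcon (sub_nonneg.2 hb.le),
          mul_pos_of_neg_of_neg h2 (sub_neg.2 ha), mul_pos hvb (sub_pos.2 h)]
      have h2 := hmin' a c hc.bc ha h h1
      have e : (-(dt a c v)) * (fx μ ν b - fx μ ν a) - (-(dt a b v)) * (fx μ ν c - fx μ ν a) =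
          -(fx μ ν v - fx μ ν a) * dt b a c := by
        unfold dt fx; ring
      nlinarith [mul_pos (sub_pos.2 ha) hD]

theorem descent_left (hT : IsTriangulation S T)
    (hX : ∀ p ∈ S, ∀ q ∈ S, fx μ ν p = fx μ ν q → p = q) (hv : v ∈ S)
    (hno : ∀ w, s(v, w) ∈ T → fx μ ν w ≤ fx μ ν v) {a b : Pt} (hab : s(a, b) ∈ T)
    (ha : fx μ ν a < fx μ ν v) (hb : fx μ ν v < fx μ ν b) : dt a b v ≤ 0 := by
  classical
  by_contra hcon
  push Not at hcon
  obtain ⟨⟨a, b⟩, hm, hmin⟩ := Finset.exists_min_image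
    ((S ×ˢ S).filter fun x : Pt × Pt => s(x.1, x.2) ∈ T ∧ fx μ ν x.1 < fx μ ν v ∧
      fx μ ν v < fx μ ν x.2 ∧ 0 < dt x.1 x.2 v)
    (fun x => (dt x.1 x.2 v : ℚ) / (fx μ ν x.2 - fx μ ν x.1 : ℚ))
    ⟨(a, b), by
      rw [Finset.mem_filter, Finset.mem_product]
      exact ⟨⟨mem_left hT hab, mem_right hT hab⟩, hab, ha, hb, hcon⟩⟩
  rw [Finset.mem_filter, Finset.mem_product] at hm
  obtain ⟨⟨haS, hbS⟩, hab, ha, hb, hd⟩ := hm
  have hmin' : ∀ x y : Pt, s(x, y) ∈ T → fx μ ν x < fx μ ν v → fx μ ν v < fx μ ν y →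
      0 < dt x y v → dt a b v * (fx μ ν y - fx μ ν x) ≤ dt x y v * (fx μ ν b - fx μ ν a) := by
    intro x y hxy hx hy hd'
    have h := hmin (x, y) (by
      rw [Finset.mem_filter, Finset.mem_product]
      exact ⟨⟨mem_left hT hxy, mem_right hT hxy⟩, hxy, hx, hy, hd'⟩)
    have p1 : (0 : ℚ) < (fx μ ν b - fx μ ν a : ℚ) := by
      have : (fx μ ν a : ℚ) < fx μ ν b := by exact_mod_cast ha.trans hb
      linarith
    have p2 : (0 : ℚ) < (fx μ ν y - fx μ ν x : ℚ) := by
      have : (fx μ ν x : ℚ) < fx μ ν y := by exact_mod_cast hx.trans hy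
      linarith
    rw [div_le_div_iff₀ p1 p2] at h
    exact_mod_cast h
  obtain ⟨c, hc⟩ := left_tri hT hab ⟨v, hv, hd⟩
  have hcS := mem_left hT hc.ca
  by_cases hcv : c = v
  · subst hcv
    exact absurd (hno b (by rw [Sym2.eq_swap]; exact hc.bc)) (not_le.2 hb)
  · have hni : ¬ InTri a b c v := by
      intro hi
      rcases hc.emp v hv hi with rfl | rfl | rfl
      · exact lt_irrefl _ ha
      · exact lt_irrefl _ hb
      · exact hcv rfl
    have hne : fx μ ν c ≠ fx μ ν v := fun h => hcv (hX c hcS v hv h)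
    have bary : dt b c v * (fx μ ν a - fx μ ν v) + dt c a v * (fx μ ν b - fx μ ν v) +
        dt a b v * (fx μ ν c - fx μ ν v) = 0 := by
      unfold dt fx; ring
    have hD := hc.pos
    rcases lt_or_gt_of_ne hne with h | h
    · have h1 : dt b c v < 0 := by
        by_contra hcon
        push Not at hcon
        have h2 : dt c a v < 0 := by
          by_contra h3
          push Not at h3
          exact hni ⟨hd.le, hcon, h3⟩
        nlinarith [mul_neg_of_neg_of_pos h2 (sub_pos.2 hb),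
          mul_nonneg hcon (sub_nonneg.2 ha.le), mul_pos hd (sub_pos.2 h)]
      have h2 := hmin' c b (by rw [Sym2.eq_swap]; exact hc.bc) h hb (by rw [dt_swap']; linarith)
      have e : dt c b v * (fx μ ν b - fx μ ν a) - dt a b v * (fx μ ν b - fx μ ν c) =
          (fx μ ν v - fx μ ν b) * dt a b c := by
        unfold dt fx; ring
      nlinarith [mul_pos (sub_pos.2 hb) hD]
    · have h1 : dt c a v < 0 := by
        by_contra hcon
        push Not at hcon
        have h2 : dt b c v < 0 := by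
          by_contra h3
          push Not at h3
          exact hni ⟨hd.le, h3, hcon⟩
        nlinarith [mul_nonneg hcon (sub_nonneg.2 hb.le),
          mul_pos_of_neg_of_neg h2 (sub_neg.2 ha), mul_pos hd (sub_pos.2 h)]
      have h2 := hmin' a c (by rw [Sym2.eq_swap]; exact hc.ca) ha h (by rw [dt_swap']; linarith)
      have e : dt a c v * (fx μ ν b - fx μ ν a) - dt a b v * (fx μ ν c - fx μ ν a) =
          -(fx μ ν v - fx μ ν a) * dt a b c := by
        unfold dt fx; ring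
      nlinarith [mul_pos (sub_pos.2 ha) hD]

/-- every point that is not the last one has an edge to a later point -/
theorem out_exists (hT : IsTriangulation S T)
    (hX : ∀ p ∈ S, ∀ q ∈ S, fx μ ν p = fx μ ν q → p = q) (hv : v ∈ S)
    (hmax : ∃ w ∈ S, fx μ ν v < fx μ ν w) : ∃ w, s(v, w) ∈ T ∧ fx μ ν v < fx μ ν w := by
  classical
  by_contra hno
  push Not at hno
  obtain ⟨w₁, hw₁, hvw₁⟩ := hmax
  obtain ⟨w, hw, hwmin⟩ := Finset.exists_min_image (S.filter fun w => fx μ ν v < fx μ ν w)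
    (fx μ ν) ⟨w₁, Finset.mem_filter.2 ⟨hw₁, hvw₁⟩⟩
  rw [Finset.mem_filter] at hw
  obtain ⟨hwS, hvw⟩ := hw
  have hwmin' : ∀ x ∈ S, fx μ ν v < fx μ ν x → fx μ ν w ≤ fx μ ν x := fun x hx h =>
    hwmin x (Finset.mem_filter.2 ⟨hx, h⟩)
  have hseg : IsSeg S v w := by
    refine ⟨hv, hwS, ?_, ?_⟩
    · rintro rfl
      exact lt_irrefl _ hvw
    · intro r hr hmem
      have h := fr_oseg hvw hmem
      rw [fr_emb] at h
      have h1 : fx μ ν v < fx μ ν r := by exact_mod_cast h.1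
      have h2 : fx μ ν r < fx μ ν w := by exact_mod_cast h.2
      exact absurd (hwmin' r hr h1) (not_le.2 h2)
  have hnT : s(v, w) ∉ T := fun h => absurd (hno w h) (not_le.2 hvw)
  have hex : ∃ p q, s(p, q) ∈ T ∧ s(v, w) ≠ s(p, q) ∧ ¬ Disjoint (oseg v w) (oseg p q) := by
    by_contra hcon
    push Not at hcon
    exact hnT (hT.maximal v w hseg fun p q h1 h2 => hcon p q h1 h2)
  obtain ⟨p, q, hpq, hne, hnd⟩ := hex
  -- order the endpoints
  have hex2 : ∃ p q, s(p, q) ∈ T ∧ s(v, w) ≠ s(p, q) ∧ ¬ Disjoint (oseg v w) (oseg p q) ∧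
      fx μ ν p < fx μ ν q := by
    have hpS := mem_left hT hpq
    have hqS := mem_right hT hpq
    have hne' : fx μ ν p ≠ fx μ ν q := fun h => (hT.seg _ _ hpq).2.2.1 (hX p hpS q hqS h)
    rcases lt_or_gt_of_ne hne' with h | h
    · exact ⟨p, q, hpq, hne, hnd, h⟩
    · refine ⟨q, p, by rw [Sym2.eq_swap]; exact hpq, by rw [Sym2.eq_swap (a := q)]; exact hne, ?_, h⟩
      rw [g5_oseg_symm q p]
      exact hnd
  obtain ⟨p, q, hpq, hne, hnd, hlt⟩ := hex2
  have hpS := mem_left hT hpq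
  have hqS := mem_right hT hpq
  have hX' := cross_of hseg (hT.seg _ _ hpq) hne hnd
  rw [Set.not_disjoint_iff] at hnd
  obtain ⟨z, hz1, hz2⟩ := hnd
  have k1 := fr_oseg hvw hz1
  have k2 := fr_oseg hlt hz2
  have h1 : fx μ ν p < fx μ ν w := by
    have : (fx μ ν p : ℝ) < fx μ ν w := k2.1.trans k1.2
    exact_mod_cast this
  have h2 : fx μ ν v < fx μ ν q := by
    have : (fx μ ν v : ℝ) < fx μ ν q := k1.1.trans k2.2
    exact_mod_cast this
  have h3 : fx μ ν p ≤ fx μ ν v := by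
    by_contra h
    push Not at h
    exact absurd (hwmin' p hpS h) (not_le.2 h1)
  have h4 : fx μ ν p < fx μ ν v := by
    refine lt_of_le_of_ne h3 fun h => ?_
    have := hX p hpS v hv h
    subst this
    exact absurd (hno q hpq) (not_le.2 h2)
  have h5 := descent_right hT hX hv hno hpq h4 h2
  have h6 := descent_left hT hX hv hno hpq h4 h2
  have h7 : dt p q v = 0 := le_antisymm h6 h5
  have h8 := hX'.2
  rw [h7, zero_mul] at h8
  exact lt_irrefl _ h8

end

end Pool.Agent.Y605.ST
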