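import Pool.Agent.Y605.ST.CfgOf
import Pool.Agent.H671R2.PolyAuto
import Pool.Agent.W481.TA_Q1

/-!
# The list of the points, and its computation
-/

set_option autoImplicit false

namespace Pool.Agent.Y605.ST

open Pool.Agent.NPC Pool.Agent.W982.TA

open scoped Classical

/-! ### The list -/

/-- the spacing -/
def cK (φ : List Cl) : ℕ := 2 * cS φ

/-- the size of the box -/
def bx (φ : List Cl) : ℕ := cK φ * (cA φ + cR φ) + 1

/-- the lattice points of the set -/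
def latB (φ : List Cl) (v : ℕ × ℕ) : Bool :=
  decide (v.1 % cK φ = 0) && (decide (v.2 % cK φ = 0) &&
    (((decide (v.1 / cK φ ≤ cA φ + cR φ) && decide (v.2 / cK φ ≤ cA φ)) ||
      (decide (v.1 / cK φ ≤ cA φ) && decide (v.2 / cK φ ≤ cA φ + cR φ))) &&
      !(decide ((v.1 / cK φ, v.2 / cK φ) ∈ Ml φ))))

/-- the ruler points of the set -/
def rulB (φ : List Cl) (J : List ℕ) (v : ℕ × ℕ) : Bool :=
  decide (v.2 % cK φ = cS φ) && (decide (v.2 / cK φ ∈ J) && (decide (v.1 % 2 = 0) &&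
    (!(decide (v.1 % cK φ = 0)) && (decide (cA φ ≤ v.1 / cK φ) &&
      decide (v.1 / cK φ < cA φ + cR φ)))))

/-- the points of the set -/
def Pl (φ : List Cl) : List (ℕ × ℕ) :=
  ((List.range (bx φ)).flatMap fun x => (List.range (bx φ)).map fun y => (x, y)).filter
    fun v => latB φ v || (rulB φ (Hl φ) v || rulB φ (Vl φ) (v.2, v.1))

section
variable {φ : List Cl}

theorem cS_pos : 16 ≤ cS φ := by unfold cS; omega

theorem cfgK : (cfg φ).K = ((cK φ : ℕ) : ℤ) := by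
  show 2 * ((cS φ : ℕ) : ℤ) = ((2 * cS φ : ℕ) : ℤ)
  push_cast
  ring

theorem lat_iff (v : ℕ × ℕ) : (∃ x y : ℤ, (cfg φ).Lat (x, y) ∧
    zt v = ((cfg φ).K * x, (cfg φ).K * y)) ↔ latB φ v = true := by
  have hK : 0 < cK φ := by unfold cK; have := cS_pos (φ := φ); omega
  have Lat_nat : ∀ x y : ℕ, (cfg φ).Lat ((x : ℤ), (y : ℤ)) ↔
      ((x ≤ cA φ + cR φ ∧ y ≤ cA φ) ∨ (x ≤ cA φ ∧ y ≤ cA φ + cR φ)) ∧ (x, y) ∉ Ml φ := by
    intro x y
    unfold Cfg.Lat
    have e1 : (cfg φ).a = (cA φ : ℤ) := rfl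
    have e2 : (cfg φ).r = (cR φ : ℤ) := rfl
    rw [e1, e2, mem_cM]
    constructor
    · rintro ⟨h1, h2, h3, h4⟩
      dsimp only at h1 h2 h3
      exact ⟨by omega, fun hm => h4 ⟨(x, y), hm, rfl⟩⟩
    · rintro ⟨h3, h4⟩
      refine ⟨by dsimp only; omega, by dsimp only; omega, by dsimp only; omega, ?_⟩
      rintro ⟨w, hw, he⟩
      have : w = (x, y) := zt_inj he.symm
      rw [this] at hw
      exact h4 hw
  unfold latB
  simp only [Bool.and_eq_true, Bool.or_eq_true, decide_eq_true_eq, Bool.not_eq_true',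
    decide_eq_false_iff_not]
  constructor
  · rintro ⟨x, y, hL, he⟩
    have hx0 := hL.1
    have hy0 := hL.2.1
    dsimp only at hx0 hy0
    obtain ⟨x', rfl⟩ := Int.eq_ofNat_of_zero_le hx0
    obtain ⟨y', rfl⟩ := Int.eq_ofNat_of_zero_le hy0
    rw [cfgK] at he
    unfold zt at he
    rw [Prod.mk.injEq] at he
    have h1 : v.1 = cK φ * x' := by exact_mod_cast he.1
    have h2 : v.2 = cK φ * y' := by exact_mod_cast he.2
    rw [h1, h2, Nat.mul_div_cancel_left _ hK, Nat.mul_div_cancel_left _ hK, Nat.mul_mod_right,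
      Nat.mul_mod_right]
    have := (Lat_nat x' y').1 hL
    exact ⟨rfl, rfl, this.1, this.2⟩
  · rintro ⟨h1, h2, h3, h4⟩
    refine ⟨((v.1 / cK φ : ℕ) : ℤ), ((v.2 / cK φ : ℕ) : ℤ), (Lat_nat _ _).2 ⟨h3, h4⟩, ?_⟩
    rw [cfgK]
    unfold zt
    rw [Prod.mk.injEq]
    have e1 := Nat.div_add_mod v.1 (cK φ)
    have e2 := Nat.div_add_mod v.2 (cK φ)
    rw [h1, add_zero] at e1
    rw [h2, add_zero] at e2
    constructor
    · exact_mod_cast e1.symm
    · exact_mod_cast e2.symm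

theorem rul_iff (J : List ℕ) (v : ℕ × ℕ) : (∃ j i l : ℤ,
    j ∈ J.toFinset.image (fun n : ℕ => (n : ℤ)) ∧ (cfg φ).a ≤ i ∧ i < (cfg φ).a + (cfg φ).r ∧
    1 ≤ l ∧ l < (cfg φ).σ ∧ zt v = ((cfg φ).K * i + 2 * l, (cfg φ).K * j + (cfg φ).σ)) ↔
    rulB φ J v = true := by
  have hS := cS_pos (φ := φ)
  have hK2 : cK φ = 2 * cS φ := rfl
  have hK : 0 < cK φ := by omega
  have e1 : (cfg φ).a = (cA φ : ℤ) := rfl
  have e2 : (cfg φ).r = (cR φ : ℤ) := rfl
  have e3 : (cfg φ).σ = (cS φ : ℤ) := rfl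
  unfold rulB
  simp only [Bool.and_eq_true, decide_eq_true_eq, Bool.not_eq_true', decide_eq_false_iff_not]
  rw [e1, e2, e3, cfgK]
  constructor
  · rintro ⟨j, i, l, hj, h1, h2, h3, h4, he⟩
    obtain ⟨j', hj', rfl⟩ := mem_cast.1 hj
    obtain ⟨i', rfl⟩ := Int.eq_ofNat_of_zero_le (by omega : 0 ≤ i)
    obtain ⟨l', rfl⟩ := Int.eq_ofNat_of_zero_le (by omega : 0 ≤ l)
    unfold zt at he
    rw [Prod.mk.injEq] at he
    have g1 : v.1 = cK φ * i' + 2 * l' := by exact_mod_cast he.1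
    have g2 : v.2 = cK φ * j' + cS φ := by exact_mod_cast he.2
    have m1 : v.1 / cK φ = i' := by
      rw [g1, Nat.mul_add_div hK, Nat.div_eq_of_lt (by omega), add_zero]
    have m2 : v.1 % cK φ = 2 * l' := by
      rw [g1, Nat.mul_add_mod, Nat.mod_eq_of_lt (by omega)]
    have m3 : v.2 / cK φ = j' := by
      rw [g2, Nat.mul_add_div hK, Nat.div_eq_of_lt (by omega), add_zero]
    have m4 : v.2 % cK φ = cS φ := by
      rw [g2, Nat.mul_add_mod, Nat.mod_eq_of_lt (by omega)]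
    have m5 : v.1 % 2 = 0 := by
      rw [g1, hK2]
      have : 2 * cS φ * i' = 2 * (cS φ * i') := by ring
      omega
    rw [m1, m2, m3, m4]
    exact ⟨rfl, hj', m5, by omega, by omega, by omega⟩
  · rintro ⟨h1, h2, h3, h4, h5, h6⟩
    have d1 := Nat.div_add_mod v.1 (cK φ)
    have d2 := Nat.div_add_mod v.2 (cK φ)
    have d3 := Nat.mod_lt v.1 hK
    have d4 : v.1 % cK φ % 2 = 0 := by
      have : 2 * cS φ * (v.1 / cK φ) = 2 * (cS φ * (v.1 / cK φ)) := by ring
      rw [hK2] at d1 this ⊢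
      omega
    refine ⟨((v.2 / cK φ : ℕ) : ℤ), ((v.1 / cK φ : ℕ) : ℤ), ((v.1 % cK φ / 2 : ℕ) : ℤ),
      mem_cast.2 ⟨_, h2, rfl⟩, by omega, by omega, by omega, by omega, ?_⟩
    unfold zt
    rw [Prod.mk.injEq]
    have f1 : v.1 = cK φ * (v.1 / cK φ) + 2 * (v.1 % cK φ / 2) := by omega
    have f2 : v.2 = cK φ * (v.2 / cK φ) + cS φ := by omega
    constructor
    · exact_mod_cast f1
    · exact_mod_cast f2

theorem mem_Pl {v : ℕ × ℕ} : v ∈ Pl φ ↔ (v.1 < bx φ ∧ v.2 < bx φ) ∧ (cfg φ).In (zt v) := by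
  unfold Pl
  rw [List.mem_filter]
  have h1 : v ∈ ((List.range (bx φ)).flatMap fun x => (List.range (bx φ)).map fun y => (x, y)) ↔
      v.1 < bx φ ∧ v.2 < bx φ := by
    simp only [List.mem_flatMap, List.mem_map, List.mem_range]
    constructor
    · rintro ⟨x, hx, y, hy, rfl⟩
      exact ⟨hx, hy⟩
    · rintro ⟨hx, hy⟩
      exact ⟨v.1, hx, v.2, hy, rfl⟩
  rw [h1]
  refine and_congr_right fun _ => ?_
  rw [Bool.or_eq_true, Bool.or_eq_true, ← lat_iff, ← rul_iff, ← rul_iff]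
  unfold Cfg.In
  refine or_congr Iff.rfl (or_congr Iff.rfl ?_)
  constructor
  · rintro ⟨j, i, l, h1, h2, h3, h4, h5, h6⟩
    refine ⟨j, i, l, h1, h2, h3, h4, h5, ?_⟩
    unfold zt at h6 ⊢
    rw [Prod.mk.injEq] at h6 ⊢
    exact ⟨h6.2, h6.1⟩
  · rintro ⟨j, i, l, h1, h2, h3, h4, h5, h6⟩
    refine ⟨j, i, l, h1, h2, h3, h4, h5, ?_⟩
    unfold zt at h6 ⊢
    rw [Prod.mk.injEq] at h6 ⊢
    exact ⟨h6.2, h6.1⟩

theorem P_eq : (cfg φ).P = (Pl φ).toFinset.image zt := by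
  ext p
  rw [Cfg.mem_P (cfg_ok φ), Finset.mem_image]
  constructor
  · intro hp
    obtain ⟨⟨h1, h2⟩, h3, h4⟩ := Cfg.In_box (cfg_ok φ) hp
    have e : (cfg φ).K * ((cfg φ).a + (cfg φ).r) = ((cK φ * (cA φ + cR φ) : ℕ) : ℤ) := by
      rw [cfgK]
      show ((cK φ : ℕ) : ℤ) * (((cA φ : ℕ) : ℤ) + ((cR φ : ℕ) : ℤ)) = _
      push_cast
      ring
    rw [e] at h2 h4
    obtain ⟨x, hx⟩ := Int.eq_ofNat_of_zero_le h1
    obtain ⟨y, hy⟩ := Int.eq_ofNat_of_zero_le h3
    have hp' : p = zt (x, y) := Prod.ext hx hy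
    refine ⟨(x, y), List.mem_toFinset.2 (mem_Pl.2 ⟨?_, hp' ▸ hp⟩), hp'.symm⟩
    unfold bx
    dsimp only
    omega
  · rintro ⟨v, hv, rfl⟩
    exact (mem_Pl.1 (List.mem_toFinset.1 hv)).2

theorem nodup_Pl : (Pl φ).Nodup := by
  unfold Pl
  refine List.Nodup.filter _ ?_
  rw [List.nodup_flatMap]
  refine ⟨fun x _ => List.Nodup.map (fun a b h => (Prod.mk.inj h).2) List.nodup_range, ?_⟩
  refine List.Nodup.pairwise_of_forall_ne List.nodup_range ?_
  intro x _ y _ hxy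
  rw [Function.onFun, List.disjoint_left]
  intro p hp hp'
  obtain ⟨u, -, rfl⟩ := List.mem_map.1 hp
  obtain ⟨w, -, hw⟩ := List.mem_map.1 hp'
  exact hxy (Prod.mk.inj hw).1.symm

end

/-! ### The computation -/

section
variable {α : Type} [TEnc α]

theorem lc_poly {l : α → Lit ℕ} (h : Poly l) : Poly (fun x => lc (l x)) := by
  unfold lc
  fun_prop

theorem nL_poly {φ : α → List Cl} (h : Poly φ) : Poly (fun x => nL (φ x)) := by
  unfold nL
  fun_prop

theorem nL_upoly {φ : α → List Cl} (h : Poly φ) : UPoly (fun x => nL (φ x)) :=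
  UPoly.mul (UPoly.const 6) (UPoly.length h)

theorem nN_upoly {φ : α → List Cl} (h : Poly φ) : UPoly (fun x => nN (φ x)) :=
  UPoly.mul (nL_upoly h) (UPoly.length h)

theorem nN_poly {φ : α → List Cl} (h : Poly φ) : Poly (fun x => nN (φ x)) := (nN_upoly h).toPoly

attribute [local fun_prop] lc_poly nL_poly nN_poly
attribute [local irreducible] lc nL nN

theorem occ_poly {φ : α → List Cl} {ν : α → ℕ} (h : Poly φ) (hν : Poly ν) :
    Poly (fun x => occ (φ x) (ν x)) := by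
  unfold occ
  fun_prop

theorem prow_poly {φ : α → List Cl} {ν : α → ℕ} (h : Poly φ) (hν : Poly ν) :
    Poly (fun x => prow (φ x) (ν x)) := by
  unfold prow
  fun_prop

attribute [local fun_prop] occ_poly prow_poly
attribute [local irreducible] occ prow

theorem pz_poly {ν : α → ℕ} (hν : Poly ν) : Poly (fun x => pz (ν x)) := by
  unfold pz
  fun_prop

theorem pw_poly {φ : α → List Cl} {ν : α → ℕ} (h : Poly φ) (hν : Poly ν) :
    Poly (fun x => pw (φ x) (ν x)) := by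
  unfold pw
  fun_prop

theorem pp_poly {φ : α → List Cl} {ν : α → ℕ} (h : Poly φ) (hν : Poly ν) :
    Poly (fun x => pp (φ x) (ν x)) := by
  unfold pp
  fun_prop

theorem rN_poly {φ : α → List Cl} (h : Poly φ) : Poly (fun x => List.range (nN (φ x))) :=
  (nN_upoly h).range

theorem rm_poly {φ : α → List Cl} (h : Poly φ) : Poly (fun x => List.range (φ x).length) :=
  (UPoly.length h).range

theorem r3m_poly {φ : α → List Cl} (h : Poly φ) : Poly (fun x => List.range (3 * (φ x).length)) :=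
  (UPoly.mul (UPoly.const 3) (UPoly.length h)).range

attribute [local fun_prop] pz_poly pw_poly pp_poly rN_poly rm_poly r3m_poly
attribute [local irreducible] pz pw pp

theorem Ml_poly {φ : α → List Cl} (h : Poly φ) : Poly (fun x => Ml (φ x)) := by
  unfold Ml
  fun_prop

theorem Hl_poly {φ : α → List Cl} (h : Poly φ) : Poly (fun x => Hl (φ x)) := by
  unfold Hl
  fun_prop

theorem Vl_poly {φ : α → List Cl} (h : Poly φ) : Poly (fun x => Vl (φ x)) := by
  unfold Vl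
  fun_prop

theorem cA_upoly {φ : α → List Cl} (h : Poly φ) : UPoly (fun x => cA (φ x)) :=
  UPoly.add (UPoly.add (UPoly.add (UPoly.mul (UPoly.const 4) (nN_upoly h))
    (UPoly.mul (UPoly.const 4) (nL_upoly h))) (UPoly.mul (UPoly.const 4) (UPoly.length h)))
    (UPoly.const 4)

theorem cR_upoly {φ : α → List Cl} (h : Poly φ) : UPoly (fun x => cR (φ x)) :=
  UPoly.mul (UPoly.const 12) (UPoly.mul (UPoly.add (cA_upoly h) (UPoly.const 1))
    (UPoly.add (cA_upoly h) (UPoly.const 1)))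

theorem cS_upoly {φ : α → List Cl} (h : Poly φ) : UPoly (fun x => cS (φ x)) :=
  UPoly.mul (UPoly.const 16) (UPoly.add (cA_upoly h) (UPoly.const 1))

theorem cK_upoly {φ : α → List Cl} (h : Poly φ) : UPoly (fun x => cK (φ x)) :=
  UPoly.mul (UPoly.const 2) (cS_upoly h)

theorem bx_upoly {φ : α → List Cl} (h : Poly φ) : UPoly (fun x => bx (φ x)) :=
  UPoly.add (UPoly.mul (cK_upoly h) (UPoly.add (cA_upoly h) (cR_upoly h))) (UPoly.const 1)

theorem cA_poly {φ : α → List Cl} (h : Poly φ) : Poly (fun x => cA (φ x)) := (cA_upoly h).toPoly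

theorem cR_poly {φ : α → List Cl} (h : Poly φ) : Poly (fun x => cR (φ x)) := (cR_upoly h).toPoly

theorem cS_poly {φ : α → List Cl} (h : Poly φ) : Poly (fun x => cS (φ x)) := (cS_upoly h).toPoly

theorem cK_poly {φ : α → List Cl} (h : Poly φ) : Poly (fun x => cK (φ x)) := (cK_upoly h).toPoly

theorem rb_poly {φ : α → List Cl} (h : Poly φ) : Poly (fun x => List.range (bx (φ x))) :=
  (bx_upoly h).range

attribute [local fun_prop] Ml_poly Hl_poly Vl_poly cA_poly cR_poly cS_poly cK_poly rb_poly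
attribute [local irreducible] Ml Hl Vl cA cR cS cK bx

theorem latB_poly {φ : α → List Cl} {v : α → ℕ × ℕ} (h : Poly φ) (hv : Poly v) :
    Poly (fun x => latB (φ x) (v x)) := by
  unfold latB
  fun_prop

theorem rulB_poly {φ : α → List Cl} {J : α → List ℕ} {v : α → ℕ × ℕ} (h : Poly φ) (hJ : Poly J)
    (hv : Poly v) : Poly (fun x => rulB (φ x) (J x) (v x)) := by
  unfold rulB
  fun_prop

attribute [local fun_prop] latB_poly rulB_poly
attribute [local irreducible] latB rulB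

theorem Pl_poly {φ : α → List Cl} (h : Poly φ) : Poly (fun x => Pl (φ x)) := by
  unfold Pl
  fun_prop

/-- natural points as rational points -/
def qz (v : ℕ × ℕ) : ℚ × ℚ := ((v.1 : ℚ), (v.2 : ℚ))

theorem poly_nq {x : α → ℕ} (hx : Poly x) : Poly (fun a => ((x a : ℕ) : ℚ)) := by
  have h : Poly (fun a => (((x a : ℕ) : ℤ), (1 : ℕ))) :=
    NPC.Poly.pair (NPC.Poly.natCast_int hx) (NPC.Poly.const 1)
  have h2 : Poly (fun a => (((x a : ℕ) : ℚ).num, ((x a : ℕ) : ℚ).den)) :=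
    h.congr fun a => by simp
  exact h2

theorem qz_poly {v : α → ℕ × ℕ} (hv : Poly v) : Poly (fun x => qz (v x)) :=
  NPC.Poly.pair (poly_nq (NPC.Poly.fst hv)) (poly_nq (NPC.Poly.snd hv))

/-- the bound -/
def kk (φ : List Cl) : ℕ := 3 * (cR φ * (cS φ - 1)) + 2 * (cA φ + cR φ)

theorem kk_poly {φ : α → List Cl} (h : Poly φ) : Poly (fun x => kk (φ x)) := by
  unfold kk
  fun_prop

/-- the instance of a formula -/
def inst (φ : List Cl) : List (ℚ × ℚ) × ℤ := ((Pl φ).map fun v => qz v, ((kk φ : ℕ) : ℤ))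

theorem inst_poly : Poly inst := by
  unfold inst
  refine NPC.Poly.pair (NPC.Poly.map (F := fun _ v => qz v) (Pl_poly NPC.Poly.id) ?_)
    (NPC.Poly.natCast_int (kk_poly NPC.Poly.id))
  exact qz_poly (NPC.Poly.snd NPC.Poly.id)

end

end Pool.Agent.Y605.ST
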