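import Pool.Agent.Y605.ST.Cfg

/-!
# Rows of the point set
-/

set_option autoImplicit false

namespace Pool.Agent.Y605.ST

open Pool.Agent.W982.TA

open scoped Classical

theorem mem_hor {X₁ X₂ Y : ℤ} (h : X₁ < X₂) {z : ℝ × ℝ} :
    z ∈ oseg (X₁, Y) (X₂, Y) ↔ (X₁ : ℝ) < z.1 ∧ z.1 < X₂ ∧ z.2 = Y := by
  have h' : (X₁ : ℝ) < X₂ := by exact_mod_cast h
  constructor
  · intro hz
    obtain ⟨t, h0, h1, e1, e2⟩ := G4aux.mem_seg hz
    simp only [emb] at e1 e2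
    refine ⟨?_, ?_, ?_⟩
    · rw [e1]; nlinarith
    · rw [e1]; nlinarith
    · rw [e2]; ring
  · rintro ⟨h1, h2, h3⟩
    have h4 : (0 : ℝ) < X₂ - X₁ := by linarith
    refine G4aux.seg_mem ((z.1 - X₁) / (X₂ - X₁)) (div_pos (by linarith) h4)
      ((div_lt_one h4).2 (by linarith)) ?_ ?_
    · simp only [emb]
      field_simp
      ring
    · simp only [emb]
      rw [h3]; ring

theorem mem_ver {X Y₁ Y₂ : ℤ} (h : Y₁ < Y₂) {z : ℝ × ℝ} :
    z ∈ oseg (X, Y₁) (X, Y₂) ↔ (Y₁ : ℝ) < z.2 ∧ z.2 < Y₂ ∧ z.1 = X := by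
  have h' : (Y₁ : ℝ) < Y₂ := by exact_mod_cast h
  constructor
  · intro hz
    obtain ⟨t, h0, h1, e1, e2⟩ := G4aux.mem_seg hz
    simp only [emb] at e1 e2
    refine ⟨?_, ?_, ?_⟩
    · rw [e2]; nlinarith
    · rw [e2]; nlinarith
    · rw [e1]; ring
  · rintro ⟨h1, h2, h3⟩
    have h4 : (0 : ℝ) < Y₂ - Y₁ := by linarith
    refine G4aux.seg_mem ((z.2 - Y₁) / (Y₂ - Y₁)) (div_pos (by linarith) h4)
      ((div_lt_one h4).2 (by linarith)) ?_ ?_
    · simp only [emb]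
      rw [h3]; ring
    · simp only [emb]
      field_simp
      ring

variable {C : Cfg}

/-- the long horizontal edge through a missing point -/
def longH (C : Cfg) (p : ℤ × ℤ) : Sym2 Pt :=
  s((C.K * (p.1 - 1), C.K * p.2), (C.K * (p.1 + 1), C.K * p.2))

/-- the long vertical edge through a missing point -/
def longV (C : Cfg) (p : ℤ × ℤ) : Sym2 Pt :=
  s((C.K * p.1, C.K * (p.2 - 1)), (C.K * p.1, C.K * (p.2 + 1)))

theorem Cfg.lat_near (h : C.OK) {x y : ℤ} (hM : (x, y) ∈ C.M) (s t : ℤ) (hs1 : -1 ≤ s) (hs2 : s ≤ 1)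
    (ht1 : -1 ≤ t) (ht2 : t ≤ 1) (hst : s ≠ 0 ∨ t ≠ 0) : C.Lat (x + s, y + t) := by
  have hb := h.Mbox _ hM
  have hr := h.rpos
  dsimp only at hb
  refine ⟨?_, ?_, Or.inl ⟨?_, ?_⟩, ?_⟩
  · dsimp only; linarith
  · dsimp only; linarith
  · dsimp only; linarith
  · dsimp only; linarith
  · intro hM'
    have := h.iso _ hM' _ hM (by dsimp only; linarith) (by dsimp only; linarith)
      (by dsimp only; linarith) (by dsimp only; linarith)
    rw [Prod.mk.injEq] at this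
    omega

theorem Klt (h : C.OK) {x y : ℤ} : C.K * x < C.K * y ↔ x < y :=
  mul_lt_mul_iff_right₀ (Cfg.K_pos h)

theorem Kle (h : C.OK) {x y : ℤ} : C.K * x ≤ C.K * y ↔ x ≤ y :=
  mul_le_mul_iff_right₀ (Cfg.K_pos h)

theorem KltR (h : C.OK) {x y : ℤ} : ((C.K * x : ℤ) : ℝ) < ((C.K * y : ℤ) : ℝ) ↔ x < y := by
  rw [Int.cast_lt, Klt h]

/-- a segment of the row that meets the gap of a missing point -/
theorem row_seg (h : C.OK) {u w : Pt} (hs : IsSeg C.P u w) {x y : ℤ} (hy : y < C.a)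
    (hu : u.2 = C.K * y) (hw : w.2 = C.K * y) (hM : (x, y) ∈ C.M) {z : ℝ × ℝ} (hz : z ∈ oseg u w)
    (h1 : ((C.K * (x - 1) : ℤ) : ℝ) < z.1) (h2 : z.1 < ((C.K * (x + 1) : ℤ) : ℝ)) :
    s(u, w) = longH C (x, y) := by
  -- order the endpoints
  obtain ⟨x₁, hL₁, hu'⟩ := Cfg.row_lat h ((Cfg.mem_P h).1 hs.1) hu hy
  obtain ⟨x₂, hL₂, hw'⟩ := Cfg.row_lat h ((Cfg.mem_P h).1 hs.2.1) hw hy
  have key : ∀ x₁ x₂ : ℤ, C.Lat (x₁, y) → C.Lat (x₂, y) →
      IsSeg C.P (C.K * x₁, C.K * y) (C.K * x₂, C.K * y) →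
      z ∈ oseg (C.K * x₁, C.K * y) (C.K * x₂, C.K * y) → x₁ < x₂ → x₁ = x - 1 ∧ x₂ = x + 1 := by
    intro x₁ x₂ hL₁ hL₂ hs hz hlt
    have hlt' : C.K * x₁ < C.K * x₂ := (Klt h).2 hlt
    rw [mem_hor hlt'] at hz
    obtain ⟨a1, a2, a3⟩ := hz
    have b1 : x₁ < x + 1 := (KltR h).1 (a1.trans h2)
    have b2 : x - 1 < x₂ := (KltR h).1 (h1.trans a2)
    have c1 : ¬ x₁ < x - 1 := by
      intro hc
      have hL := Cfg.lat_near h hM (-1) 0 (by norm_num) (by norm_num) (by norm_num) (by norm_num)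
        (Or.inl (by norm_num))
      have e1 : x + -1 = x - 1 := by ring
      have e2 : y + 0 = y := by ring
      rw [e1, e2] at hL
      refine hs.2.2.2 _ (Cfg.mem_lat h hL) ?_
      rw [mem_hor hlt']
      refine ⟨?_, ?_, ?_⟩
      · show ((C.K * x₁ : ℤ) : ℝ) < ((C.K * (x - 1) : ℤ) : ℝ)
        exact (KltR h).2 hc
      · show ((C.K * (x - 1) : ℤ) : ℝ) < ((C.K * x₂ : ℤ) : ℝ)
        exact (KltR h).2 b2
      · rfl
    have c2 : ¬ x + 1 < x₂ := by
      intro hc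
      have hL := Cfg.lat_near h hM 1 0 (by norm_num) (by norm_num) (by norm_num) (by norm_num)
        (Or.inl (by norm_num))
      have e2 : y + 0 = y := by ring
      rw [e2] at hL
      refine hs.2.2.2 _ (Cfg.mem_lat h hL) ?_
      rw [mem_hor hlt']
      refine ⟨?_, ?_, ?_⟩
      · show ((C.K * x₁ : ℤ) : ℝ) < ((C.K * (x + 1) : ℤ) : ℝ)
        exact (KltR h).2 b1
      · show ((C.K * (x + 1) : ℤ) : ℝ) < ((C.K * x₂ : ℤ) : ℝ)
        exact (KltR h).2 hc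
      · rfl
    have d1 : x₁ ≠ x := by
      rintro rfl
      exact hL₁.2.2.2 hM
    have d2 : x₂ ≠ x := by
      rintro rfl
      exact hL₂.2.2.2 hM
    omega
  subst hu'
  subst hw'
  have hne : x₁ ≠ x₂ := by
    rintro rfl
    exact hs.2.2.1 rfl
  unfold longH
  rcases lt_or_gt_of_ne hne with h3 | h3
  · obtain ⟨e1, e2⟩ := key x₁ x₂ hL₁ hL₂ hs hz h3
    rw [e1, e2]
  · rw [g5_oseg_symm] at hz
    obtain ⟨e1, e2⟩ := key x₂ x₁ hL₂ hL₁ (g5_isSeg_symm hs) hz h3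
    rw [e1, e2, Sym2.eq_swap]

/-- the long horizontal edge is a segment -/
theorem longH_seg (h : C.OK) {A : Finset Pt} (hA : A ⊆ C.P) {x y : ℤ} (hM : (x, y) ∈ C.M)
    (hrow : ∀ p ∈ C.P, p.2 = C.K * y → p ∈ A) :
    IsSeg A (C.K * (x - 1), C.K * y) (C.K * (x + 1), C.K * y) := by
  have hL1 := Cfg.lat_near h hM (-1) 0 (by norm_num) (by norm_num) (by norm_num) (by norm_num)
        (Or.inl (by norm_num))
  have hL2 := Cfg.lat_near h hM 1 0 (by norm_num) (by norm_num) (by norm_num) (by norm_num)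
        (Or.inl (by norm_num))
  have e1 : x + -1 = x - 1 := by ring
  have e2 : y + 0 = y := by ring
  rw [e1, e2] at hL1
  rw [e2] at hL2
  have hlt : C.K * (x - 1) < C.K * (x + 1) := (Klt h).2 (by linarith)
  refine ⟨hrow _ (Cfg.mem_lat h hL1) rfl, hrow _ (Cfg.mem_lat h hL2) rfl, ?_, ?_⟩
  · intro he
    rw [Prod.mk.injEq] at he
    linarith [he.1]
  · intro q hq hmem
    rw [mem_hor hlt] at hmem
    obtain ⟨a1, a2, a3⟩ := hmem
    have hb := h.Mbox _ hM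
    dsimp only at hb
    have a3' : q.2 = C.K * y := by
      have : ((q.2 : ℤ) : ℝ) = ((C.K * y : ℤ) : ℝ) := a3
      exact_mod_cast this
    obtain ⟨x', hL, rfl⟩ := Cfg.row_lat h ((Cfg.mem_P h).1 (hA hq)) a3' (by linarith)
    have b1 : x - 1 < x' := (KltR h).1 a1
    have b2 : x' < x + 1 := (KltR h).1 a2
    have : x' = x := by omega
    subst this
    exact hL.2.2.2 hM

theorem isSeg_sub {S A : Finset Pt} (hA : A ⊆ S) {p q : Pt} (hs : IsSeg S p q) (hp : p ∈ A)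
    (hq : q ∈ A) : IsSeg A p q := ⟨hp, hq, hs.2.2.1, fun r hr => hs.2.2.2 r (hA hr)⟩

/-- the long horizontal edges of different missing points are disjoint -/
theorem longH_disj (h : C.OK) {x y x' y' : ℤ} (hM : (x, y) ∈ C.M) (hM' : (x', y') ∈ C.M)
    {z : ℝ × ℝ} (hz : z ∈ oseg (C.K * (x - 1), C.K * y) (C.K * (x + 1), C.K * y))
    (hz' : z ∈ oseg (C.K * (x' - 1), C.K * y') (C.K * (x' + 1), C.K * y')) :
    (x, y) = (x', y') := by
  rw [mem_hor ((Klt h).2 (by linarith))] at hz hz'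
  obtain ⟨a1, a2, a3⟩ := hz
  obtain ⟨b1, b2, b3⟩ := hz'
  have e : C.K * y = C.K * y' := by
    have : ((C.K * y : ℤ) : ℝ) = ((C.K * y' : ℤ) : ℝ) := a3.symm.trans b3
    exact_mod_cast this
  have e' := mul_inj (Cfg.K_pos h) e
  subst e'
  have c1 : x - 1 < x' + 1 := (KltR h).1 (a1.trans b2)
  have c2 : x' - 1 < x + 1 := (KltR h).1 (b1.trans a2)
  by_contra hne
  have h3 : ¬ (x - x' ≤ 1 ∧ x' - x ≤ 1) := by
    rintro ⟨h4, h5⟩
    exact hne (h.iso _ hM _ hM' h4 h5 (by simp) (by simp))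
  omega

theorem longH_inj (h : C.OK) : Function.Injective (longH C) := by
  rintro ⟨x, y⟩ ⟨x', y'⟩ he
  unfold longH at he
  dsimp only at he
  have hK := Cfg.K_pos h
  rcases Sym2.eq_iff.1 he with ⟨h1, h2⟩ | ⟨h1, h2⟩
  · rw [Prod.mk.injEq] at h1
    have e1 := mul_inj hK h1.1
    have e2 := mul_inj hK h1.2
    rw [Prod.mk.injEq]
    exact ⟨by linarith, e2⟩
  · rw [Prod.mk.injEq] at h1 h2
    have e1 := mul_inj hK h1.1
    have e2 := mul_inj hK h2.1
    omega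

/-- the number of missing points of a row -/
noncomputable def Cfg.R (C : Cfg) (y : ℤ) : ℕ := (C.M.filter fun p => p.2 = y).card

/-- the number of edges on one side of a row, if no long horizontal edge is used -/
theorem side_bound (h : C.OK) {T : Set (Sym2 Pt)} (hT : IsTriangulation C.P T) (ε : ℤ)
    (hε : ε = 1 ∨ ε = -1) {y : ℤ} (hy : y < C.a) {A : Finset Pt} (hA : A ⊆ C.P)
    (hside : ∀ p ∈ A, 0 ≤ ε * (p.2 - C.K * y)) (hrow : ∀ p ∈ C.P, p.2 = C.K * y → p ∈ A)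
    (hmiss : ∀ p ∈ C.M, p.2 = y → longH C p ∉ T) (hNC : NC A) :
    ({e | e ∈ T ∧ ∀ p ∈ e, p ∈ A} : Set (Sym2 Pt)).ncard + C.R y + 3 + hb A ≤ 3 * A.card := by
  set F1 : Set (Sym2 Pt) := {e | e ∈ T ∧ ∀ p ∈ e, p ∈ A} with hF1
  set F2 : Set (Sym2 Pt) := ↑((C.M.filter fun p => p.2 = y).image (longH C)) with hF2
  have c2 : F2.ncard = C.R y := by
    rw [hF2, Set.ncard_coe_finset, Finset.card_image_of_injective _ (longH_inj h)]
    rfl
  have memF2 : ∀ e, e ∈ F2 ↔ ∃ x, (x, y) ∈ C.M ∧ longH C (x, y) = e := by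
    intro e
    rw [hF2, Finset.mem_coe, Finset.mem_image]
    constructor
    · rintro ⟨⟨x, y'⟩, h1, h2⟩
      rw [Finset.mem_filter] at h1
      obtain ⟨h3, h4⟩ := h1
      dsimp only at h4
      subst h4
      exact ⟨x, h3, h2⟩
    · rintro ⟨x, h1, h2⟩
      exact ⟨(x, y), Finset.mem_filter.2 ⟨h1, rfl⟩, h2⟩
  have hdis : Disjoint F1 F2 := by
    rw [Set.disjoint_left]
    rintro e he1 he2
    obtain ⟨x, hx, rfl⟩ := (memF2 e).1 he2
    exact hmiss _ hx rfl he1.1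
  have hfin1 : F1.Finite := (tri_finite hT).subset fun e he => he.1
  have hfin2 : F2.Finite := Finset.finite_toSet _
  have hcard : (F1 ∪ F2).ncard = F1.ncard + C.R y := by
    rw [Set.ncard_union_eq hdis hfin1 hfin2, c2]
  rw [← hcard]
  have mix : ∀ u w : Pt, s(u, w) ∈ F1 → ∀ x, (x, y) ∈ C.M →
      Disjoint (oseg u w) (oseg (C.K * (x - 1), C.K * y) (C.K * (x + 1), C.K * y)) := by
    intro u w huw x hx
    rw [Set.disjoint_left]
    intro z hz hz'
    have hz0 := hz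
    rw [mem_hor ((Klt h).2 (by linarith))] at hz'
    obtain ⟨b1, b2, b3⟩ := hz'
    obtain ⟨t, h0, h1, e1, e2⟩ := G4aux.mem_seg hz
    simp only [emb] at e1 e2
    have hu := hside u (huw.2 u (Sym2.mem_mk_left u w))
    have hw := hside w (huw.2 w (Sym2.mem_mk_right u w))
    have hu' : (0 : ℝ) ≤ ε * (u.2 - (C.K * y : ℤ)) := by exact_mod_cast hu
    have hw' : (0 : ℝ) ≤ ε * (w.2 - (C.K * y : ℤ)) := by exact_mod_cast hw
    have e3 : (1 - t) * (ε * (u.2 - (C.K * y : ℤ)) : ℝ) + t * (ε * (w.2 - (C.K * y : ℤ)) : ℝ) = 0 := by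
      have : (ε : ℝ) * (z.2 - (C.K * y : ℤ)) = 0 := by rw [b3]; ring
      rw [e2] at this
      linear_combination this
    have k1 : (ε * (u.2 - (C.K * y : ℤ)) : ℝ) = 0 := by
      have p1 : 0 < 1 - t := by linarith
      have p2 := mul_nonneg p1.le hu'
      have p3 := mul_nonneg h0.le hw'
      have p4 : (1 - t) * (ε * (u.2 - (C.K * y : ℤ)) : ℝ) = 0 := by linarith
      rcases mul_eq_zero.1 p4 with p5 | p5
      · linarith
      · exact p5
    have k2 : (ε * (w.2 - (C.K * y : ℤ)) : ℝ) = 0 := by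
      rw [k1] at e3
      have p4 : t * (ε * (w.2 - (C.K * y : ℤ)) : ℝ) = 0 := by linarith
      rcases mul_eq_zero.1 p4 with p5 | p5
      · linarith
      · exact p5
    have hε0 : (ε : ℝ) ≠ 0 := by rcases hε with rfl | rfl <;> norm_num
    have k3 : u.2 = C.K * y := by
      have := (mul_eq_zero.1 k1).resolve_left hε0
      have : ((u.2 : ℤ) : ℝ) = ((C.K * y : ℤ) : ℝ) := by linarith
      exact_mod_cast this
    have k4 : w.2 = C.K * y := by
      have := (mul_eq_zero.1 k2).resolve_left hε0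
      have : ((w.2 : ℤ) : ℝ) = ((C.K * y : ℤ) : ℝ) := by linarith
      exact_mod_cast this
    have k5 := row_seg h (hT.seg _ _ huw.1) hy k3 k4 hx hz0 b1 b2
    exact hmiss _ hx rfl (k5 ▸ huw.1)
  refine card_nc hNC ?_ ?_
  · rintro p q (hpq | hpq)
    · exact isSeg_sub hA (hT.seg _ _ hpq.1) (hpq.2 p (Sym2.mem_mk_left p q))
        (hpq.2 q (Sym2.mem_mk_right p q))
    · obtain ⟨x, hx, hxe⟩ := (memF2 _).1 hpq
      exact g5_isSeg_congr hxe (longH_seg h hA hx hrow)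
  · rintro p q p' q' (hpq | hpq) (hpq' | hpq') hne
    · exact hT.noncross _ _ _ _ hpq.1 hpq'.1 hne
    · obtain ⟨x, hx, hxe⟩ := (memF2 _).1 hpq'
      rw [← g5_oseg_congr hxe]
      exact mix p q hpq x hx
    · obtain ⟨x, hx, hxe⟩ := (memF2 _).1 hpq
      rw [← g5_oseg_congr hxe]
      exact (mix p' q' hpq' x hx).symm
    · obtain ⟨x, hx, hxe⟩ := (memF2 _).1 hpq
      obtain ⟨x', hx', hxe'⟩ := (memF2 _).1 hpq'
      rw [← g5_oseg_congr hxe, ← g5_oseg_congr hxe', Set.disjoint_left]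
      intro z hz hz'
      have := longH_disj h hx hx' hz hz'
      apply hne
      rw [← hxe, ← hxe', this]

end Pool.Agent.Y605.ST
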