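import Pool.Agent.Y605.ST.Cross

/-!
# The upper bound for the lines with a ruler
-/

set_option autoImplicit false

namespace Pool.Agent.Y605.ST

open Pool.Agent.W982.TA

open scoped Classical

section
variable {C : Cfg} {φ : ℤ × ℤ → Prop}

/-- the next point of the row -/
noncomputable def nxt (C : Cfg) (x y : ℤ) : ℤ := if (x + 1, y) ∈ C.M then x + 2 else x + 1

theorem nxt_lt (x y : ℤ) : x < nxt C x y := by
  unfold nxt; split_ifs <;> linarith

/-- the next edge of the row -/
noncomputable def nedge (C : Cfg) (p : ℤ × ℤ) : Sym2 Pt :=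
  s((C.K * p.1, C.K * p.2), (C.K * nxt C p.1 p.2, C.K * p.2))

theorem nedge_inj (h : C.OK) : Function.Injective (nedge C) := by
  rintro ⟨x, y⟩ ⟨x', y'⟩ he
  have hK := Cfg.K_pos h
  unfold nedge at he
  dsimp only at he
  rcases Sym2.eq_iff.1 he with ⟨h1, -⟩ | ⟨h1, h2⟩
  · rw [Prod.mk.injEq] at h1
    rw [mul_inj hK h1.1, mul_inj hK h1.2]
  · rw [Prod.mk.injEq] at h1 h2
    have e1 := mul_inj hK h1.1
    have e2 := mul_inj hK h2.1
    have l1 := nxt_lt (C := C) x y
    have l2 := nxt_lt (C := C) x' y'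
    omega

theorem longV_inj (h : C.OK) : Function.Injective (longV C) := by
  rintro ⟨x, y⟩ ⟨x', y'⟩ he
  unfold longV at he
  dsimp only at he
  have hK := Cfg.K_pos h
  rcases Sym2.eq_iff.1 he with ⟨h1, h2⟩ | ⟨h1, h2⟩
  · rw [Prod.mk.injEq] at h1
    have e1 := mul_inj hK h1.1
    have e2 := mul_inj hK h1.2
    rw [Prod.mk.injEq]
    exact ⟨e1, by linarith⟩
  · rw [Prod.mk.injEq] at h1 h2
    have e1 := mul_inj hK h1.2
    have e2 := mul_inj hK h2.2
    omega

/-- a point of an open segment on an extreme row -/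
theorem flat_of_side (h : C.OK) (ε : ℤ) (hε : ε = 1 ∨ ε = -1) {y : ℤ} {u w : Pt}
    (hu : 0 ≤ ε * (u.2 - C.K * y)) (hw : 0 ≤ ε * (w.2 - C.K * y)) {z : ℝ × ℝ}
    (hz : z ∈ oseg u w) (hz2 : z.2 = ((C.K * y : ℤ) : ℝ)) : u.2 = C.K * y ∧ w.2 = C.K * y := by
  obtain ⟨t, h0, h1, e1, e2⟩ := G4aux.mem_seg hz
  simp only [emb] at e1 e2
  have hu' : (0 : ℝ) ≤ ε * (u.2 - (C.K * y : ℤ)) := by exact_mod_cast hu
  have hw' : (0 : ℝ) ≤ ε * (w.2 - (C.K * y : ℤ)) := by exact_mod_cast hw
  have e3 : (1 - t) * (ε * (u.2 - (C.K * y : ℤ)) : ℝ) + t * (ε * (w.2 - (C.K * y : ℤ)) : ℝ) = 0 := by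
    have : (ε : ℝ) * (z.2 - (C.K * y : ℤ)) = 0 := by rw [hz2]; ring
    rw [e2] at this
    linear_combination this
  have k1 : (ε * (u.2 - (C.K * y : ℤ)) : ℝ) = 0 := by
    have p1 : 0 < 1 - t := by linarith
    have p2 := mul_nonneg p1.le hu'
    have p3 := mul_nonneg h0.le hw'
    have p4 : (1 - t) * (ε * (u.2 - (C.K * y : ℤ)) : ℝ) = 0 := by linarith
    rcases mul_eq_zero.1 p4 with p5 | p5
    · linarith
    · exact p5
  have k2 : (ε * (w.2 - (C.K * y : ℤ)) : ℝ) = 0 := by
    rw [k1] at e3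
    have p4 : t * (ε * (w.2 - (C.K * y : ℤ)) : ℝ) = 0 := by linarith
    rcases mul_eq_zero.1 p4 with p5 | p5
    · linarith
    · exact p5
  have hε0 : (ε : ℝ) ≠ 0 := by rcases hε with rfl | rfl <;> norm_num
  constructor
  · have := (mul_eq_zero.1 k1).resolve_left hε0
    have : ((u.2 : ℤ) : ℝ) = ((C.K * y : ℤ) : ℝ) := by linarith
    exact_mod_cast this
  · have := (mul_eq_zero.1 k2).resolve_left hε0
    have : ((w.2 : ℤ) : ℝ) = ((C.K * y : ℤ) : ℝ) := by linarith
    exact_mod_cast this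

/-- the upper bound -/
theorem upb (h : C.OK) {T : Set (Sym2 Pt)} (hT : IsTriangulation C.P T) (hE : E0 C φ ⊆ T)
    {j : ℤ} (hj : j ∈ C.H) (hex : ∃ p ∈ C.M, (p.2 = j ∨ p.2 = j + 1) ∧ φ p) :
    ((hst T (C.K * j + C.σ)).ncard : ℤ) ≤ 3 * (C.r * (C.σ - 1)) + 2 * (C.a + C.r) := by
  have hK := Cfg.K_pos h
  have hσ := h.σpos
  have ha := h.apos
  have hr := h.rpos
  have hK2 : C.K = 2 * C.σ := rfl
  have hj' := h.Hbox j hj
  have hfinT := tri_finite hT
  set c := C.K * j + C.σ with hc
  have eK : C.K * (j + 1) = C.K * j + C.K := by ring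
  set St := C.P.filter fun p => C.K * j ≤ p.2 ∧ p.2 ≤ C.K * (j + 1) with hSt
  set N := C.M.filter fun p => (p.2 = j ∨ p.2 = j + 1) ∧ ¬ φ p with hN
  set LH : Set (Sym2 Pt) := ↑(N.image (longH C)) with hLH
  set LV : Set (Sym2 Pt) := ↑(N.image (longV C)) with hLV
  have memLH : ∀ e, e ∈ LH ↔ ∃ x y, (x, y) ∈ C.M ∧ (y = j ∨ y = j + 1) ∧ ¬ φ (x, y) ∧
      longH C (x, y) = e := by
    intro e
    rw [hLH, Finset.mem_coe, Finset.mem_image]
    constructor
    · rintro ⟨⟨x, y⟩, h1, h2⟩
      rw [hN, Finset.mem_filter] at h1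
      exact ⟨x, y, h1.1, h1.2.1, h1.2.2, h2⟩
    · rintro ⟨x, y, h1, h2, h3, h4⟩
      exact ⟨(x, y), by rw [hN, Finset.mem_filter]; exact ⟨h1, h2, h3⟩, h4⟩
  have finLH : LH.Finite := Finset.finite_toSet _
  have finLV : LV.Finite := Finset.finite_toSet _
  have finI : (ins T St).Finite := hfinT.subset fun e he => he.1
  -- the strip
  have subSt : St ⊆ C.P := Finset.filter_subset _ _
  have rowSt : ∀ y, (y = j ∨ y = j + 1) → ∀ p ∈ C.P, p.2 = C.K * y → p ∈ St := by
    intro y hy p hp hp2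
    rw [hSt, Finset.mem_filter]
    refine ⟨hp, ?_⟩
    rw [hp2]
    rcases hy with rfl | rfl
    · exact ⟨le_rfl, by linarith⟩
    · exact ⟨by linarith, le_rfl⟩
  have corner : ∀ x y : ℤ, (x = 0 ∨ x = C.a + C.r) → 0 ≤ y → y ≤ C.a →
      ((C.K * x, C.K * y) : Pt) ∈ C.P := by
    intro x y hx hy0 hy
    refine Cfg.mem_lat h (Cfg.lat_bd h ?_ ?_ hy0 hy ?_)
    · rcases hx with rfl | rfl <;> linarith
    · rcases hx with rfl | rfl <;> linarith
    · rcases hx with rfl | rfl
      · exact Or.inl (by norm_num)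
      · exact Or.inr (Or.inl (by linarith))
  have NCS : NC St := by
    refine ⟨_, rowSt j (Or.inl rfl) _ (corner 0 j (Or.inl rfl) (by linarith) (by linarith)) rfl,
      _, rowSt j (Or.inl rfl) _ (corner _ j (Or.inr rfl) (by linarith) (by linarith)) rfl,
      _, rowSt (j + 1) (Or.inr rfl) _ (corner 0 (j + 1) (Or.inl rfl) (by linarith) (by linarith)) rfl, ?_⟩
    unfold dt
    dsimp only
    have e : (C.K * (C.a + C.r) - C.K * 0) * (C.K * (j + 1) - C.K * j) -
        (C.K * j - C.K * j) * (C.K * 0 - C.K * 0) = (C.K * (C.a + C.r)) * C.K := by ring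
    rw [e]
    exact (mul_pos (mul_pos hK (by linarith)) hK).ne'
  -- no prescribed segment of the strip crosses the missing long edges
  have mix : ∀ u w : Pt, s(u, w) ∈ ins T St → ∀ x y, (x, y) ∈ C.M → (y = j ∨ y = j + 1) →
      ¬ φ (x, y) → Disjoint (oseg u w) (oseg (C.K * (x - 1), C.K * y) (C.K * (x + 1), C.K * y)) := by
    intro u w huw x y hM hy hφ
    rw [Set.disjoint_left]
    intro z hz hz'
    obtain ⟨b1, b2, b3⟩ := (mem_longH h).1 hz'
    have hu := (Finset.mem_filter.1 (huw.2 u (Sym2.mem_mk_left u w))).2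
    have hw := (Finset.mem_filter.1 (huw.2 w (Sym2.mem_mk_right u w))).2
    have hflat : u.2 = C.K * y ∧ w.2 = C.K * y := by
      rcases hy with rfl | rfl
      · exact flat_of_side h 1 (Or.inl rfl) (by linarith [hu.1]) (by linarith [hw.1]) hz b3
      · exact flat_of_side h (-1) (Or.inr rfl) (by linarith [hu.2]) (by linarith [hw.2]) hz b3
    have hya : y < C.a := by rcases hy with rfl | rfl <;> linarith
    have k5 := row_seg h (hT.seg _ _ huw.1) hya hflat.1 hflat.2 hM hz b1 b2
    have k6 : longH C (x, y) ∈ T := k5 ▸ huw.1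
    have k7 := hE (longV_mem hM hφ)
    have k8 : longH C (x, y) = longV C (x, y) := by
      refine eq_of_meet hT k6 k7 (z := (((C.K * x : ℤ) : ℝ), ((C.K * y : ℤ) : ℝ))) ?_ ?_
      · exact (mem_longH h).2 ⟨(KltR h).2 (by linarith), (KltR h).2 (by linarith), rfl⟩
      · exact (mem_longV h).2 ⟨(KltR h).2 (by linarith), (KltR h).2 (by linarith), rfl⟩
    unfold longH longV at k8
    dsimp only at k8
    rcases Sym2.eq_iff.1 k8 with ⟨g1, -⟩ | ⟨g1, -⟩
    · rw [Prod.mk.injEq] at g1
      have := mul_inj hK g1.1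
      omega
    · rw [Prod.mk.injEq] at g1
      have := mul_inj hK g1.1
      omega
  have cG : (ins T St ∪ LH).ncard + 3 + hb St ≤ 3 * St.card := by
    refine card_nc NCS ?_ ?_
    · rintro p q (hpq | hpq)
      · exact isSeg_sub subSt (hT.seg _ _ hpq.1) (hpq.2 p (Sym2.mem_mk_left p q))
          (hpq.2 q (Sym2.mem_mk_right p q))
      · obtain ⟨x, y, hM, hy, -, hxe⟩ := (memLH _).1 hpq
        exact g5_isSeg_congr hxe (longH_seg h subSt hM (rowSt y hy))
    · rintro p q p' q' (hpq | hpq) (hpq' | hpq') hne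
      · exact hT.noncross _ _ _ _ hpq.1 hpq'.1 hne
      · obtain ⟨x, y, hM, hy, hφ, hxe⟩ := (memLH _).1 hpq'
        rw [← g5_oseg_congr hxe]
        exact mix p q hpq x y hM hy hφ
      · obtain ⟨x, y, hM, hy, hφ, hxe⟩ := (memLH _).1 hpq
        rw [← g5_oseg_congr hxe]
        exact (mix p' q' hpq' x y hM hy hφ).symm
      · obtain ⟨x, y, hM, hy, hφ, hxe⟩ := (memLH _).1 hpq
        obtain ⟨x', y', hM', hy', hφ', hxe'⟩ := (memLH _).1 hpq'
        rw [← g5_oseg_congr hxe, ← g5_oseg_congr hxe', Set.disjoint_left]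
        intro z hz hz'
        have := longH_disj h hM hM' hz hz'
        apply hne
        rw [← hxe, ← hxe', this]
  -- boundary points of the strip
  have cB : (C.row j).card + (C.row (j + 1)).card ≤ hb St := by
    rw [← Finset.card_union_of_disjoint]
    · refine Finset.card_le_card ?_
      intro p hp
      rw [Finset.mem_union] at hp
      unfold Cfg.row at hp
      rw [Finset.mem_filter, Finset.mem_filter] at hp
      rw [Finset.mem_filter]
      rcases hp with hp | hp
      · refine ⟨rowSt j (Or.inl rfl) p hp.1 hp.2, 0, -1, Or.inr (by norm_num), fun s hs => ?_⟩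
        have := (Finset.mem_filter.1 hs).2.1
        rw [hp.2]; linarith
      · refine ⟨rowSt (j + 1) (Or.inr rfl) p hp.1 hp.2, 0, 1, Or.inr (by norm_num), fun s hs => ?_⟩
        have := (Finset.mem_filter.1 hs).2.2
        rw [hp.2]; linarith
    · rw [Finset.disjoint_left]
      intro p hp hp'
      have e1 := (Finset.mem_filter.1 hp).2
      have e2 := (Finset.mem_filter.1 hp').2
      linarith
  -- the points of the strip
  have cS : St.card ≤ (C.row j).card + (C.row (j + 1)).card +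
      (C.P.filter fun p => p.2 = C.K * j + C.σ).card := by
    have hsub : St ⊆ (C.row j ∪ C.row (j + 1)) ∪ (C.P.filter fun p => p.2 = C.K * j + C.σ) := by
      intro p hp
      rw [hSt, Finset.mem_filter] at hp
      obtain ⟨h1, h2, h3⟩ := hp
      rw [Finset.mem_union, Finset.mem_union]
      rcases lt_trichotomy p.2 (C.K * j + C.σ) with h4 | h4 | h4
      · left; left
        have := Cfg.below h ((Cfg.mem_P h).1 h1) (by linarith) h4
        exact Finset.mem_filter.2 ⟨h1, by linarith⟩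
      · right
        exact Finset.mem_filter.2 ⟨h1, h4⟩
      · left; right
        have := Cfg.above h ((Cfg.mem_P h).1 h1) (by linarith) h4
        exact Finset.mem_filter.2 ⟨h1, by linarith⟩
    have h1 := Finset.card_le_card hsub
    have h2 := Finset.card_union_le (C.row j ∪ C.row (j + 1)) (C.P.filter fun p => p.2 = C.K * j + C.σ)
    have h3 := Finset.card_union_le (C.row j) (C.row (j + 1))
    omega
  -- the edges of the two rows
  set D := (Finset.Ico (0 : ℤ) (C.a + C.r) ×ˢ ({j, j + 1} : Finset ℤ)).filter fun p => p ∉ C.M with hD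
  have cD : 2 * (C.a + C.r) ≤ (D.card : ℤ) + C.R j + C.R (j + 1) := by
    have e1 : (Finset.Ico (0 : ℤ) (C.a + C.r) ×ˢ ({j, j + 1} : Finset ℤ)).card =
        2 * (C.a + C.r).toNat := by
      rw [Finset.card_product, Int.card_Ico, Finset.card_pair (by omega), sub_zero, mul_comm]
    have e2 := Finset.card_filter_add_card_filter_not
      (s := Finset.Ico (0 : ℤ) (C.a + C.r) ×ˢ ({j, j + 1} : Finset ℤ)) (fun p => p ∈ C.M)
    have e3 : ((Finset.Ico (0 : ℤ) (C.a + C.r) ×ˢ ({j, j + 1} : Finset ℤ)).filter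
        (fun p => p ∈ C.M)).card ≤ C.R j + C.R (j + 1) := by
      unfold Cfg.R
      refine le_trans (Finset.card_le_card ?_) (Finset.card_union_le _ _)
      rintro ⟨x, y⟩ hp
      rw [Finset.mem_filter, Finset.mem_product, Finset.mem_insert, Finset.mem_singleton] at hp
      rw [Finset.mem_union, Finset.mem_filter, Finset.mem_filter]
      rcases hp.1.2 with h1 | h1
      · exact Or.inl ⟨hp.2, h1⟩
      · exact Or.inr ⟨hp.2, h1⟩
    rw [e1] at e2
    have e4 : ((C.a + C.r).toNat : ℤ) = C.a + C.r := Int.toNat_of_nonneg (by linarith)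
    have e5 : ((Finset.Ico (0 : ℤ) (C.a + C.r) ×ˢ ({j, j + 1} : Finset ℤ)).filter
        (fun p => ¬ p ∈ C.M)).card = D.card := rfl
    omega
  have memD : ∀ x y, (x, y) ∈ D → (0 ≤ x ∧ x < C.a + C.r) ∧ (y = j ∨ y = j + 1) ∧ (x, y) ∉ C.M := by
    intro x y hp
    rw [hD, Finset.mem_filter, Finset.mem_product, Finset.mem_insert, Finset.mem_singleton,
      Finset.mem_Ico] at hp
    exact ⟨hp.1.1, hp.1.2, hp.2⟩
  set RE : Set (Sym2 Pt) := ↑(D.image (nedge C)) with hRE
  have cRE : RE.ncard = D.card := by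
    rw [hRE, Set.ncard_coe_finset, Finset.card_image_of_injective _ (nedge_inj h)]
  have finRE : RE.Finite := Finset.finite_toSet _
  have subRE : RE ⊆ ins T St ∪ LH := by
    intro e he
    rw [hRE, Finset.mem_coe, Finset.mem_image] at he
    obtain ⟨⟨x, y⟩, hp, rfl⟩ := he
    obtain ⟨h1, h2, h3⟩ := memD x y hp
    have hya : y < C.a := by rcases h2 with rfl | rfl <;> linarith
    have hy0 : 0 ≤ y := by rcases h2 with rfl | rfl <;> linarith
    have hL : C.Lat (x, y) := ⟨h1.1, hy0, Or.inl ⟨h1.2.le, hya.le⟩, h3⟩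
    have inS : ∀ x' : ℤ, C.Lat (x', y) → ∀ p ∈ s(((C.K * x, C.K * y) : Pt), (C.K * x', C.K * y)),
        p ∈ St := by
      intro x' hL' p hp
      rcases Sym2.mem_iff.1 hp with rfl | rfl
      · exact rowSt y h2 _ (Cfg.mem_lat h hL) rfl
      · exact rowSt y h2 _ (Cfg.mem_lat h hL') rfl
    unfold nedge nxt
    dsimp only
    split_ifs with hM
    · have hL2 := Cfg.lat_near h hM 1 0 (by norm_num) (by norm_num) (by norm_num) (by norm_num)
        (Or.inl (by norm_num))
      have e1 : x + 1 + 1 = x + 2 := by ring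
      have e2 : y + 0 = y := by ring
      rw [e1, e2] at hL2
      have e3 : s(((C.K * x, C.K * y) : Pt), (C.K * (x + 2), C.K * y)) = longH C (x + 1, y) := by
        unfold longH
        dsimp only
        rw [add_sub_cancel_right, e1]
      by_cases hφ : φ (x + 1, y)
      · left
        refine ⟨?_, inS _ hL2⟩
        rw [e3]
        exact hE (longH_mem hM hφ)
      · right
        rw [e3]
        exact (memLH _).2 ⟨x + 1, y, hM, h2, hφ, rfl⟩
    · have hL2 : C.Lat (x + 1, y) := ⟨by dsimp only; omega, hy0, Or.inl ⟨by dsimp only; omega, hya.le⟩, hM⟩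
      left
      exact ⟨hE (unit_mem hL hL2), inS _ hL2⟩
  -- the edges of the strip that meet the line
  set H' := hst T c ∩ ins T St with hH'
  have finH' : H'.Finite := finI.subset Set.inter_subset_right
  have disj : Disjoint H' RE := by
    rw [Set.disjoint_left]
    rintro e ⟨⟨-, ⟨p, hp, hp'⟩, ⟨q, hq, hq'⟩⟩, -⟩ he
    rw [hRE, Finset.mem_coe, Finset.mem_image] at he
    obtain ⟨⟨x, y⟩, hp0, rfl⟩ := he
    obtain ⟨h1, h2, h3⟩ := memD x y hp0
    unfold nedge at hp hq
    dsimp only at hp hq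
    have ep : p.2 = C.K * y := by rcases Sym2.mem_iff.1 hp with rfl | rfl <;> rfl
    have eq : q.2 = C.K * y := by rcases Sym2.mem_iff.1 hq with rfl | rfl <;> rfl
    rw [ep] at hp'
    rw [eq] at hq'
    rcases h2 with rfl | rfl <;> linarith
  have cH' : H'.ncard + D.card ≤ (ins T St ∪ LH).ncard := by
    rw [← cRE, ← Set.ncard_union_eq disj finH' finRE]
    refine Set.ncard_le_ncard ?_ (finI.union finLH)
    rintro e (he | he)
    · exact Or.inl he.2
    · exact subRE he
  -- all edges that meet the line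
  have subH : hst T c ⊆ H' ∪ LV := by
    intro e he
    by_cases hin : e ∈ ins T St
    · exact Or.inl ⟨he, hin⟩
    · right
      obtain ⟨heT, ⟨p, hp, hpc⟩, ⟨q, hq, hqc⟩⟩ := he
      have hex : ∃ v ∈ e, v ∉ St := by
        by_contra hcon
        push Not at hcon
        exact hin ⟨heT, hcon⟩
      obtain ⟨v, hv, hvS⟩ := hex
      have hvP : v ∈ C.P := by
        induction e with
        | _ a b =>
          rcases Sym2.mem_iff.1 hv with rfl | rfl
          · exact mem_left hT heT
          · exact mem_right hT heT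
      have hv2 : v.2 < C.K * j ∨ C.K * (j + 1) < v.2 := by
        by_contra hcon
        push Not at hcon
        exact hvS (Finset.mem_filter.2 ⟨hvP, hcon.1, hcon.2⟩)
      have toLV : ∀ y, (y = j ∨ y = j + 1) → (∃ x, (x, y) ∈ C.M ∧ ¬ φ (x, y) ∧ e = longV C (x, y)) →
          e ∈ LV := by
        rintro y hy ⟨x, h1, h2, h3⟩
        rw [hLV, Finset.mem_coe, Finset.mem_image]
        exact ⟨(x, y), by rw [hN, Finset.mem_filter]; exact ⟨h1, hy, h2⟩, h3.symm⟩
      rcases hv2 with hv2 | hv2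
      · have hne : v ≠ q := by rintro rfl; linarith
        have he' : s(v, q) = e := ((Sym2.mem_and_mem_iff hne).1 ⟨hv, hq⟩).symm
        refine toLV j (Or.inl rfl) ?_
        obtain ⟨x, h1, h2, h3⟩ := cross_row h hT hE (by linarith : 0 ≤ j) (by linarith)
          (by rw [he']; exact heT : s(v, q) ∈ T) hv2 (by linarith)
        exact ⟨x, h1, h2, he' ▸ h3⟩
      · have hne : p ≠ v := by rintro rfl; linarith
        have he' : s(p, v) = e := ((Sym2.mem_and_mem_iff hne).1 ⟨hp, hv⟩).symm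
        refine toLV (j + 1) (Or.inr rfl) ?_
        obtain ⟨x, h1, h2, h3⟩ := cross_row h hT hE (by linarith : 0 ≤ j + 1) (by linarith)
          (by rw [he']; exact heT : s(p, v) ∈ T) (by linarith) hv2
        exact ⟨x, h1, h2, he' ▸ h3⟩
  have cLV : LV.ncard = N.card := by
    rw [hLV, Set.ncard_coe_finset, Finset.card_image_of_injective _ (longV_inj h)]
  have cH : (hst T c).ncard ≤ H'.ncard + N.card := by
    rw [← cLV]
    exact (Set.ncard_le_ncard subH (finH'.union finLV)).trans (Set.ncard_union_le _ _)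
  have cN : N.card + 1 ≤ C.R j + C.R (j + 1) := by
    obtain ⟨p, hp, hp2, hpφ⟩ := hex
    have hpN : p ∉ N := fun hpN => (Finset.mem_filter.1 hpN).2.2 hpφ
    rw [← Finset.card_insert_of_notMem hpN]
    unfold Cfg.R
    refine le_trans (Finset.card_le_card ?_) (Finset.card_union_le _ _)
    intro q hq
    rw [Finset.mem_union, Finset.mem_filter, Finset.mem_filter]
    rw [Finset.mem_insert] at hq
    rcases hq with rfl | hq
    · rcases hp2 with h1 | h1
      · exact Or.inl ⟨hp, h1⟩
      · exact Or.inr ⟨hp, h1⟩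
    · obtain ⟨h1, h2, -⟩ := Finset.mem_filter.1 hq
      rcases h2 with h2 | h2
      · exact Or.inl ⟨h1, h2⟩
      · exact Or.inr ⟨h1, h2⟩
  have k6 := card_row h (by linarith : 0 ≤ j) (by linarith)
  have k7 := card_row h (by linarith : 0 ≤ j + 1) (by linarith)
  have k8 := card_ruler h hj
  omega

end

end Pool.Agent.Y605.ST
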